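import Pool.Agent.P.MP_a1177c_nt.Basic

/-
The additive angle coordinate on the window.
-/

set_option autoImplicit false

namespace Pool.Agent.P.MP_a1177c_nt

open Complex Finset

/-- The two complex roots of `X² - bX + c`. -/
structure Rt (b c H : ℤ) where
  w : ℂ
  w' : ℂ
  hadd : w + w' = b
  hmul : w * w' = c
  hne : w ≠ w'
  hH : 8 * (|b| + |c| + 1) ≤ H

lemma exists_Rt {b c H : ℤ} (hD : b ^ 2 - 4 * c ≠ 0) (hH : 8 * (|b| + |c| + 1) ≤ H) :
    Nonempty (Rt b c H) := by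
  obtain ⟨s, hs⟩ := IsAlgClosed.exists_pow_nat_eq ((b : ℂ) ^ 2 - 4 * c) (n := 2) (by norm_num)
  refine ⟨⟨(b + s) / 2, (b - s) / 2, by ring, by linear_combination (-1 / 4) * hs, ?_, hH⟩⟩
  intro h
  have hs0 : s = 0 := by linear_combination h
  rw [hs0] at hs
  apply hD
  have : ((b ^ 2 - 4 * c : ℤ) : ℂ) = 0 := by push_cast; rw [← hs]; norm_num
  exact_mod_cast this

lemma root_bound {b c : ℤ} {w : ℂ} (h : w ^ 2 = b * w - c) : ‖w‖ ≤ |b| + |c| + 1 := by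
  have h1 : ‖w‖ ^ 2 ≤ |(b : ℝ)| * ‖w‖ + |(c : ℝ)| := by
    rw [← norm_pow, h]
    refine (norm_sub_le _ _).trans ?_
    rw [norm_mul, Complex.norm_intCast, Complex.norm_intCast]
  by_contra hlt
  push Not at hlt
  have hb := abs_nonneg (b : ℝ)
  have hc := abs_nonneg (c : ℝ)
  push_cast at hlt
  nlinarith

namespace Rt

variable {b c H : ℤ} (R : Rt b c H)

lemma sq : R.w ^ 2 = b * R.w - c := by rw [← R.hadd, ← R.hmul]; ring
lemma sq' : R.w' ^ 2 = b * R.w' - c := by rw [← R.hadd, ← R.hmul]; ring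

include R in
lemma hHR : 8 * (|(b : ℝ)| + |(c : ℝ)| + 1) ≤ H := by exact_mod_cast R.hH

include R in
lemma H8 : (8 : ℝ) ≤ H := by
  have := R.hHR
  have hb := abs_nonneg (b : ℝ)
  have hc := abs_nonneg (c : ℝ)
  linarith

include R in
lemma H8Z : (8 : ℤ) ≤ H := by exact_mod_cast R.H8

lemma bd : 8 * ‖R.w‖ ≤ H := by
  have := root_bound R.sq
  have := R.hHR
  push_cast at *
  linarith

lemma bd' : 8 * ‖R.w'‖ ≤ H := by
  have := root_bound R.sq'
  have := R.hHR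
  push_cast at *
  linarith

/-- The angle of slope `t`. -/
noncomputable def th (t : ℝ) : ℝ := ((log (1 + t * R.w) - log (1 + t * R.w')) / (R.w - R.w')).re

/-- The angle of a vector. -/
noncomputable def ang (x : ℤ × ℤ) : ℝ := R.th ((x.2 : ℝ) / x.1)

end Rt

lemma re_pos_of {H : ℝ} {w : ℂ} (hw : 8 * ‖w‖ ≤ H) {t : ℝ} (ht : |t| * H ≤ 4) :
    0 < (1 + t * w).re := by
  have h1 : ‖(t : ℂ) * w‖ ≤ 1 / 2 := by
    rw [norm_mul, Complex.norm_real, Real.norm_eq_abs]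
    nlinarith [abs_nonneg t, norm_nonneg w]
  have h2 := (abs_re_le_norm ((t : ℂ) * w)).trans h1
  rw [add_re, one_re]
  linarith [neg_abs_le ((t : ℂ) * w).re]

lemma ne_zero_of_re_pos {z : ℂ} (h : 0 < z.re) : z ≠ 0 := by
  rintro rfl; simp at h

lemma log_mul_of_re_pos {z z' : ℂ} (h : 0 < z.re) (h' : 0 < z'.re) :
    log (z * z') = log z + log z' := by
  rw [log_mul_eq_add_log_iff (ne_zero_of_re_pos h) (ne_zero_of_re_pos h')]
  have a := abs_lt.mp (abs_arg_lt_pi_div_two_iff.mpr (Or.inl h))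
  have a' := abs_lt.mp (abs_arg_lt_pi_div_two_iff.mpr (Or.inl h'))
  constructor <;> linarith [a.1, a.2, a'.1, a'.2]

lemma hasDerivAt_re {f : ℝ → ℂ} {f' : ℂ} {x : ℝ} (h : HasDerivAt f f' x) :
    HasDerivAt (fun t => (f t).re) f'.re x :=
  reCLM.hasFDerivAt.comp_hasDerivAt x h

namespace Rt

variable {b c H : ℤ} (R : Rt b c H)

lemma q_eq (t : ℝ) : (1 + t * R.w) * (1 + t * R.w') = ((1 + b * t + c * t ^ 2 : ℝ) : ℂ) := by
  push_cast
  rw [← R.hadd, ← R.hmul]; ring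

include R in
lemma q_bounds {t : ℝ} (ht : |t| * H ≤ 4) :
    1 / 2 ≤ 1 + b * t + c * t ^ 2 ∧ 1 + b * t + c * t ^ 2 ≤ 3 / 2 := by
  have h8 := R.H8
  have hH := R.hHR
  have hb := abs_nonneg (b : ℝ)
  have hc := abs_nonneg (c : ℝ)
  have h0 := abs_nonneg t
  have ht1 : |t| ≤ 1 := by nlinarith
  have h1 : |b * t + c * t ^ 2| ≤ (|(b : ℝ)| + |(c : ℝ)|) * |t| := by
    refine (abs_add_le _ _).trans ?_
    rw [abs_mul, abs_mul, abs_pow]
    nlinarith [mul_nonneg hc h0]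
  have h2 : (|(b : ℝ)| + |(c : ℝ)|) * |t| ≤ 1 / 2 := by nlinarith
  have h3 := abs_le.mp (h1.trans h2)
  constructor <;> linarith [h3.1, h3.2]

lemma hasDerivAt_th {t : ℝ} (ht : |t| * H ≤ 4) :
    HasDerivAt R.th (1 / (1 + b * t + c * t ^ 2)) t := by
  have h1 := re_pos_of R.bd ht
  have h2 := re_pos_of R.bd' ht
  have d1 : HasDerivAt (fun s : ℝ => 1 + (s : ℂ) * R.w) R.w t := by
    simpa using ((ofRealCLM.hasDerivAt (x := t)).mul_const R.w).const_add 1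
  have d2 : HasDerivAt (fun s : ℝ => 1 + (s : ℂ) * R.w') R.w' t := by
    simpa using ((ofRealCLM.hasDerivAt (x := t)).mul_const R.w').const_add 1
  have d3 := ((d1.clog_real (Or.inl h1)).sub (d2.clog_real (Or.inl h2))).div_const (R.w - R.w')
  have d4 := hasDerivAt_re d3
  have e : (R.w / (1 + t * R.w) - R.w' / (1 + t * R.w')) / (R.w - R.w') =
      ((1 / (1 + b * t + c * t ^ 2) : ℝ) : ℂ) := by
    rw [ofReal_div, ← R.q_eq]
    have n1 := ne_zero_of_re_pos h1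
    have n2 := ne_zero_of_re_pos h2
    have n3 := sub_ne_zero.mpr R.hne
    rw [div_sub_div _ _ n1 n2, div_div, div_eq_div_iff (mul_ne_zero (mul_ne_zero n1 n2) n3)
      (mul_ne_zero n1 n2)]
    push_cast
    ring
  rw [e, ofReal_re] at d4
  exact d4

lemma th_zero : R.th 0 = 0 := by simp [th]

lemma th_sub_bounds {t t' : ℝ} (ht : |t| * H ≤ 4) (ht' : |t'| * H ≤ 4) (h : t ≤ t') :
    2 / 3 * (t' - t) ≤ R.th t' - R.th t ∧ R.th t' - R.th t ≤ 2 * (t' - t) := by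
  rcases h.eq_or_lt with rfl | h
  · simp
  have h8 := R.H8
  have hin : ∀ s ∈ Set.Icc t t', |s| * H ≤ 4 := by
    intro s hs
    have : |s| ≤ max |t| |t'| := abs_le_max_abs_abs hs.1 hs.2
    rcases le_total |t| |t'| with h' | h'
    · rw [max_eq_right h'] at this; nlinarith
    · rw [max_eq_left h'] at this; nlinarith
  obtain ⟨s, hs, e⟩ := exists_hasDerivAt_eq_slope R.th (fun s => 1 / (1 + b * s + c * s ^ 2)) h
    (fun s hs => (R.hasDerivAt_th (hin s hs)).continuousAt.continuousWithinAt)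
    (fun s hs => R.hasDerivAt_th (hin s (Set.Ioo_subset_Icc_self hs)))
  obtain ⟨q1, q2⟩ := R.q_bounds (hin s (Set.Ioo_subset_Icc_self hs))
  have hd : 0 < t' - t := by linarith
  rw [eq_div_iff hd.ne'] at e
  rw [← e]
  have q3 : 2 / 3 ≤ 1 / (1 + b * s + c * s ^ 2) := by
    rw [le_div_iff₀ (by linarith)]; linarith
  have q4 : 1 / (1 + b * s + c * s ^ 2) ≤ 2 := by
    rw [div_le_iff₀ (by linarith)]; linarith
  constructor <;> nlinarith

lemma th_lip {t t' : ℝ} (ht : |t| * H ≤ 4) (ht' : |t'| * H ≤ 4) :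
    2 / 3 * |t - t'| ≤ |R.th t - R.th t'| ∧ |R.th t - R.th t'| ≤ 2 * |t - t'| := by
  rcases le_total t t' with h | h
  · obtain ⟨h1, h2⟩ := R.th_sub_bounds ht ht' h
    rw [abs_sub_comm t, abs_sub_comm (R.th t), abs_of_nonneg (by linarith),
      abs_of_nonneg (by linarith)]
    exact ⟨h1, h2⟩
  · obtain ⟨h1, h2⟩ := R.th_sub_bounds ht' ht h
    rw [abs_of_nonneg (by linarith), abs_of_nonneg (by linarith)]
    exact ⟨h1, h2⟩

lemma th_abs {t : ℝ} (ht : |t| * H ≤ 4) : 2 / 3 * |t| ≤ |R.th t| ∧ |R.th t| ≤ 2 * |t| := by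
  have := R.th_lip ht (t' := 0) (by simp)
  simpa [R.th_zero] using this

/-- Every small angle is attained. -/
lemma exists_slope {φ : ℝ} (hφ : |φ| * H ≤ 2 / 3) : ∃ t : ℝ, |t| * H ≤ 1 ∧ R.th t = φ := by
  have h8 := R.H8
  have hH : (0 : ℝ) < H := by linarith
  have e1 : |(1 / H : ℝ)| * H ≤ 4 := by
    rw [abs_of_pos (by positivity)]; field_simp; norm_num
  have e2 : |(-(1 / H) : ℝ)| * H ≤ 4 := by rwa [abs_neg]
  have a1 := (R.th_sub_bounds (t := 0) (by simp) e1 (by positivity)).1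
  have a2 := (R.th_sub_bounds (t' := 0) e2 (by simp) (by
    have : (0 : ℝ) < 1 / H := by positivity
    linarith)).1
  rw [R.th_zero] at a1 a2
  have hφ' : |φ| ≤ 2 / 3 * (1 / H) := by
    rw [mul_one_div, le_div_iff₀ hH]; exact hφ
  have hin : ∀ s ∈ Set.Icc (-(1 / H) : ℝ) (1 / H), |s| * H ≤ 1 := by
    intro s hs
    have : |s| ≤ 1 / H := abs_le.mpr ⟨hs.1, hs.2⟩
    rwa [le_div_iff₀ hH] at this
  have := intermediate_value_Icc (f := R.th) (a := (-(1 / H) : ℝ)) (b := (1 / H : ℝ))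
    (by have : (0 : ℝ) < 1 / H := by positivity
        linarith)
    (fun s hs => (R.hasDerivAt_th ((hin s hs).trans (by norm_num))).continuousAt.continuousWithinAt)
  obtain ⟨t, ht, e⟩ := this (show φ ∈ Set.Icc _ _ from
    ⟨by linarith [(abs_le.mp hφ').1], by linarith [(abs_le.mp hφ').2]⟩)
  exact ⟨t, hin t ht, e⟩

end Rt

lemma W.slope {H : ℤ} {x : ℤ × ℤ} (hx : W H x) : |(x.2 : ℝ) / x.1| * H ≤ 1 := by
  have h1 : (0 : ℝ) < x.1 := by exact_mod_cast hx.1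
  have h2 : (H : ℝ) * |(x.2 : ℝ)| ≤ x.1 := by exact_mod_cast hx.2
  rw [abs_div, abs_of_pos h1, div_mul_eq_mul_div, div_le_one h1]
  linarith

lemma W_of_slope {H : ℤ} {x : ℤ × ℤ} (h : 0 < x.1) (hx : |(x.2 : ℝ) / x.1| * H ≤ 1) : W H x := by
  have h1 : (0 : ℝ) < x.1 := by exact_mod_cast h
  rw [abs_div, abs_of_pos h1, div_mul_eq_mul_div, div_le_one h1] at hx
  refine ⟨h, ?_⟩
  have : (H : ℝ) * |(x.2 : ℝ)| ≤ x.1 := by linarith
  exact_mod_cast this

lemma mul_fst_bounds {b c H : ℤ} (hH : 8 * (|b| + |c| + 1) ≤ H) {x y : ℤ × ℤ} (hx : W H x)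
    (hy : W H y) : 7 * (x.1 * y.1) ≤ 8 * (mul b c x y).1 ∧ (mul b c x y).1 ≤ 2 * (x.1 * y.1) ∧
      H * |(mul b c x y).2| ≤ 3 * (x.1 * y.1) := by
  have hb := abs_nonneg b
  have hc := abs_nonneg c
  have hH1 : 1 ≤ H := by omega
  have hy2 := abs_snd_le hH1 hy
  have hxy := mul_pos hx.1 hy.1
  have a0 : H * (|x.2| * y.1) ≤ x.1 * y.1 := by
    nlinarith [mul_le_mul_of_nonneg_right hx.2 hy.1.le]
  have a1 : |x.2| * |y.2| ≤ |x.2| * y.1 := mul_le_mul_of_nonneg_left hy2 (abs_nonneg _)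
  have a2 : 0 ≤ |x.2| * |y.2| := by positivity
  have h1 : 8 * |c * x.2 * y.2| ≤ x.1 * y.1 := by
    rw [abs_mul, abs_mul]
    nlinarith
  have h2 := neg_abs_le (c * x.2 * y.2)
  have h3 := le_abs_self (c * x.2 * y.2)
  refine ⟨by simp only [mul]; linarith, by simp only [mul]; linarith, ?_⟩
  simp only [mul]
  have h4 : |x.1 * y.2 + x.2 * y.1 + b * x.2 * y.2| ≤
      x.1 * |y.2| + |x.2| * y.1 + |b| * (|x.2| * |y.2|) := by
    refine (abs_add_le _ _).trans (add_le_add ((abs_add_le _ _).trans ?_) ?_)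
    · rw [abs_mul, abs_mul, abs_of_pos hx.1, abs_of_pos hy.1]
    · rw [abs_mul, abs_mul, mul_assoc]
  have a3 : H * (x.1 * |y.2|) ≤ x.1 * y.1 := by
    nlinarith [mul_le_mul_of_nonneg_left hy.2 hx.1.le]
  have a4 : H * (|b| * (|x.2| * |y.2|)) ≤ x.1 * y.1 := by
    have b1 : (H * |x.2|) * (H * |y.2|) ≤ x.1 * y.1 :=
      mul_le_mul hx.2 hy.2 (by positivity) hx.1.le
    have b2 : |b| * (|x.2| * |y.2|) ≤ H * (|x.2| * |y.2|) :=
      mul_le_mul_of_nonneg_right (by omega) a2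
    nlinarith [mul_le_mul_of_nonneg_left b2 (show 0 ≤ H by omega)]
  nlinarith [mul_le_mul_of_nonneg_left h4 (show 0 ≤ H by omega)]

namespace Rt

variable {b c H : ℤ} (R : Rt b c H)

include R in
lemma mul_slope {x y : ℤ × ℤ} (hx : W H x) (hy : W H y) :
    0 < (mul b c x y).1 ∧ |((mul b c x y).2 : ℝ) / (mul b c x y).1| * H ≤ 4 := by
  obtain ⟨h1, _, h3⟩ := mul_fst_bounds R.hH hx hy
  have hxy := mul_pos hx.1 hy.1
  have hp : 0 < (mul b c x y).1 := by linarith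
  refine ⟨hp, ?_⟩
  have hp' : (0 : ℝ) < (mul b c x y).1 := by exact_mod_cast hp
  rw [abs_div, abs_of_pos hp', div_mul_eq_mul_div, div_le_iff₀ hp']
  have : |(mul b c x y).2| * H ≤ 4 * (mul b c x y).1 := by linarith
  exact_mod_cast this

lemma ang_mul {x y : ℤ × ℤ} (hx : W H x) (hy : W H y) :
    R.ang (mul b c x y) = R.ang x + R.ang y := by
  obtain ⟨hp, _⟩ := R.mul_slope hx hy
  have hp' : (0 : ℝ) < (mul b c x y).1 := by exact_mod_cast hp
  have hx1 : (0 : ℝ) < x.1 := by exact_mod_cast hx.1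
  have hy1 : (0 : ℝ) < y.1 := by exact_mod_cast hy.1
  have sx : |(x.2 : ℝ) / x.1| * H ≤ 4 := hx.slope.trans (by norm_num)
  have sy : |(y.2 : ℝ) / y.1| * H ≤ 4 := hy.slope.trans (by norm_num)
  have key : ∀ w : ℂ, w ^ 2 = b * w - c → 8 * ‖w‖ ≤ H →
      log (1 + ((((mul b c x y).2 : ℝ) / (mul b c x y).1 : ℝ) : ℂ) * w) =
        Real.log ((x.1 : ℝ) * y.1 / (mul b c x y).1) +
          (log (1 + (((x.2 : ℝ) / x.1 : ℝ) : ℂ) * w) + log (1 + (((y.2 : ℝ) / y.1 : ℝ) : ℂ) * w)) := by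
    intro w hw hb
    have r1 := re_pos_of hb sx
    have r2 := re_pos_of hb sy
    rw [← log_mul_of_re_pos r1 r2, ← log_ofReal_mul (by positivity)
      (mul_ne_zero (ne_zero_of_re_pos r1) (ne_zero_of_re_pos r2))]
    congr 1
    have n1 : ((mul b c x y).1 : ℂ) ≠ 0 := by exact_mod_cast hp.ne'
    have n2 : (x.1 : ℂ) ≠ 0 := by exact_mod_cast hx.1.ne'
    have n3 : (y.1 : ℂ) ≠ 0 := by exact_mod_cast hy.1.ne'
    push_cast
    field_simp
    simp only [mul]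
    push_cast
    linear_combination (-(x.2 : ℂ) * y.2) * hw
  simp only [ang, th]
  rw [key R.w R.sq R.bd, key R.w' R.sq' R.bd', ← add_re]
  congr 1
  ring

/-- The derivatives of `x ↦ th (1 / x)`, up to sign. -/
noncomputable def gd : ℕ → ℝ → ℝ
  | 0 => fun x => R.th (1 / x)
  | j + 1 => fun x => (j.factorial : ℝ) *
      ((((x : ℂ) + R.w')⁻¹ ^ (j + 1) - ((x : ℂ) + R.w)⁻¹ ^ (j + 1)) / (R.w - R.w')).re

end Rt

lemma add_ne_zero_of {H x : ℝ} {w : ℂ} (hw : 8 * ‖w‖ ≤ H) (hH : 0 < H) (hx : H ≤ x) :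
    (x : ℂ) + w ≠ 0 := by
  intro h
  have : (x : ℂ) = -w := by linear_combination h
  have h2 : ‖(x : ℂ)‖ = ‖w‖ := by rw [this, norm_neg]
  rw [Complex.norm_real, Real.norm_eq_abs, abs_of_pos (by linarith)] at h2
  linarith

lemma hasDerivAt_inv_pow {x : ℝ} {w : ℂ} (h : (x : ℂ) + w ≠ 0) (j : ℕ) :
    HasDerivAt (fun s : ℝ => ((s : ℂ) + w)⁻¹ ^ (j + 1))
      (-((j + 1 : ℕ) : ℂ) * ((x : ℂ) + w)⁻¹ ^ (j + 2)) x := by
  have d1 : HasDerivAt (fun s : ℝ => (s : ℂ) + w) 1 x := by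
    simpa using (ofRealCLM.hasDerivAt (x := x)).add_const w
  have d2 := (d1.inv h).pow (j + 1)
  have e : (-((j + 1 : ℕ) : ℂ) * ((x : ℂ) + w)⁻¹ ^ (j + 2)) =
      ((j + 1 : ℕ) : ℂ) * ((x : ℂ) + w)⁻¹ ^ (j + 1 - 1) * (-1 / ((x : ℂ) + w) ^ 2) := by
    rw [Nat.add_sub_cancel, pow_add, inv_pow _ 2]
    ring
  rw [e]
  exact d2

lemma norm_pow_mul_sub_one {v v' : ℂ} {ε : ℝ} (h : ‖v - 1‖ ≤ ε) (h' : ‖v' - 1‖ ≤ ε) (m n : ℕ) :
    ‖v' ^ m * v ^ n - 1‖ ≤ (1 + ε) ^ (m + n) - 1 := by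
  have hε : 0 ≤ ε := (norm_nonneg _).trans h
  have step : ∀ (z u : ℂ) (k : ℕ), ‖u - 1‖ ≤ ε → ‖z - 1‖ ≤ (1 + ε) ^ k - 1 →
      ‖z * u - 1‖ ≤ (1 + ε) ^ (k + 1) - 1 := by
    intro z u k hu hz
    have e : z * u - 1 = (z - 1) * (u - 1) + (z - 1) + (u - 1) := by ring
    rw [e]
    refine (norm_add_le _ _).trans ((add_le_add_left (norm_add_le _ _) _).trans ?_)
    rw [norm_mul, pow_succ]
    have := mul_le_mul hz hu (norm_nonneg _) ((norm_nonneg _).trans hz)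
    nlinarith
  induction n with
  | zero =>
    induction m with
    | zero => simp
    | succ m ih =>
      have := step (v' ^ m) v' m h' (by simpa using ih)
      simpa [pow_succ] using this
  | succ n ih =>
    have := step (v' ^ m * v ^ n) v (m + n) h ih
    rw [pow_succ v, ← mul_assoc, ← add_assoc]
    exact this

lemma one_add_pow_le {ε : ℝ} (hε : 0 ≤ ε) (n : ℕ) (h : ε * n ≤ 1 / 3) : (1 + ε) ^ n ≤ 3 / 2 := by
  have key : ∀ m : ℕ, ε * m ≤ 1 / 3 → (1 + ε) ^ m * (1 - ε * m) ≤ 1 := by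
    intro m
    induction m with
    | zero => simp
    | succ m ih =>
      intro hm
      push_cast at hm ⊢
      have h1 := ih (by nlinarith)
      have h2 : (1 + ε) * (1 - ε * (m + 1)) ≤ 1 - ε * m := by
        nlinarith [mul_nonneg hε hε, mul_nonneg (mul_nonneg hε hε) (Nat.cast_nonneg (α := ℝ) m)]
      have h3 : 0 ≤ (1 + ε) ^ m := by positivity
      rw [pow_succ, mul_assoc]
      nlinarith [mul_le_mul_of_nonneg_left h2 h3]
  have := key n h
  have h3 : 0 ≤ (1 + ε) ^ n := by positivity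
  nlinarith

lemma norm_v_sub_one {H x : ℝ} {w : ℂ} (hw : 8 * ‖w‖ ≤ H) (hH : 0 < H) (hx : H ≤ x) :
    ‖(x : ℂ) * ((x : ℂ) + w)⁻¹ - 1‖ ≤ H / (4 * x) := by
  have hne := add_ne_zero_of hw hH hx
  have e : (x : ℂ) * ((x : ℂ) + w)⁻¹ - 1 = -w / ((x : ℂ) + w) := by field_simp; ring
  have hx0 : 0 < x := by linarith
  have h1 : x / 2 ≤ ‖(x : ℂ) + w‖ := by
    have := norm_sub_le ((x : ℂ) + w) w
    rw [add_sub_cancel_right, Complex.norm_real, Real.norm_eq_abs, abs_of_pos hx0] at this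
    linarith
  rw [e, norm_div, norm_neg, div_le_div_iff₀ (by linarith) (by linarith)]
  nlinarith [norm_nonneg w]

namespace Rt

variable {b c H : ℤ} (R : Rt b c H)

lemma hasDerivAt_gd (j : ℕ) (x : ℝ) (hx : (H : ℝ) ≤ x) :
    HasDerivAt (R.gd j) (-(R.gd (j + 1) x)) x := by
  have h8 := R.H8
  have hH : (0 : ℝ) < H := by linarith
  have hx0 : 0 < x := by linarith
  have n1 := add_ne_zero_of R.bd hH hx
  have n2 := add_ne_zero_of R.bd' hH hx
  have n3 := sub_ne_zero.mpr R.hne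
  cases j with
  | zero =>
    have ht : |1 / x| * H ≤ 4 := by
      rw [abs_of_pos (by positivity), div_mul_eq_mul_div, div_le_iff₀ hx0]; linarith
    have d1 : HasDerivAt (fun s : ℝ => 1 / s) (-(x ^ 2)⁻¹) x := by
      simpa [one_div] using hasDerivAt_inv hx0.ne'
    have d2 := (R.hasDerivAt_th ht).comp x d1
    have hq := (R.q_bounds ht).1
    have e : ((((x : ℂ) + R.w')⁻¹ ^ (0 + 1) - ((x : ℂ) + R.w)⁻¹ ^ (0 + 1)) / (R.w - R.w')) =
        (((x ^ 2 + b * x + c)⁻¹ : ℝ) : ℂ) := by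
      have : ((x ^ 2 + b * x + c : ℝ) : ℂ) = (x + R.w) * (x + R.w') := by
        push_cast; rw [← R.hadd, ← R.hmul]; ring
      rw [ofReal_inv, this]
      simp only [zero_add, pow_one]
      field_simp
      ring
    have e2 : -(R.gd (0 + 1) x) = 1 / (1 + b * (1 / x) + c * (1 / x) ^ 2) * -(x ^ 2)⁻¹ := by
      simp only [gd]
      rw [e, ofReal_re]
      have : x ^ 2 + b * x + c = x ^ 2 * (1 + b * (1 / x) + c * (1 / x) ^ 2) := by
        field_simp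
      rw [this]
      have hq' : 1 + b * (1 / x) + c * (1 / x) ^ 2 ≠ 0 := by linarith
      generalize 1 + b * (1 / x) + c * (1 / x) ^ 2 = Q at hq'
      simp only [Nat.factorial_zero, Nat.cast_one]
      field_simp
    rw [e2]
    exact d2
  | succ j =>
    have d1 := ((hasDerivAt_inv_pow n2 j).sub (hasDerivAt_inv_pow n1 j)).div_const (R.w - R.w')
    have d2 := (hasDerivAt_re d1).const_mul (j.factorial : ℝ)
    have e2 : -(R.gd (j + 1 + 1) x) = (j.factorial : ℝ) *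
        ((-((j + 1 : ℕ) : ℂ) * ((x : ℂ) + R.w')⁻¹ ^ (j + 2) -
          -((j + 1 : ℕ) : ℂ) * ((x : ℂ) + R.w)⁻¹ ^ (j + 2)) / (R.w - R.w')).re := by
      simp only [gd]
      have : (-((j + 1 : ℕ) : ℂ) * ((x : ℂ) + R.w')⁻¹ ^ (j + 2) -
          -((j + 1 : ℕ) : ℂ) * ((x : ℂ) + R.w)⁻¹ ^ (j + 2)) / (R.w - R.w') =
          ((-((j + 1 : ℕ) : ℝ) : ℝ) : ℂ) * ((((x : ℂ) + R.w')⁻¹ ^ (j + 1 + 1) -
            ((x : ℂ) + R.w)⁻¹ ^ (j + 1 + 1)) / (R.w - R.w')) := by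
        push_cast; ring
      rw [this, re_ofReal_mul, Nat.factorial_succ]
      push_cast
      ring
    rw [e2]
    exact d2

lemma gd_bounds (j : ℕ) (x : ℝ) (hx : (H : ℝ) * (j + 2) ≤ x) :
    ((j + 1).factorial : ℝ) / (2 * x ^ (j + 2)) ≤ R.gd (j + 1) x ∧
      R.gd (j + 1) x ≤ 2 * ((j + 1).factorial : ℝ) / x ^ (j + 2) := by
  have h8 := R.H8
  have hH : (0 : ℝ) < H := by linarith
  have hj : (0 : ℝ) ≤ j := Nat.cast_nonneg j
  have hx' : (H : ℝ) ≤ x := by nlinarith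
  have hx0 : 0 < x := by linarith
  have n1 := add_ne_zero_of R.bd hH hx'
  have n2 := add_ne_zero_of R.bd' hH hx'
  have n3 := sub_ne_zero.mpr R.hne
  have nx : (x : ℂ) ≠ 0 := by exact_mod_cast hx0.ne'
  set v := (x : ℂ) * ((x : ℂ) + R.w)⁻¹ with hv
  set v' := (x : ℂ) * ((x : ℂ) + R.w')⁻¹ with hv'
  have b1 : ‖v - 1‖ ≤ H / (4 * x) := norm_v_sub_one R.bd hH hx'
  have b2 : ‖v' - 1‖ ≤ H / (4 * x) := norm_v_sub_one R.bd' hH hx'
  have e : (((x : ℂ) + R.w')⁻¹ ^ (j + 1) - ((x : ℂ) + R.w)⁻¹ ^ (j + 1)) / (R.w - R.w') =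
      (((x ^ (j + 2))⁻¹ : ℝ) : ℂ) * ∑ i ∈ range (j + 1), v' ^ (i + 1) * v ^ (j - i + 1) := by
    have g := geom_sum₂_mul v' v (j + 1)
    have e1 : ∑ i ∈ range (j + 1), v' ^ (i + 1) * v ^ (j - i + 1) =
        (v' * v) * ∑ i ∈ range (j + 1), v' ^ i * v ^ (j + 1 - 1 - i) := by
      rw [mul_sum]
      refine sum_congr rfl (fun i _ => ?_)
      rw [Nat.add_sub_cancel]; ring
    have e2 : (x : ℂ) * (v' - v) = (R.w - R.w') * (v' * v) := by
      rw [hv, hv']; field_simp; ring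
    have e3 : ((x : ℂ) + R.w')⁻¹ = v' / x := by rw [hv']; field_simp
    have e4 : ((x : ℂ) + R.w)⁻¹ = v / x := by rw [hv]; field_simp
    rw [e1, e3, e4, div_pow, div_pow, ← sub_div, ← g, div_eq_iff n3]
    generalize (∑ i ∈ range (j + 1), v' ^ i * v ^ (j + 1 - 1 - i)) = S
    clear_value v v'
    push_cast
    rw [div_eq_iff (pow_ne_zero _ nx)]
    have e5 : ((x : ℂ) ^ (j + 2))⁻¹ * (x : ℂ) ^ (j + 1) * x = 1 := by
      rw [mul_assoc, ← pow_succ]; exact inv_mul_cancel₀ (pow_ne_zero _ nx)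
    linear_combination (-(S * (v' - v))) * e5 + (((x : ℂ) ^ (j + 2))⁻¹ * (x : ℂ) ^ (j + 1) * S) * e2
  have hterm : ∀ i ∈ range (j + 1), 1 / 2 ≤ (v' ^ (i + 1) * v ^ (j - i + 1)).re ∧
      (v' ^ (i + 1) * v ^ (j - i + 1)).re ≤ 2 := by
    intro i hi
    have hi' : i + 1 + (j - i + 1) = j + 2 := by have := mem_range.mp hi; omega
    have t1 := norm_pow_mul_sub_one b1 b2 (i + 1) (j - i + 1)
    rw [hi'] at t1
    have t2 := one_add_pow_le (ε := H / (4 * x)) (by positivity) (j + 2) (by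
      rw [div_mul_eq_mul_div, div_le_iff₀ (by linarith)]; push_cast; linarith)
    have t3 := abs_le.mp ((abs_re_le_norm _).trans t1)
    rw [sub_re, one_re] at t3
    constructor <;> linarith [t3.1, t3.2]
  have s1 : ((j : ℝ) + 1) * (1 / 2) ≤ (∑ i ∈ range (j + 1), v' ^ (i + 1) * v ^ (j - i + 1)).re := by
    rw [re_sum]
    have := card_nsmul_le_sum (range (j + 1)) _ (1 / 2 : ℝ) (fun i hi => (hterm i hi).1)
    simpa using this
  have s2 : (∑ i ∈ range (j + 1), v' ^ (i + 1) * v ^ (j - i + 1)).re ≤ ((j : ℝ) + 1) * 2 := by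
    rw [re_sum]
    have := sum_le_card_nsmul (range (j + 1)) _ (2 : ℝ) (fun i hi => (hterm i hi).2)
    simpa using this
  simp only [gd]
  rw [e, re_ofReal_mul, Nat.factorial_succ]
  have hp : 0 < x ^ (j + 2) := by positivity
  have hf : (0 : ℝ) < j.factorial := by exact_mod_cast j.factorial_pos
  set S := (∑ i ∈ range (j + 1), v' ^ (i + 1) * v ^ (j - i + 1)).re
  push_cast
  constructor
  · rw [div_le_iff₀ (by positivity)]
    have : (j.factorial : ℝ) * ((x ^ (j + 2))⁻¹ * S) * (2 * x ^ (j + 2)) = 2 * j.factorial * S := by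
      field_simp
    rw [this]; nlinarith
  · rw [le_div_iff₀ hp]
    have : (j.factorial : ℝ) * ((x ^ (j + 2))⁻¹ * S) * x ^ (j + 2) = j.factorial * S := by
      field_simp
    rw [this]; nlinarith

end Rt

end Pool.Agent.P.MP_a1177c_nt
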