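import Mathlib

/-
Approximating a real number by short sums of values `± h a`, through finite differences of `h`.
-/

set_option autoImplicit false

namespace Pool.Agent.P.MP_a1177c_nt

open Finset

/-- `τ` is a sum of at most `m` elements of `G`. -/
def Rep (G : Set ℝ) (τ : ℝ) (m : ℕ) : Prop :=
  ∃ l : List ℝ, (∀ g ∈ l, g ∈ G) ∧ l.length ≤ m ∧ l.sum = τ

lemma Rep.zero (G : Set ℝ) (m : ℕ) : Rep G 0 m := ⟨[], by simp, by simp, by simp⟩

lemma Rep.single {G : Set ℝ} {g : ℝ} (hg : g ∈ G) : Rep G g 1 := ⟨[g], by simpa, by simp, by simp⟩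

lemma Rep.mono {G : Set ℝ} {τ : ℝ} {m m' : ℕ} (h : Rep G τ m) (hm : m ≤ m') : Rep G τ m' := by
  obtain ⟨l, h1, h2, h3⟩ := h
  exact ⟨l, h1, h2.trans hm, h3⟩

lemma Rep.add {G : Set ℝ} {τ τ' : ℝ} {m m' : ℕ} (h : Rep G τ m) (h' : Rep G τ' m') :
    Rep G (τ + τ') (m + m') := by
  obtain ⟨l, h1, h2, h3⟩ := h
  obtain ⟨l', h1', h2', h3'⟩ := h'
  refine ⟨l ++ l', ?_, by simp; omega, by simp [h3, h3']⟩
  intro g hg
  rcases List.mem_append.mp hg with h | h
  · exact h1 g h
  · exact h1' g h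

lemma Rep.neg {G : Set ℝ} (hG : ∀ g ∈ G, -g ∈ G) {τ : ℝ} {m : ℕ} (h : Rep G τ m) :
    Rep G (-τ) m := by
  obtain ⟨l, h1, h2, h3⟩ := h
  refine ⟨l.map (fun x => -x), ?_, by simpa, ?_⟩
  · intro g hg
    obtain ⟨a, ha, rfl⟩ := List.mem_map.mp hg
    exact hG a (h1 a ha)
  · rw [← h3]
    clear h1 h2 h3
    induction l with
    | nil => simp
    | cons a l ih => simp only [List.map_cons, List.sum_cons, ih]; ring

lemma Rep.nsmul {G : Set ℝ} {τ : ℝ} {m : ℕ} (h : Rep G τ m) (n : ℕ) : Rep G (n * τ) (n * m) := by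
  induction n with
  | zero => simpa using Rep.zero G 0
  | succ n ih =>
    have := ih.add h
    have e1 : ((n + 1 : ℕ) : ℝ) * τ = n * τ + τ := by push_cast; ring
    have e2 : (n + 1) * m = n * m + m := by ring
    rw [e1, e2]; exact this

/-- Negative forward difference. -/
def dif (φ : ℝ → ℝ) : ℝ → ℝ := fun x => φ x - φ (x + 1)

lemma iter_dif (A : ℝ) : ∀ (i : ℕ) (g : ℕ → ℝ → ℝ),
    (∀ j x, A ≤ x → HasDerivAt (g j) (-(g (j + 1) x)) x) →
    ∀ x, A ≤ x → ∃ ξ, x ≤ ξ ∧ ξ ≤ x + i ∧ (dif^[i] (g 0)) x = g i ξ := by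
  intro i
  induction i with
  | zero => intro g _ x _; exact ⟨x, le_rfl, by simp, rfl⟩
  | succ i ih =>
    intro g hg x hx
    obtain ⟨ξ, h1, h2, h3⟩ := ih (fun j => dif (g j)) (by
      intro j y hy
      have a1 := hg j y hy
      have a2 := (hg j (y + 1) (by linarith)).comp_add_const y 1
      have h0 : HasDerivAt (fun x => g j x - g j (x + 1))
          (-g (j + 1) y - -g (j + 1) (y + 1)) y := a1.sub a2
      have e : -(dif (g (j + 1)) y) = -g (j + 1) y - -g (j + 1) (y + 1) := by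
        simp only [dif]; ring
      rw [e]
      exact h0) x hx
    obtain ⟨ζ, ⟨h4, h5⟩, h6⟩ := exists_hasDerivAt_eq_slope (g i) (fun y => -(g (i + 1) y))
      (show ξ < ξ + 1 by linarith)
      (fun y hy => (hg i y (by linarith [hy.1])).continuousAt.continuousWithinAt)
      (fun y hy => hg i y (by linarith [hy.1]))
    refine ⟨ζ, by linarith, by push_cast; linarith, ?_⟩
    rw [Function.iterate_succ_apply, h3]
    simp only [dif]
    simp only [add_sub_cancel_left, div_one] at h6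
    linarith

lemma rep_iter {G : Set ℝ} (hG : ∀ g ∈ G, -g ∈ G) (h : ℝ → ℝ) (A B : ℕ)
    (hmem : ∀ a : ℕ, A ≤ a → a ≤ B → h a ∈ G) :
    ∀ (j a : ℕ), A ≤ a → a + j ≤ B → Rep G ((dif^[j] h) a) (2 ^ j) := by
  intro j
  induction j with
  | zero => intro a h1 h2; simpa using Rep.single (hmem a h1 (by omega))
  | succ j ih =>
    intro a h1 h2
    rw [Function.iterate_succ_apply']
    have := (ih a h1 (by omega)).add ((ih (a + 1) (by omega) (by omega)).neg hG)
    have e : 2 ^ (j + 1) = 2 ^ j + 2 ^ j := by ring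
    rw [e]
    simpa [dif, sub_eq_add_neg] using this

/-- Discrete intermediate value step. -/
lemma discrete_ivt (v : ℕ → ℝ) (A : ℕ) (C e : ℝ) (he : 0 ≤ e) :
    ∀ n : ℕ, (∀ a, A ≤ a → a < A + n → v a - v (a + 1) ≤ C) → e < v A - v (A + n) →
      ∃ a, A ≤ a ∧ a ≤ A + n ∧ 0 ≤ e - (v A - v a) ∧ e - (v A - v a) ≤ C := by
  intro n
  induction n with
  | zero => intro _ h; simp at h; linarith
  | succ n ih =>
    intro hC h
    by_cases h' : e < v A - v (A + n)
    · obtain ⟨a, h1, h2, h3⟩ := ih (fun a h1 h2 => hC a h1 (by omega)) h'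
      exact ⟨a, h1, by omega, h3⟩
    · push Not at h'
      have := hC (A + n) (by omega) (by omega)
      rw [← add_assoc] at h
      exact ⟨A + n, by omega, by omega, by linarith, by linarith⟩

lemma drop_ge (v : ℕ → ℝ) (A : ℕ) (c : ℝ) :
    ∀ n : ℕ, (∀ a, A ≤ a → a < A + n → c ≤ v a - v (a + 1)) → n * c ≤ v A - v (A + n) := by
  intro n
  induction n with
  | zero => intro _; simp
  | succ n ih =>
    intro hc
    have h1 := ih (fun a h1 h2 => hc a h1 (by omega))
    have h2 := hc (A + n) (by omega) (by omega)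
    rw [← add_assoc]
    push_cast
    linarith

theorem approx {G : Set ℝ} (hG : ∀ g ∈ G, -g ∈ G) (h : ℝ → ℝ) (A k : ℕ) (hA : 0 < A)
    (hmem : ∀ a : ℕ, A ≤ a → a ≤ 2 * A + k → h a ∈ G) (cc C : ℕ → ℝ) (N : ℕ → ℕ)
    (hc : ∀ j, j < k → ∀ a : ℕ, A ≤ a → a ≤ 2 * A →
      cc (j + 1) ≤ (dif^[j + 1] h) a ∧ (dif^[j + 1] h) a ≤ C (j + 1))
    (hpos : ∀ j, 0 < cc j) (hN : ∀ j, j < k → C j ≤ N j * (A * cc (j + 1))) :
    ∀ j, j ≤ k → ∀ τ : ℝ, |τ| ≤ C 0 →
      ∃ σ, Rep G σ (∑ i ∈ range j, (N i + 1) * 2 ^ (i + 1)) ∧ |τ - σ| ≤ C j := by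
  intro j
  induction j with
  | zero => intro _ τ hτ; exact ⟨0, Rep.zero _ _, by simpa⟩
  | succ j ih =>
    intro hj τ hτ
    obtain ⟨σ, hσ, he⟩ := ih (by omega) τ hτ
    have step : ∀ e : ℝ, 0 ≤ e → e ≤ C j →
        ∃ s, Rep G s ((N j + 1) * 2 ^ (j + 1)) ∧ |e - s| ≤ C (j + 1) := by
      intro e he0 he1
      set v : ℕ → ℝ := fun a => (dif^[j] h) a with hv
      have hstep : ∀ a : ℕ, v a - v (a + 1) = (dif^[j + 1] h) a := by
        intro a
        rw [Function.iterate_succ_apply']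
        simp [hv, dif]
      have hW : A * cc (j + 1) ≤ v A - v (A + A) := drop_ge v A _ A (fun a h1 h2 => by
        rw [hstep]; exact (hc j (by omega) a h1 (by omega)).1)
      have hApos : (0 : ℝ) < A * cc (j + 1) := mul_pos (by exact_mod_cast hA) (hpos _)
      set Wd := v A - v (A + A) with hWd
      have hWpos : 0 < Wd := by linarith
      set n : ℕ := ⌊e / Wd⌋₊ with hn
      have hn1 : (n : ℝ) ≤ e / Wd := Nat.floor_le (by positivity)
      have hn2 : e / Wd < n + 1 := Nat.lt_floor_add_one _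
      rw [le_div_iff₀ hWpos] at hn1
      rw [div_lt_iff₀ hWpos] at hn2
      have hnN : n ≤ N j := by
        have h1 := hN j (by omega)
        have h2 : (N j : ℝ) * (A * cc (j + 1)) ≤ N j * Wd :=
          mul_le_mul_of_nonneg_left hW (by positivity)
        have h3 : (n : ℝ) * Wd ≤ N j * Wd := by linarith
        exact_mod_cast le_of_mul_le_mul_right h3 hWpos
      obtain ⟨a, a1, a2, a3, a4⟩ := discrete_ivt v A (C (j + 1)) (e - n * Wd) (by linarith) A
        (fun a h1 h2 => by rw [hstep]; exact (hc j (by omega) a h1 (by omega)).2) (by linarith)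
      have hrep : ∀ a', A ≤ a' → a' ≤ A + A → Rep G (v A - v a') (2 ^ (j + 1)) := by
        intro a' b1 b2
        have := (rep_iter hG h A (2 * A + k) hmem j A le_rfl (by omega)).add
          ((rep_iter hG h A (2 * A + k) hmem j a' b1 (by omega)).neg hG)
        have e : 2 ^ (j + 1) = 2 ^ j + 2 ^ j := by ring
        rw [e]
        simpa [hv, sub_eq_add_neg] using this
      refine ⟨n * Wd + (v A - v a), ?_, ?_⟩
      · refine (((hrep (A + A) (by omega) le_rfl).nsmul n).add (hrep a a1 a2)).mono ?_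
        nlinarith [Nat.pos_pow_of_pos' j]
      · rw [abs_le]; constructor <;> linarith
    rw [sum_range_succ]
    rcases le_total 0 (τ - σ) with h0 | h0
    · obtain ⟨s, s1, s2⟩ := step (τ - σ) h0 (by rwa [abs_of_nonneg h0] at he)
      exact ⟨σ + s, hσ.add s1, by rwa [← sub_sub]⟩
    · obtain ⟨s, s1, s2⟩ := step (-(τ - σ)) (by linarith) (by rwa [abs_of_nonpos h0] at he)
      refine ⟨σ + -s, hσ.add (s1.neg hG), ?_⟩
      rw [← abs_neg]
      convert s2 using 2
      ring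
where
  Nat.pos_pow_of_pos' (j : ℕ) : 0 < 2 ^ (j + 1) := by positivity

end Pool.Agent.P.MP_a1177c_nt
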