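import Mathlib

/-
Arithmetic in the order `ℤ[ω]`, `ω² = bω - c`, written in coordinates, and the Farey-graph lemma.
-/

set_option autoImplicit false

namespace Pool.Agent.P.MP_a1177c_nt

open ArithmeticFunction

/-- The norm form. -/
def nm (b c : ℤ) (x : ℤ × ℤ) : ℤ := x.1 ^ 2 + b * x.1 * x.2 + c * x.2 ^ 2

/-- Multiplication in coordinates. -/
def mul (b c : ℤ) (x y : ℤ × ℤ) : ℤ × ℤ :=
  (x.1 * y.1 - c * x.2 * y.2, x.1 * y.2 + x.2 * y.1 + b * x.2 * y.2)

/-- Determinant. -/
def det (x y : ℤ × ℤ) : ℤ := x.1 * y.2 - x.2 * y.1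

/-- First coordinate of `conj x * y`. -/
def bil (b c : ℤ) (x y : ℤ × ℤ) : ℤ := x.1 * y.1 + b * x.2 * y.1 + c * x.2 * y.2

/-- Parity of the number of prime factors of an integer. -/
def ipar (m : ℤ) : ZMod 2 := (cardFactors m.natAbs : ZMod 2)

/-- A completely additive function modulo two. -/
def Addv (col : ℤ → ZMod 2) : Prop := ∀ m n : ℤ, m ≠ 0 → n ≠ 0 → col (m * n) = col m + col n

/-- The colour of the norm. -/
def par (col : ℤ → ZMod 2) (b c : ℤ) (x : ℤ × ℤ) : ZMod 2 := col (nm b c x)

/-- The window: a narrow cone around the positive first axis. -/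
def W (H : ℤ) (x : ℤ × ℤ) : Prop := 0 < x.1 ∧ H * |x.2| ≤ x.1

lemma nm_mul (b c : ℤ) (x y : ℤ × ℤ) : nm b c (mul b c x y) = nm b c x * nm b c y := by
  simp only [nm, mul]; ring

lemma ipar_mul {m n : ℤ} (hm : m ≠ 0) (hn : n ≠ 0) : ipar (m * n) = ipar m + ipar n := by
  unfold ipar
  rw [Int.natAbs_mul, cardFactors_mul (Int.natAbs_ne_zero.mpr hm) (Int.natAbs_ne_zero.mpr hn)]
  push_cast; rfl

lemma Addv.sq_mul {col : ℤ → ZMod 2} (hc : Addv col) {g : ℤ} (hg : g ≠ 0) (n : ℤ) :
    col (g * g * n) = col n := by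
  rcases eq_or_ne n 0 with rfl | hn
  · simp
  · rw [hc _ _ (mul_ne_zero hg hg) hn, hc _ _ hg hg]
    have : col g + col g = 0 := CharTwo.add_self_eq_zero _
    rw [this, zero_add]

lemma nm_smul (b c g : ℤ) (x : ℤ × ℤ) : nm b c (g * x.1, g * x.2) = g * g * nm b c x := by
  simp only [nm]; ring

lemma par_smul {col : ℤ → ZMod 2} (hc : Addv col) (b c : ℤ) {g : ℤ} (hg : g ≠ 0) (x : ℤ × ℤ) :
    par col b c (g * x.1, g * x.2) = par col b c x := by
  unfold par
  rw [nm_smul, hc.sq_mul hg]

lemma par_mul {col : ℤ → ZMod 2} (hc : Addv col) (b c : ℤ) {x y : ℤ × ℤ} (hx : nm b c x ≠ 0)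
    (hy : nm b c y ≠ 0) : par col b c (mul b c x y) = par col b c x + par col b c y := by
  unfold par; rw [nm_mul, hc _ _ hx hy]

lemma nm_bil (b c : ℤ) {z w : ℤ × ℤ} (h : det z w = 1) :
    bil b c z w ^ 2 + b * bil b c z w + c = nm b c z * nm b c w := by
  simp only [det] at h
  simp only [bil, nm]
  have h2 : (z.1 * w.2 - z.2 * w.1) ^ 2 = 1 := by rw [h]; norm_num
  linear_combination (-(b * (z.1 * w.1 + b * z.2 * w.1 + c * z.2 * w.2))) * h - c * h2

/-- Membership in the closed parallelogram with vertices `± x, ± x'`. -/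
def Dia (x x' z : ℤ × ℤ) : Prop := |det x z| + |det z x'| ≤ |det x x'|

lemma plucker1 (x x' z : ℤ × ℤ) : det x x' * z.1 = det z x' * x.1 + det x z * x'.1 := by
  simp only [det]; ring

lemma plucker2 (x x' z : ℤ × ℤ) : det x x' * z.2 = det z x' * x.2 + det x z * x'.2 := by
  simp only [det]; ring

lemma plucker_det (x y x' z : ℤ × ℤ) :
    det y x' * det x z = det z x' * det x y + det y z * det x x' := by
  simp only [det]; ring

/-- The Farey lemma: two vectors on which a scale invariant colouring differs are separated by a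
unimodular bichromatic pair inside their parallelogram. -/
lemma farey {α : Type*} (F : ℤ × ℤ → α)
    (hF : ∀ (g : ℤ) (x : ℤ × ℤ), g ≠ 0 → F (g * x.1, g * x.2) = F x) (ok : ℤ × ℤ → Prop)
    (hok1 : ∀ (g : ℤ) (x : ℤ × ℤ), ok (g * x.1, g * x.2) → ok x)
    (hok2 : ∀ x y : ℤ × ℤ, det x y = 1 → ok x → ¬ ok y → ok (x - y)) :
    ∀ (k : ℕ) (x x' : ℤ × ℤ), det x x' = k → 0 < k → ok x → ok x' → F x ≠ F x' →
      ∃ z w : ℤ × ℤ, |det z w| = 1 ∧ F z ≠ F w ∧ ok z ∧ ok w ∧ Dia x x' z ∧ Dia x x' w := by
  intro k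
  induction k using Nat.strong_induction_on with
  | _ k ih =>
    intro x x' hk hpos okx okx' hne
    have hx0 : ¬ (x.1 = 0 ∧ x.2 = 0) := by
      rintro ⟨h1, h2⟩
      simp [det, h1, h2] at hk
      omega
    set g : ℕ := Int.gcd x.1 x.2 with hg
    have hgpos : 0 < g := by
      rw [hg]; apply Int.gcd_pos_iff.mpr; tauto
    have hkZ : (0 : ℤ) < k := by exact_mod_cast hpos
    by_cases hg1 : g = 1
    · -- primitive case
      have hbez := Int.gcd_eq_gcd_ab x.1 x.2
      rw [← hg, hg1] at hbez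
      set A := Int.gcdA x.1 x.2
      set B := Int.gcdB x.1 x.2
      set j0 : ℤ := det (-B, A) x' with hj0
      set t : ℤ := -(j0 / k) with ht
      set y : ℤ × ℤ := (-B + t * x.1, A + t * x.2) with hy
      have hxy : det x y = 1 := by
        simp only [det, hy]; push_cast at hbez; linear_combination -hbez
      have hj : det y x' = j0 % k := by
        rw [Int.emod_def]
        have : det y x' = j0 + t * det x x' := by simp only [det, hy, hj0]; ring
        rw [this, hk, ht]; ring
      have hj1 : 0 ≤ det y x' := by rw [hj]; exact Int.emod_nonneg _ hkZ.ne'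
      have hj2 : det y x' < k := by rw [hj]; exact Int.emod_lt_of_pos _ hkZ
      have hzero : det y x' = 0 → x' = ((k : ℤ) * y.1, (k : ℤ) * y.2) := by
        intro h
        have e1 := plucker1 x x' y
        have e2 := plucker2 x x' y
        rw [h, hxy, hk] at e1 e2
        ext <;> simp <;> linarith
      clear_value y
      obtain ⟨y', hy1, hy2, hy3, hy4, hy5⟩ : ∃ y' : ℤ × ℤ, |det x y'| = 1 ∧ 0 ≤ det y' x' ∧
          det y' x' < k ∧ ok y' ∧ (det y' x' = 0 → F y' = F x') := by
        by_cases hok : ok y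
        · refine ⟨y, by rw [hxy]; rfl, hj1, hj2, hok, fun h => ?_⟩
          rw [hzero h, hF _ _ hkZ.ne']
        · have h0 : det y x' ≠ 0 := fun h => hok (hok1 k y (hzero h ▸ okx'))
          have e1 : det x (x - y) = -det x y := by simp only [det, Prod.fst_sub, Prod.snd_sub]; ring
          have e2 : det (x - y) x' = det x x' - det y x' := by
            simp only [det, Prod.fst_sub, Prod.snd_sub]; ring
          refine ⟨x - y, by rw [e1, hxy]; rfl, by omega, by omega, hok2 x y hxy okx hok,
            fun h => by omega⟩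
      have hTx : Dia x x' x := by simp [Dia, det, mul_comm]
      have hTy : Dia x x' y' := by
        rw [Dia, hy1, hk, abs_of_nonneg hy2, abs_of_pos hkZ]; omega
      by_cases hFy : F x = F y'
      · have hjpos : 0 < det y' x' := by
          rcases hy2.lt_or_eq with h | h
          · exact h
          · exact absurd (hFy.trans (hy5 h.symm)) hne
        obtain ⟨z, w, h1, h2, o1, o2, h3, h4⟩ := ih (det y' x').toNat (by omega) y' x'
          (by rw [Int.toNat_of_nonneg hy2]) (by omega) hy4 okx' (hFy ▸ hne)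
        have key : ∀ z, Dia y' x' z → Dia x x' z := by
          intro z a
          have e := plucker_det x y' x' z
          rw [Dia, abs_of_pos hjpos] at a
          rw [Dia, hk, abs_of_pos hkZ]
          have e' : det y' x' * |det x z| ≤ |det z x'| + |det y' z| * k := by
            have : det y' x' * |det x z| = |det y' x' * det x z| := by
              rw [abs_mul, abs_of_pos hjpos]
            rw [this, e]
            refine (abs_add_le _ _).trans ?_
            rw [abs_mul, abs_mul, hy1, hk, abs_of_pos hkZ, mul_one]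
          have b1 := abs_nonneg (det z x')
          have b2 : |det y' z| * k ≤ (det y' x' - |det z x'|) * k :=
            mul_le_mul_of_nonneg_right (by linarith) hkZ.le
          have b3 : |det z x'| * (det y' x' + 1) ≤ |det z x'| * k :=
            mul_le_mul_of_nonneg_left (by omega) b1
          have b4 : det y' x' * (|det x z| + |det z x'|) ≤ det y' x' * k := by nlinarith
          exact le_of_mul_le_mul_left b4 hjpos
        exact ⟨z, w, h1, h2, o1, o2, key z h3, key w h4⟩
      · exact ⟨x, y', hy1, hFy, okx, hy4, hTx, hTy⟩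
    · -- imprimitive case
      obtain ⟨u, hu⟩ : (g : ℤ) ∣ x.1 := by rw [hg]; exact Int.gcd_dvd_left _ _
      obtain ⟨v, hv⟩ : (g : ℤ) ∣ x.2 := by rw [hg]; exact Int.gcd_dvd_right _ _
      have hgZ : (2 : ℤ) ≤ g := by omega
      have hscale : ∀ z, det x z = g * det (u, v) z := by
        intro z; simp only [det, hu, hv]; ring
      have hd := hscale x'
      rw [hk] at hd
      have hpos' : 0 < det (u, v) x' := by
        by_contra h; push Not at h; nlinarith
      have hx : x = ((g : ℤ) * (u, v).1, (g : ℤ) * (u, v).2) := by ext <;> simp [hu, hv]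
      have hFx : F x = F (u, v) := by rw [hx, hF _ _ (by omega)]
      obtain ⟨z, w, h1, h2, o1, o2, h3, h4⟩ := ih (det (u, v) x').toNat (by
          have : det (u, v) x' < k := by nlinarith
          omega) (u, v) x'
        (by rw [Int.toNat_of_nonneg hpos'.le]) (by omega) (hok1 g _ (hx ▸ okx)) okx' (hFx ▸ hne)
      have key : ∀ z, Dia (u, v) x' z → Dia x x' z := by
        intro z a
        rw [Dia] at a ⊢
        rw [hscale, hscale, abs_mul, abs_mul, abs_of_pos (show (0 : ℤ) < g by omega)]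
        nlinarith [abs_nonneg (det z x')]
      exact ⟨z, w, h1, h2, o1, o2, key z h3, key w h4⟩

lemma Dia.fst_le {T : ℤ} {x x' z : ℤ × ℤ} (hT : |x.1| ≤ T) (hT' : |x'.1| ≤ T)
    (hk : det x x' ≠ 0) (hz : Dia x x' z) : |z.1| ≤ T := by
  have e1 := plucker1 x x' z
  have hp : 0 < |det x x'| := abs_pos.mpr hk
  have h1 : |det x x'| * |z.1| ≤ |det z x'| * |x.1| + |det x z| * |x'.1| := by
    rw [← abs_mul, e1, ← abs_mul, ← abs_mul]
    exact abs_add_le _ _
  have h2 := mul_le_mul_of_nonneg_left hT (abs_nonneg (det z x'))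
  have h3 := mul_le_mul_of_nonneg_left hT' (abs_nonneg (det x z))
  have h4 := mul_le_mul_of_nonneg_right hz ((abs_nonneg _).trans hT)
  have : |det x x'| * |z.1| ≤ |det x x'| * T := by nlinarith
  exact le_of_mul_le_mul_left this hp

/-- A nonzero vector at small determinant from a long vector of the half window is, up to sign,
in the window. -/
lemma to_window {H K : ℤ} (hH : 1 ≤ H) {x z : ℤ × ℤ} (hx : W (2 * H) x) (hK : 2 * H * K ≤ x.1)
    (hd : |det x z| ≤ K) (hz : ¬ (z.1 = 0 ∧ z.2 = 0)) : W H z ∨ W H (-z) := by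
  have hx1 := hx.1
  have hK0 : 0 ≤ K := (abs_nonneg _).trans hd
  have key : ∀ z : ℤ × ℤ, |det x z| ≤ K → 0 < z.1 → W H z := by
    intro z hd h
    refine ⟨h, ?_⟩
    have e : x.1 * z.2 = det x z + x.2 * z.1 := by simp only [det]; ring
    have h1 : x.1 * |z.2| ≤ K + |x.2| * z.1 := by
      have : x.1 * |z.2| = |x.1 * z.2| := by rw [abs_mul, abs_of_pos hx1]
      rw [this, e]
      refine (abs_add_le _ _).trans (add_le_add hd ?_)
      rw [abs_mul, abs_of_pos h]
    have h2 := mul_le_mul_of_nonneg_left h1 (show 0 ≤ 2 * H by omega)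
    have h3 := mul_le_mul_of_nonneg_right hx.2 h.le
    have h4 : x.1 * 1 ≤ x.1 * z.1 := mul_le_mul_of_nonneg_left (by omega) hx1.le
    have h5 : x.1 * (H * |z.2|) ≤ x.1 * z.1 := by nlinarith
    exact le_of_mul_le_mul_left h5 hx1
  rcases lt_trichotomy z.1 0 with h | h | h
  · right
    apply key
    · have : det x (-z) = -det x z := by simp only [det, Prod.fst_neg, Prod.snd_neg]; ring
      rwa [this, abs_neg]
    · simpa using h
  · exfalso
    have h2 : z.2 ≠ 0 := fun h' => hz ⟨h, h'⟩
    have h3 : 1 ≤ |z.2| := Int.one_le_abs h2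
    simp only [det, h, mul_zero, sub_zero, abs_mul, abs_of_pos hx1] at hd
    nlinarith
  · left; exact key z hd h

lemma abs_snd_le {H : ℤ} (hH : 1 ≤ H) {x : ℤ × ℤ} (hx : W H x) : |x.2| ≤ x.1 := by
  have := hx.2
  nlinarith [abs_nonneg x.2]

lemma bil_bound {b c H : ℤ} (hH : 8 * (|b| + |c| + 1) ≤ H) {z w : ℤ × ℤ} (hz : W H z)
    (hw : W H w) : 8 * |bil b c z w - z.1 * w.1| ≤ z.1 * w.1 := by
  have hb := abs_nonneg b
  have hc := abs_nonneg c
  have hH1 : 1 ≤ H := by omega
  have h1 : |bil b c z w - z.1 * w.1| ≤ (|b| + |c|) * (|z.2| * w.1) := by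
    have : bil b c z w - z.1 * w.1 = b * z.2 * w.1 + c * z.2 * w.2 := by simp only [bil]; ring
    rw [this]
    refine (abs_add_le _ _).trans ?_
    rw [abs_mul, abs_mul, abs_mul, abs_mul, abs_of_pos hw.1]
    have := abs_snd_le hH1 hw
    nlinarith [mul_nonneg hc (abs_nonneg z.2), mul_le_mul_of_nonneg_left this
      (mul_nonneg hc (abs_nonneg z.2))]
  have h2 : 8 * ((|b| + |c|) * (|z.2| * w.1)) ≤ H * (|z.2| * w.1) := by
    have : 0 ≤ |z.2| * w.1 := mul_nonneg (abs_nonneg _) hw.1.le
    nlinarith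
  have h3 : H * (|z.2| * w.1) ≤ z.1 * w.1 := by
    nlinarith [mul_le_mul_of_nonneg_right hz.2 hw.1.le]
  linarith

lemma bil_self (b c : ℤ) (x : ℤ × ℤ) : bil b c x x = nm b c x := by
  simp only [bil, nm]; ring

lemma bil_pos {b c H : ℤ} (hH : 8 * (|b| + |c| + 1) ≤ H) {z w : ℤ × ℤ} (hz : W H z)
    (hw : W H w) : 0 < bil b c z w ∧ bil b c z w ≤ 2 * (z.1 * w.1) ∧
      7 * (z.1 * w.1) ≤ 8 * bil b c z w := by
  have h := bil_bound hH hz hw
  have hp := mul_pos hz.1 hw.1
  have h1 := neg_abs_le (bil b c z w - z.1 * w.1)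
  have h2 := le_abs_self (bil b c z w - z.1 * w.1)
  refine ⟨by linarith, by linarith, by linarith⟩

lemma nm_pos {b c H : ℤ} (hH : 8 * (|b| + |c| + 1) ≤ H) {z : ℤ × ℤ} (hz : W H z) :
    0 < nm b c z := by
  rw [← bil_self]; exact (bil_pos hH hz hz).1

/-- A unimodular pair in the window is determined by its value and the norm of its first vector. -/
lemma edge_unique {b c H : ℤ} (hH : 8 * (|b| + |c| + 1) ≤ H) {z w z' w' : ℤ × ℤ}
    (hz : W H z) (hz' : W H z') (h : det z w = 1) (h' : det z' w' = 1)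
    (hn : bil b c z w = bil b c z' w') (hN : nm b c z = nm b c z') : z = z' ∧ w = w' := by
  obtain ⟨p, r⟩ := z
  obtain ⟨q, s⟩ := w
  obtain ⟨p', r'⟩ := z'
  obtain ⟨q', s'⟩ := w'
  have hNpos := nm_pos hH hz
  have h7 := (bil_pos hH hz hz).2.2
  have h7' := (bil_pos hH hz' hz').2.2
  rw [bil_self] at h7 h7'
  rw [← hN] at h7'
  have hp := hz.1
  have hp' := hz'.1
  have hr := hz.2
  have hr' := hz'.2
  have hb := abs_nonneg b
  have hc := abs_nonneg c
  simp only [det, bil] at h h' hn hp hp' hr hr' h7 h7'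
  set N := nm b c (p, r) with hNdef
  have hN1 : N = p ^ 2 + b * p * r + c * r ^ 2 := by simp [hNdef, nm]
  have hN2 : N = p' ^ 2 + b * p' * r' + c * r' ^ 2 := by rw [hN]; simp [nm]
  -- `N w = z (n + ω)` and `N w' = z' (n + ω)`
  set n := p * q + b * r * q + c * r * s with hndef
  have es : N * s = r * n + p + b * r := by
    rw [hN1, hndef]; linear_combination (p + b * r) * h
  have es' : N * s' = r' * n + p' + b * r' := by
    rw [hN2, hn]; linear_combination (p' + b * r') * h'
  have hdiv : p * r' - r * p' = N * (s * r' - r * s') + (p * r' - r * p') - (p * r' - r * p') := by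
    linear_combination (-r') * es + r * es'
  have hdiv' : p * r' - r * p' = N * (s * r' - r * s') := by linarith
  have hsmall : |p * r' - r * p'| < N := by
    have h1 : |p * r' - r * p'| ≤ p * |r'| + |r| * p' := by
      refine (abs_sub _ _).trans ?_
      rw [abs_mul, abs_mul, abs_of_pos hp, abs_of_pos hp']
    have h8 : 8 * |r| ≤ p := by nlinarith [abs_nonneg r]
    have h8' : 8 * |r'| ≤ p' := by nlinarith [abs_nonneg r']
    nlinarith [mul_le_mul_of_nonneg_left h8' hp.le, mul_le_mul_of_nonneg_right h8 hp'.le,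
      sq_nonneg (p - p')]
  have hzero : p * r' - r * p' = 0 := by
    have h0 : s * r' - r * s' = 0 := by
      by_contra hne
      have : 1 ≤ |s * r' - r * s'| := Int.one_le_abs hne
      rw [hdiv', abs_mul, abs_of_pos hNpos] at hsmall
      nlinarith
    rw [hdiv', h0, mul_zero]
  have hpp : p = p' := by
    have h1 : p' ^ 2 * N = p ^ 2 * N := by
      have e1 : p' ^ 2 * N = p' ^ 2 * (p ^ 2 + b * p * r + c * r ^ 2) := by rw [← hN1]
      have e2 : p ^ 2 * N = p ^ 2 * (p' ^ 2 + b * p' * r' + c * r' ^ 2) := by rw [← hN2]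
      rw [e1, e2]
      linear_combination (-(b * p * p') - c * (p * r' + r * p')) * hzero
    have h2 : p' ^ 2 = p ^ 2 := mul_right_cancel₀ hNpos.ne' h1
    nlinarith
  subst hpp
  have hrr : r = r' := by
    have : p * (r' - r) = 0 := by linarith
    rcases mul_eq_zero.mp this with h | h
    · omega
    · omega
  subst hrr
  have hss : s = s' := mul_left_cancel₀ hNpos.ne' (by rw [es, es'])
  subst hss
  have hqq : q = q' := by
    have e1 : N * q = p * n - c * r := by
      rw [hN1, hndef]; linear_combination (-(c * r)) * h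
    have e2 : N * q' = p * n - c * r := by
      rw [hN1, hn]; linear_combination (-(c * r)) * h'
    exact mul_left_cancel₀ hNpos.ne' (by rw [e1, e2])
  subst hqq
  exact ⟨rfl, rfl⟩

end Pool.Agent.P.MP_a1177c_nt
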