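import Pool.Agent.P.MP_a1177c_nt.Sign.Exc

/-!
# Both parities of the number of prime factors of an irreducible quadratic polynomial
-/

namespace Pool.Agent.Results.MP_a1177c_nt.BothParities

open Finset Filter Pool.Agent.P.MP_a1177c_nt.Sign

theorem result (a b c : ℤ) (ha : 0 < a) (hD : ¬ IsSquare (b ^ 2 - 4 * a * c)) (r : ℕ)
    (ε : ℝ) (hε : 0 < ε) :
    ∃ᶠ x : ℕ in Filter.atTop, (x : ℝ) ^ (1 - ε) ≤
      (((Finset.Icc 1 x).filter fun m : ℕ => 0 < a * (m : ℤ) ^ 2 + b * m + c ∧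
        ArithmeticFunction.cardFactors (a * (m : ℤ) ^ 2 + b * m + c).toNat % 2 = r % 2).card : ℝ) := by
  obtain ⟨n1, hn0, hb, hc⟩ : ∃ n1 : ℕ, 1 ≤ n1 ∧ 0 < 2 * a * n1 + b ∧ 0 < a * n1 ^ 2 + b * n1 + c := by
    refine ⟨b.natAbs + c.natAbs + 1, by omega, ?_, ?_⟩
    · push_cast
      nlinarith [abs_nonneg b, abs_nonneg c, neg_abs_le b]
    · push_cast
      have h1 := abs_nonneg b
      have h2 := abs_nonneg c
      have h3 : (|b| + |c| + 1) ^ 2 ≤ a * (|b| + |c| + 1) ^ 2 :=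
        le_mul_of_one_le_left (by positivity) ha
      have h4 : -|b| * (|b| + |c| + 1) ≤ b * (|b| + |c| + 1) := by gcongr; exact neg_abs_le b
      nlinarith [neg_abs_le c, mul_nonneg h1 h2]
  obtain ⟨A, rfl⟩ := Int.eq_ofNat_of_zero_le ha.le
  obtain ⟨B, hB⟩ := Int.eq_ofNat_of_zero_le hb.le
  obtain ⟨C, hC⟩ := Int.eq_ofNat_of_zero_le hc.le
  let F : Ctx := ⟨A, B, C, by omega, by omega, by omega, by
    rw [← hB, ← hC, show (2 * (A : ℤ) * n1 + b) ^ 2 - 4 * A * (A * n1 ^ 2 + b * n1 + c) =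
      b ^ 2 - 4 * A * c by ring]
    exact hD⟩
  have hf : ∀ n : ℕ, (A : ℤ) * ((n + n1 : ℕ) : ℤ) ^ 2 + b * (n + n1 : ℕ) + c = F.f n := fun n => by
    simp only [Ctx.f, F]
    push_cast
    rw [← hB, ← hC]; ring
  by_contra hcon
  rw [Filter.not_frequently] at hcon
  obtain ⟨X0, hX0⟩ := eventually_atTop.1 hcon
  set η := min ε 1 with hη
  have hη0 : 0 < η := lt_min hε one_pos
  have hη1 : η ≤ 1 := min_le_right _ _
  set E : ℕ → Finset ℕ := fun x => (Finset.Icc 1 x).filter fun m : ℕ =>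
    0 < (A : ℤ) * (m : ℤ) ^ 2 + b * m + c ∧
      ArithmeticFunction.cardFactors ((A : ℤ) * (m : ℤ) ^ 2 + b * m + c).toNat % 2 = r % 2 with hE
  have h1 : ∀ x : ℕ, 1 ≤ x → (#(E x) : ℝ) ≤ (X0 + 1) * (x : ℝ) ^ (1 - η) := fun x hx => by
    have hx' : (1 : ℝ) ≤ x := by exact_mod_cast hx
    have h2 : 1 ≤ (x : ℝ) ^ (1 - η) := Real.one_le_rpow hx' (by linarith)
    have h3 : (0 : ℝ) ≤ X0 := Nat.cast_nonneg _
    rcases le_total X0 x with h | h
    · have h4 := (not_le.1 (hX0 x h)).le.trans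
        (Real.rpow_le_rpow_of_exponent_le hx' (sub_le_sub_left (min_le_left ε 1) 1))
      nlinarith
    · have h4 : #(E x) ≤ X0 := (card_filter_le _ _).trans (by simpa using h)
      have h5 : (#(E x) : ℝ) ≤ X0 := by exact_mod_cast h4
      nlinarith
  refine F.not_summable (-(-1) ^ r) (θ := η / 6) (by positivity) (by linarith)
    (summable_rel (fun n : ℕ => ((n : ℝ) + 1) ^ (3 * (η / 6) - 1)) (fun n => by positivity)
      (fun k : ℕ => (X0 + 1) * (2 + n1) * ((2 : ℝ) ^ (-(η / 2))) ^ k) _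
      (fun n k => lam (F.f n) ≠ -(-1) ^ r ∧ 2 ^ k ≤ n + 1 ∧ n + 1 < 2 ^ (k + 1))
      ((summable_geometric_of_lt_one (by positivity)
        (Real.rpow_lt_one_of_one_lt_of_neg one_lt_two (by linarith))).mul_left _)
      (fun k => by positivity) (fun k S hS => ?_)
      fun n hn => ⟨Nat.log 2 (n + 1), hn, Nat.pow_log_le_self 2 (by omega),
        Nat.lt_pow_succ_log_self one_lt_two _⟩).1
  have h2 : #S ≤ #(E ((2 + n1) * 2 ^ k)) := by
    refine Finset.card_le_card_of_injOn (· + n1) (fun n hn => ?_) (add_left_injective n1).injOn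
    obtain ⟨a1, -, a3⟩ := hS n hn
    simp only [hE, coe_filter, mem_Icc, Set.mem_ofPred_eq]
    rw [hf n, Int.toNat_natCast]
    have a4 : n1 ≤ n1 * 2 ^ k := Nat.le_mul_of_pos_right _ (by positivity)
    refine ⟨⟨by omega, by rw [pow_succ] at a3; rw [add_mul]; omega⟩,
      by exact_mod_cast F.f_pos n, ?_⟩
    by_contra a5
    apply a1
    unfold lam
    rw [neg_one_pow_eq_pow_mod_two, neg_one_pow_eq_pow_mod_two r]
    rcases Nat.mod_two_eq_zero_or_one r with h | h <;>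
      rcases Nat.mod_two_eq_zero_or_one (ArithmeticFunction.cardFactors (F.f n)) with h' | h' <;>
      simp_all
  have h3 : (#S : ℝ) ≤ (X0 + 1) * ((2 + n1) * ((2 : ℝ) ^ k) ^ (1 - η)) := by
    refine (Nat.cast_le.2 h2).trans ((h1 _ (Nat.mul_pos (by omega) (by positivity))).trans ?_)
    push_cast
    rw [Real.mul_rpow (by positivity) (by positivity)]
    gcongr
    exact Real.rpow_le_self_of_one_le (by linarith [Nat.cast_nonneg (α := ℝ) n1]) (by linarith)
  calc _ ≤ #S • ((2 : ℝ) ^ k) ^ (3 * (η / 6) - 1) :=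
        Finset.sum_le_card_nsmul _ _ _ fun n hn => Real.rpow_le_rpow_of_nonpos (by positivity)
          (by exact_mod_cast (hS n hn).2.1) (by linarith)
    _ ≤ (X0 + 1) * ((2 + n1) * ((2 : ℝ) ^ k) ^ (1 - η)) * ((2 : ℝ) ^ k) ^ (3 * (η / 6) - 1) := by
        rw [nsmul_eq_mul]; gcongr
    _ = _ := by
        rw [mul_assoc, mul_assoc, mul_assoc, ← Real.rpow_add (by positivity),
          ← Real.rpow_natCast_mul (by positivity), ← Real.rpow_mul_natCast (by positivity)]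
        congr 3; ring

end Pool.Agent.Results.MP_a1177c_nt.BothParities
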