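import Pool.Agent.P.MP_a1177c_nt.Basic

/-
Counting bichromatic pairs through odd values of the polynomial.
-/

set_option autoImplicit false

namespace Pool.Agent.P.MP_a1177c_nt

open Finset

instance (H : ℤ) : DecidablePred (W H) := fun x => by unfold W; infer_instance

/-- Window vectors of height at most `T`. -/
noncomputable def box (H T : ℤ) : Finset (ℤ × ℤ) := ((Icc 1 T) ×ˢ (Icc (-T) T)).filter (W H)

lemma mem_box {H T : ℤ} (hH : 1 ≤ H) {x : ℤ × ℤ} : x ∈ box H T ↔ W H x ∧ x.1 ≤ T := by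
  simp only [box, mem_filter, mem_product, mem_Icc]
  constructor
  · rintro ⟨⟨⟨_, h⟩, _⟩, h'⟩; exact ⟨h', h⟩
  · rintro ⟨h, h'⟩
    have h1 := abs_snd_le hH h
    have h2 := h.1
    have h3 := le_abs_self x.2
    have h4 := neg_abs_le x.2
    exact ⟨⟨⟨by omega, h'⟩, by omega, by omega⟩, h⟩

/-- Admissible vectors: those of odd norm when the flag is set. -/
def ok (fl : Prop) (b c : ℤ) (x : ℤ × ℤ) : Prop := fl → Odd (nm b c x)

lemma ok_of_smul {fl : Prop} {b c : ℤ} (g : ℤ) (x : ℤ × ℤ) (h : ok fl b c (g * x.1, g * x.2)) :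
    ok fl b c x := by
  intro hf
  have := h hf
  rw [nm_smul] at this
  exact (Int.odd_mul.mp this).2

lemma ok_mul {fl : Prop} {b c : ℤ} {x y : ℤ × ℤ} (hx : ok fl b c x) (hy : ok fl b c y) :
    ok fl b c (mul b c x y) := by
  intro hf
  rw [nm_mul]
  exact (hx hf).mul (hy hf)

lemma ok_neg {fl : Prop} {b c : ℤ} {x : ℤ × ℤ} (hx : ok fl b c x) : ok fl b c (-x) := by
  intro hf
  have : nm b c (-x) = nm b c x := by simp only [nm, Prod.fst_neg, Prod.snd_neg]; ring
  rw [this]; exact hx hf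

lemma ok_sub {fl : Prop} {b c : ℤ} (hc : fl → Odd c) (x y : ℤ × ℤ) (h : det x y = 1)
    (hx : ok fl b c x) (hy : ¬ ok fl b c y) : ok fl b c (x - y) := by
  intro hf
  have h1 := hx hf
  have h2 : ¬ Odd (nm b c y) := fun h => hy (fun _ => h)
  have h3 := hc hf
  have h4 : ((det x y : ℤ) : ZMod 2) = 1 := by rw [h]; rfl
  rw [← ZMod.intCast_eq_one_iff_odd] at h1 h2 h3 ⊢
  simp only [nm, det, Prod.fst_sub, Prod.snd_sub] at h1 h2 h4 ⊢
  push_cast at h1 h2 h4 ⊢
  rw [h3] at h1 h2 ⊢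
  generalize (b : ZMod 2) = B at *
  generalize (x.1 : ZMod 2) = x1 at *
  generalize (x.2 : ZMod 2) = x2 at *
  generalize (y.1 : ZMod 2) = y1 at *
  generalize (y.2 : ZMod 2) = y2 at *
  revert B x1 x2 y1 y2
  decide

lemma ok_or {fl : Prop} {b c : ℤ} (hc : fl → Odd c) (x y : ℤ × ℤ) (h : det x y = 1) :
    ok fl b c x ∨ ok fl b c y := by
  by_cases hf : fl
  · have h3 := hc hf
    have h4 : ((det x y : ℤ) : ZMod 2) = 1 := by rw [h]; rfl
    simp only [ok, hf, forall_const]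
    rw [← ZMod.intCast_eq_one_iff_odd] at h3 ⊢
    rw [← ZMod.intCast_eq_one_iff_odd]
    simp only [nm, det] at h4 ⊢
    push_cast at h4 ⊢
    rw [h3]
    generalize (b : ZMod 2) = B at *
    generalize (x.1 : ZMod 2) = x1 at *
    generalize (x.2 : ZMod 2) = x2 at *
    generalize (y.1 : ZMod 2) = y1 at *
    generalize (y.2 : ZMod 2) = y2 at *
    revert B x1 x2 y1 y2
    decide
  · left; exact fun h => absurd h hf

/-- The data of the argument. -/
structure Model where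
  b : ℤ
  c : ℤ
  q : ℤ
  col : ℤ → ZMod 2
  fl : Prop
  hcol : Addv col
  hc : fl → Odd c
  hfix : ∀ z w : ℤ × ℤ, ok fl b c z → ok fl b c w → det z w = 1 → q ∣ bil b c z w ∨
    (q ∣ bil b c z (z + w) ∧ q ∣ bil b c (z + w) w ∧ ok fl b c (z + w)) ∨
    (q ∣ bil b c z (w - z) ∧ q ∣ bil b c w (w - z) ∧ q ∣ bil b c (z - w) z ∧
      q ∣ bil b c (z - w) w ∧ ok fl b c (z - w))

namespace Model

variable (M : Model)

/-- Colour of a vector. -/
def par (x : ℤ × ℤ) : ZMod 2 := Pool.Agent.P.MP_a1177c_nt.par M.col M.b M.c x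

/-- Admissibility of a vector. -/
def ok (x : ℤ × ℤ) : Prop := Pool.Agent.P.MP_a1177c_nt.ok M.fl M.b M.c x

/-- The values of the monic polynomial. -/
def val (n : ℕ) : ℤ := (n : ℤ) ^ 2 + M.b * n + M.c

open Classical in
/-- The multiples `1 ≤ n ≤ X` of `q` at which the value has odd colour. -/
noncomputable def oddSet (X : ℕ) : Finset ℕ :=
  (Icc 1 X).filter (fun n : ℕ => M.q ∣ n ∧ M.col (M.val n) = 1 ∧ (M.fl → Odd (M.val n)))

/-- Divisor sum over the odd set. -/
noncomputable def tauSum (X : ℕ) : ℕ := ∑ n ∈ M.oddSet X, (M.val n).natAbs.divisors.card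

open Classical in
/-- Bichromatic unimodular pairs. -/
noncomputable def edges (H T : ℤ) : Finset ((ℤ × ℤ) × (ℤ × ℤ)) :=
  (box H T ×ˢ box H T).filter (fun e => det e.1 e.2 = 1 ∧ M.q ∣ bil M.b M.c e.1 e.2 ∧
    M.par e.1 ≠ M.par e.2 ∧ M.ok e.1 ∧ M.ok e.2)

open Classical in
/-- Vectors having a close vector of the other colour. -/
noncomputable def badV (H T K : ℤ) : Finset (ℤ × ℤ) :=
  (box H T).filter (fun x => W (2 * H) x ∧ 4 * H * K ≤ x.1 ∧ M.ok x ∧
    ∃ x' ∈ box H T, M.ok x' ∧ |det x x'| ≤ K ∧ M.par x ≠ M.par x')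

lemma card_edges_le {H : ℤ} (hH : 8 * (|M.b| + |M.c| + 1) ≤ H) (T : ℕ) :
    (M.edges H T).card ≤ M.tauSum (2 * T ^ 2) := by
  classical
  have hb := abs_nonneg M.b
  have hc := abs_nonneg M.c
  have hH1 : 1 ≤ H := by omega
  unfold tauSum
  rw [← card_sigma]
  refine card_le_card_of_injOn
    (fun e => (⟨(bil M.b M.c e.1 e.2).toNat, (nm M.b M.c e.1).natAbs⟩ : Σ _ : ℕ, ℕ)) ?_ ?_
  · rintro ⟨z, w⟩ he
    simp only [edges, coe_filter, mem_product, mem_box hH1, Set.mem_ofPred_eq] at he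
    obtain ⟨⟨⟨hz, hzT⟩, hw, hwT⟩, hdet, hq, hpar, o1, o2⟩ := he
    obtain ⟨h1, h2, _⟩ := bil_pos hH hz hw
    have hcast : (((bil M.b M.c z w).toNat : ℕ) : ℤ) = bil M.b M.c z w := Int.toNat_of_nonneg h1.le
    have hval := nm_bil M.b M.c hdet
    have hNz := nm_pos hH hz
    have hNw := nm_pos hH hw
    simp only [coe_sigma, Set.mem_sigma_iff, mem_coe, oddSet, mem_filter, mem_Icc, val, hcast, hval,
      Nat.mem_divisors]
    refine ⟨⟨⟨by omega, ?_⟩, hq, ?_, fun hf => (o1 hf).mul (o2 hf)⟩, ?_, ?_⟩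
    · have : z.1 * w.1 ≤ (T : ℤ) ^ 2 := by
        have := hz.1
        have := hw.1
        nlinarith
      have h3 : bil M.b M.c z w ≤ ((2 * T ^ 2 : ℕ) : ℤ) := by push_cast; linarith
      omega
    · rw [M.hcol _ _ hNz.ne' hNw.ne']
      simp only [par, Pool.Agent.P.MP_a1177c_nt.par] at hpar
      generalize M.col (nm M.b M.c z) = s at *
      generalize M.col (nm M.b M.c w) = t at *
      revert s t
      decide
    · rw [Int.natAbs_mul]; exact Dvd.intro _ rfl
    · exact Int.natAbs_ne_zero.mpr (mul_ne_zero hNz.ne' hNw.ne')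
  · rintro ⟨z, w⟩ he ⟨z', w'⟩ he' heq
    simp only [edges, coe_filter, mem_product, mem_box hH1, Set.mem_ofPred_eq] at he he'
    obtain ⟨⟨⟨hz, _⟩, hw, _⟩, hdet, _⟩ := he
    obtain ⟨⟨⟨hz', _⟩, hw', _⟩, hdet', _⟩ := he'
    simp only [Sigma.mk.injEq, heq_eq_eq] at heq
    obtain ⟨e1, e2⟩ := heq
    have h1 := (bil_pos hH hz hw).1
    have h1' := (bil_pos hH hz' hw').1
    have hNz := nm_pos hH hz
    have hNz' := nm_pos hH hz'
    have := edge_unique hH hz hz' hdet hdet' (by omega) (by omega)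
    rw [this.1, this.2]

lemma par_smul {g : ℤ} (hg : g ≠ 0) (x : ℤ × ℤ) : M.par (g * x.1, g * x.2) = M.par x :=
  Pool.Agent.P.MP_a1177c_nt.par_smul M.hcol M.b M.c hg x

lemma par_neg (x : ℤ × ℤ) : M.par (-x) = M.par x := by
  have := M.par_smul (g := -1) (by norm_num) x
  rw [← this]; congr 1; ext <;> simp

lemma par_eq_of_det_zero {H : ℤ} {x x' : ℤ × ℤ} (hx : W H x) (hx' : W H x')
    (h : det x x' = 0) : M.par x = M.par x' := by
  have e1 := M.par_smul hx'.1.ne' x
  have e2 := M.par_smul hx.1.ne' x'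
  rw [← e1, ← e2]
  congr 1
  simp only [det] at h
  ext
  · simp [mul_comm]
  · simp only; linarith

lemma det_anti (u v : ℤ × ℤ) : det u v = -det v u := by simp only [det]; ring

lemma exists_edge {H T K : ℤ} (hH : 1 ≤ H) {x : ℤ × ℤ} (hx : x ∈ M.badV H T K) :
    ∃ e ∈ M.edges H (2 * T), |det x e.1| ≤ 2 * K ∧ |det x e.2| ≤ 2 * K := by
  classical
  simp only [badV, mem_filter, mem_box hH] at hx
  obtain ⟨⟨hxW, hxT⟩, hx2, hK, okx, x', ⟨hx'W, hx'T⟩, okx', hdK, hne⟩ := hx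
  have hK0 : 0 ≤ K := (abs_nonneg _).trans hdK
  have hd0 : det x x' ≠ 0 := fun h => hne (M.par_eq_of_det_zero hxW hx'W h)
  have hT1 : |x.1| ≤ T := by rw [abs_of_pos hxW.1]; exact hxT
  have hT2 : |x'.1| ≤ T := by rw [abs_of_pos hx'W.1]; exact hx'T
  -- the Farey lemma
  obtain ⟨z, w, h1, h2, o1, o2, d1, d2, t1, t2⟩ : ∃ z w : ℤ × ℤ, |det z w| = 1 ∧
      M.par z ≠ M.par w ∧ M.ok z ∧ M.ok w ∧ |det x z| ≤ K ∧ |det x w| ≤ K ∧ |z.1| ≤ T ∧
      |w.1| ≤ T := by
    rcases lt_or_gt_of_ne hd0 with h | h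
    · have h' : 0 < det x' x := by rw [det_anti]; omega
      obtain ⟨z, w, h1, h2, o1, o2, h3, h4⟩ := farey M.par (fun g x hg => M.par_smul hg x) M.ok
        ok_of_smul (ok_sub M.hc) (det x' x).toNat x' x (by rw [Int.toNat_of_nonneg h'.le])
        (by omega) okx' okx hne.symm
      refine ⟨z, w, h1, h2, o1, o2, ?_, ?_, h3.fst_le hT2 hT1 h'.ne', h4.fst_le hT2 hT1 h'.ne'⟩
      · rw [Dia, det_anti x' x, det_anti z x, abs_neg, abs_neg] at h3
        linarith [abs_nonneg (det x' z)]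
      · rw [Dia, det_anti x' x, det_anti w x, abs_neg, abs_neg] at h4
        linarith [abs_nonneg (det x' w)]
    · obtain ⟨z, w, h1, h2, o1, o2, h3, h4⟩ := farey M.par (fun g x hg => M.par_smul hg x) M.ok
        ok_of_smul (ok_sub M.hc) (det x x').toNat x x' (by rw [Int.toNat_of_nonneg h.le])
        (by omega) okx okx' hne
      refine ⟨z, w, h1, h2, o1, o2, ?_, ?_, h3.fst_le hT1 hT2 hd0, h4.fst_le hT1 hT2 hd0⟩
      · rw [Dia] at h3; linarith [abs_nonneg (det z x')]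
      · rw [Dia] at h4; linarith [abs_nonneg (det w x')]
  -- normalise the signs
  have norm : ∀ z w : ℤ × ℤ, |det z w| = 1 → M.ok z → |det x z| ≤ K → |z.1| ≤ T →
      ∃ z' : ℤ × ℤ, |det z' w| = 1 ∧ M.par z' = M.par z ∧ M.ok z' ∧ |det x z'| ≤ K ∧ z'.1 ≤ T ∧
        W H z' := by
    intro z w h1 o1 d1 t1
    rcases to_window hH hx2 (K := K) (by nlinarith) d1 (by
      rintro ⟨a, a'⟩; simp [det, a, a'] at h1) with h | h
    · exact ⟨z, h1, rfl, o1, d1, (le_abs_self _).trans t1, h⟩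
    · refine ⟨-z, ?_, M.par_neg z, ok_neg o1, ?_, ?_, h⟩
      · have : det (-z) w = -det z w := by simp only [det, Prod.fst_neg, Prod.snd_neg]; ring
        rwa [this, abs_neg]
      · have : det x (-z) = -det x z := by simp only [det, Prod.fst_neg, Prod.snd_neg]; ring
        rwa [this, abs_neg]
      · simp only [Prod.fst_neg]; linarith [neg_abs_le z.1]
  obtain ⟨z1, a1, a2, a3, a4, a5, a6⟩ := norm z w h1 o1 d1 t1
  obtain ⟨w1, b1, b2, b3, b4, b5, b6⟩ := norm w z1 (by rwa [det_anti, abs_neg]) o2 d2 t2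
  -- orient
  have main : ∀ z w : ℤ × ℤ, det z w = 1 → M.par z ≠ M.par w → M.ok z → M.ok w →
      |det x z| ≤ K → |det x w| ≤ K → z.1 ≤ T → w.1 ≤ T → W H z → W H w →
      ∃ e ∈ M.edges H (2 * T), |det x e.1| ≤ 2 * K ∧ |det x e.2| ≤ 2 * K := by
    intro z w h1 h2 o1 o2 d1 d2 t1 t2 w1 w2
    have hz1 := w1.1
    have hw1 := w2.1
    have mk : ∀ u v : ℤ × ℤ, det u v = 1 → M.q ∣ bil M.b M.c u v → M.par u ≠ M.par v → M.ok u →
        M.ok v → |det x u| ≤ 2 * K → |det x v| ≤ 2 * K → u.1 ≤ 2 * T → v.1 ≤ 2 * T → W H u →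
        W H v → ∃ e ∈ M.edges H (2 * T), |det x e.1| ≤ 2 * K ∧ |det x e.2| ≤ 2 * K := by
      intro u v c1 c2 c3 c4 c5 c6 c7 c8 c9 c10 c11
      refine ⟨(u, v), ?_, c6, c7⟩
      simp only [edges, mem_filter, mem_product, mem_box hH]
      exact ⟨⟨⟨c10, c8⟩, c11, c9⟩, c1, c2, c3, c4, c5⟩
    have d1' : |det x z| ≤ 2 * K := by linarith
    have d2' : |det x w| ≤ 2 * K := by linarith
    have t1' : z.1 ≤ 2 * T := by linarith
    have t2' : w.1 ≤ 2 * T := by linarith
    rcases M.hfix z w o1 o2 h1 with h | ⟨h, h', o3⟩ | ⟨q1, q2, q3, q4, o3⟩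
    · exact mk z w h1 h h2 o1 o2 d1' d2' t1' t2' w1 w2
    · have e1 : det z (z + w) = 1 := by
        rw [← h1]; simp only [det, Prod.fst_add, Prod.snd_add]; ring
      have e2 : det (z + w) w = 1 := by
        rw [← h1]; simp only [det, Prod.fst_add, Prod.snd_add]; ring
      have e3 : |det x (z + w)| ≤ 2 * K := by
        have : det x (z + w) = det x z + det x w := by
          simp only [det, Prod.fst_add, Prod.snd_add]; ring
        rw [this]; linarith [abs_add_le (det x z) (det x w)]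
      have e4 : (z + w).1 ≤ 2 * T := by simp only [Prod.fst_add]; linarith
      have e5 : W H (z + w) := by
        refine ⟨by simp only [Prod.fst_add]; linarith, ?_⟩
        simp only [Prod.fst_add, Prod.snd_add]
        nlinarith [w1.2, w2.2, abs_add_le z.2 w.2]
      by_cases hp : M.par z = M.par (z + w)
      · exact mk (z + w) w e2 h' (hp ▸ h2) o3 o2 e3 d2' e4 t2' e5 w2
      · exact mk z (z + w) e1 h hp o1 o3 d1' e3 t1' e4 w1 e5
    · have e3 : |det x (z - w)| ≤ 2 * K := by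
        have : det x (z - w) = det x z - det x w := by
          simp only [det, Prod.fst_sub, Prod.snd_sub]; ring
        rw [this]; linarith [abs_sub (det x z) (det x w)]
      have e1 : det (z - w) z = 1 := by
        rw [← h1]; simp only [det, Prod.fst_sub, Prod.snd_sub]; ring
      have e2 : det (z - w) w = 1 := by
        rw [← h1]; simp only [det, Prod.fst_sub, Prod.snd_sub]; ring
      rcases to_window hH hx2 (K := 2 * K) (by nlinarith) e3 (by
        rintro ⟨a, a'⟩; simp only [det, a, a'] at e1; simp at e1) with e5 | e5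
      · have e4 : (z - w).1 ≤ 2 * T := by simp only [Prod.fst_sub]; linarith
        by_cases hp : M.par (z - w) = M.par z
        · exact mk (z - w) w e2 q4 (hp ▸ h2) o3 o2 e3 d2' e4 t2' e5 w2
        · exact mk (z - w) z e1 q3 hp o3 o1 e3 d1' e4 t1' e5 w1
      · have o4 : M.ok (w - z) := by have := ok_neg o3; rwa [neg_sub] at this
        rw [neg_sub] at e5
        have e4 : (w - z).1 ≤ 2 * T := by simp only [Prod.fst_sub]; linarith
        have e3' : |det x (w - z)| ≤ 2 * K := by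
          have : det x (w - z) = -det x (z - w) := by
            simp only [det, Prod.fst_sub, Prod.snd_sub]; ring
          rwa [this, abs_neg]
        have e1' : det z (w - z) = 1 := by
          rw [← h1]; simp only [det, Prod.fst_sub, Prod.snd_sub]; ring
        have e2' : det w (w - z) = 1 := by
          rw [← h1]; simp only [det, Prod.fst_sub, Prod.snd_sub]; ring
        by_cases hp : M.par z = M.par (w - z)
        · exact mk w (w - z) e2' q2 (hp ▸ h2.symm) o2 o4 d2' e3' t2' e4 w2 e5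
        · exact mk z (w - z) e1' q1 hp o1 o4 d1' e3' t1' e4 w1 e5
  have hne' : M.par z1 ≠ M.par w1 := by rw [a2, b2]; exact h2
  rcases abs_eq (show (0 : ℤ) ≤ 1 by norm_num) |>.mp b1 with h | h
  · exact main w1 z1 h hne'.symm b3 a3 b4 a4 b5 a5 b6 a6
  · exact main z1 w1 (by rw [det_anti, h]; norm_num) hne' a3 b3 a4 b4 a5 b5 a6 b6

lemma card_badV_le {H : ℤ} (hH : 8 * (|M.b| + |M.c| + 1) ≤ H) (T : ℕ) (K : ℕ) :
    (M.badV H T K).card ≤ (4 * K + 1) ^ 2 * M.tauSum (2 * (2 * T) ^ 2) := by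
  have hb := abs_nonneg M.b
  have hc := abs_nonneg M.c
  have hH1 : 1 ≤ H := by omega
  have hsub : M.badV H T K ⊆
      (M.edges H (2 * T) ×ˢ (Icc (-(2 * K : ℤ)) (2 * K) ×ˢ Icc (-(2 * K : ℤ)) (2 * K))).image
      (fun t => (t.2.1 * t.1.1.1 + t.2.2 * t.1.2.1, t.2.1 * t.1.1.2 + t.2.2 * t.1.2.2)) := by
    intro x hx
    obtain ⟨e, he, h1, h2⟩ := M.exists_edge hH1 hx
    rw [mem_image]
    refine ⟨(e, (det x e.2, det e.1 x)), ?_, ?_⟩
    · simp only [mem_product, mem_Icc]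
      exact ⟨he, abs_le.mp h2, abs_le.mp (by rwa [det_anti, abs_neg])⟩
    · have hd : det e.1 e.2 = 1 := by
        classical
        exact (mem_filter.mp he).2.1
      have e1 := plucker1 e.1 e.2 x
      have e2 := plucker2 e.1 e.2 x
      rw [hd, one_mul] at e1 e2
      ext
      · simp only; linarith
      · simp only; linarith
  refine (card_le_card hsub).trans (card_image_le.trans ?_)
  rw [card_product, card_product, Int.card_Icc]
  have : (2 * (K : ℤ) + 1 - -(2 * K : ℤ)).toNat = 4 * K + 1 := by omega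
  rw [this, mul_comm, ← sq]
  have := M.card_edges_le hH (2 * T)
  push_cast at this
  exact Nat.mul_le_mul_left _ this

end Model

end Pool.Agent.P.MP_a1177c_nt
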