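import Pool.Agent.P.MP_a1177c_nt.Basic
import Pool.Agent.Lib.Legendre.Ternary

/-
Existence of a vector of odd colour in every window.
-/

set_option autoImplicit false

namespace Pool.Agent.P.MP_a1177c_nt

open ArithmeticFunction

lemma ipar_prime {p : ℕ} (hp : p.Prime) : ipar (p : ℤ) = 1 := by
  unfold ipar
  rw [Int.natAbs_natCast, cardFactors_apply_prime hp]
  rfl

lemma sq_sub_ne {D : ℤ} (hD : ¬ IsSquare D) {u v : ℤ} (h : u ^ 2 = D * v ^ 2) : u = 0 ∧ v = 0 := by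
  by_cases hv : v = 0
  · subst hv
    simp at h
    exact ⟨h, rfl⟩
  · exfalso
    apply hD
    have hv' : (v : ℚ) ≠ 0 := by exact_mod_cast hv
    have h' : (u : ℚ) ^ 2 = D * v ^ 2 := by exact_mod_cast h
    have : IsSquare (D : ℚ) := ⟨u / v, by field_simp; linarith⟩
    exact Rat.isSquare_intCast_iff.mp this

/-- A prime times a square is a value of the principal form of discriminant `D`. -/
lemma exists_prime_norm {D : ℤ} (hD : ¬ IsSquare D) :
    ∃ (p : ℕ) (u v w : ℤ), p.Prime ∧ (8 : ℤ) ∣ p - 1 ∧ w ≠ 0 ∧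
      u ^ 2 - D * v ^ 2 = p * w ^ 2 := by
  have hD0 : D ≠ 0 := by rintro rfl; exact hD ⟨0, by simp⟩
  set d := D.natAbs with hd
  have hdpos : 0 < d := Int.natAbs_pos.mpr hD0
  obtain ⟨p, hp, hgt, hmod⟩ := Nat.exists_prime_gt_modEq_one (k := 8 * d) (8 * d) (by omega)
  have hdvd8 : ((8 * d : ℕ) : ℤ) ∣ (p : ℤ) - 1 := by
    have := (Nat.modEq_iff_dvd.mp hmod.symm)
    exact_mod_cast this
  have hdvd : ((4 * d : ℕ) : ℤ) ∣ (p : ℤ) - 1 := (Dvd.intro_left 2 (by push_cast; ring)).trans hdvd8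
  have h8 : (8 : ℤ) ∣ p - 1 := (Dvd.intro (d : ℤ) (by push_cast; ring)).trans hdvd8
  have hodd : Odd p := hp.odd_of_ne_two (by omega)
  have hDd : D ∣ (d : ℤ) := by rw [hd]; exact Int.dvd_natAbs.mpr dvd_rfl
  have hdD : (d : ℤ) ∣ D := by rw [hd]; exact Int.natAbs_dvd.mpr dvd_rfl
  have hjac : jacobiSym D p = 1 := Pool.Agent.Lib.Legendre.jac_of_one_mod D hodd
    ((mul_dvd_mul_left 4 hDd).trans (by exact_mod_cast hdvd))
  obtain ⟨ρ, hρ⟩ := Pool.Agent.Lib.Legendre.sq_of_jac hp hjac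
  obtain ⟨w, v, u, hne, hw, hv, hu, hcong⟩ := Pool.Agent.Lib.Legendre.exists_short p d hp.pos hdpos
    hp.prime.not_isSquare p (ρ * (1 - p))
  have hd1 : (d : ℤ) ∣ (p : ℤ) - 1 := (Dvd.intro_left 4 (by push_cast; ring)).trans hdvd
  obtain ⟨k, hk⟩ := hcong
  obtain ⟨r, hr⟩ := hρ
  obtain ⟨s, hs⟩ := hd1
  obtain ⟨σ, hσ⟩ := hdD
  have hu' : u = p * w + ρ * (1 - p) * v + p * d * k := by linarith
  have e1 : (p : ℤ) ∣ u ^ 2 - D * v ^ 2 - p * w ^ 2 := by
    have : u = ρ * v + p * (w - ρ * v + d * k) := by rw [hu']; ring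
    generalize (w - ρ * v + d * k) = m at this
    refine ⟨r * v ^ 2 + 2 * ρ * v * m + p * m ^ 2 - w ^ 2, ?_⟩
    rw [this]
    linear_combination v ^ 2 * hr
  have e2 : (d : ℤ) ∣ u ^ 2 - D * v ^ 2 - p * w ^ 2 := by
    have : u = w + d * (s * w - ρ * s * v + p * k) := by
      rw [hu']; linear_combination (w - ρ * v) * hs
    generalize (s * w - ρ * s * v + p * k) = m at this
    refine ⟨2 * w * m + d * m ^ 2 - σ * v ^ 2 - s * w ^ 2, ?_⟩
    rw [this]
    linear_combination (-v ^ 2) * hσ - w ^ 2 * hs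
  have hcop : IsCoprime (p : ℤ) (d : ℤ) := by
    apply Nat.isCoprime_iff_coprime.mpr
    apply (Nat.Prime.coprime_iff_not_dvd hp).mpr
    intro h
    have := Nat.le_of_dvd hdpos h
    omega
  obtain ⟨E, hE⟩ := hcop.mul_dvd e1 e2
  have hpZ : (0 : ℤ) < p := by exact_mod_cast hp.pos
  have hdZ : (0 : ℤ) < d := by exact_mod_cast hdpos
  have hpd := mul_pos hpZ hdZ
  have case0 : E = 0 → ∃ (p : ℕ) (u v w : ℤ), p.Prime ∧ (8 : ℤ) ∣ p - 1 ∧ w ≠ 0 ∧
      u ^ 2 - D * v ^ 2 = p * w ^ 2 := by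
    intro h0
    rw [h0, mul_zero] at hE
    refine ⟨p, u, v, w, hp, h8, ?_, by linarith⟩
    rintro rfl
    obtain ⟨h1, h2⟩ := sq_sub_ne hD (u := u) (v := v) (by linarith)
    tauto
  have case1 : p * d * E = -(p * D) →
      ∃ (p : ℕ) (u v w : ℤ), p.Prime ∧ (8 : ℤ) ∣ p - 1 ∧ w ≠ 0 ∧
        u ^ 2 - D * v ^ 2 = p * w ^ 2 := by
    intro h0
    rw [h0] at hE
    refine ⟨p, u * w + D * v, u + v * w, w ^ 2 - D, hp, h8, ?_, ?_⟩
    · intro h
      have := (sq_sub_ne hD (u := w) (v := 1) (by linarith)).2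
      omega
    · linear_combination (w ^ 2 - D) * hE
  have a1 : (d : ℤ) * v ^ 2 < p * d := by nlinarith
  have a2 : (p : ℤ) * w ^ 2 < p * d := by nlinarith
  have a3 : 0 ≤ (d : ℤ) * v ^ 2 := by positivity
  have a4 : 0 ≤ (p : ℤ) * w ^ 2 := by positivity
  have a5 := sq_nonneg u
  rcases Int.natAbs_eq D with h | h
  · rw [← hd] at h
    have b1 : E < 1 := by
      by_contra hh; push Not at hh; rw [h] at hE; nlinarith
    have b2 : -2 < E := by
      by_contra hh; push Not at hh; rw [h] at hE; nlinarith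
    have : E = 0 ∨ E = -1 := by omega
    rcases this with h0 | h0
    · exact case0 h0
    · apply case1; rw [h0]; linear_combination (p : ℤ) * h
  · rw [← hd] at h
    have b1 : E < 2 := by
      by_contra hh; push Not at hh; rw [h] at hE; nlinarith
    have b2 : -1 < E := by
      by_contra hh; push Not at hh; rw [h] at hE; nlinarith
    have : E = 0 ∨ E = 1 := by omega
    rcases this with h0 | h0
    · exact case0 h0
    · apply case1; rw [h0]; linear_combination (p : ℤ) * h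

lemma exists_odd_pos {b c : ℤ} (hD : ¬ IsSquare (b ^ 2 - 4 * c)) :
    ∃ (x : ℤ × ℤ) (p : ℕ) (w : ℤ), p.Prime ∧ (8 : ℤ) ∣ p - 1 ∧ w ≠ 0 ∧ nm b c x = w * w * p ∧
      0 ≤ 2 * x.1 + b * x.2 := by
  obtain ⟨p, u, v, w, hp, h8, hw, h⟩ := exists_prime_norm hD
  have key : ∀ u v : ℤ, u ^ 2 - (b ^ 2 - 4 * c) * v ^ 2 = p * w ^ 2 → 0 ≤ u →
      ∃ (x : ℤ × ℤ) (p : ℕ) (w : ℤ), p.Prime ∧ (8 : ℤ) ∣ p - 1 ∧ w ≠ 0 ∧ nm b c x = w * w * p ∧
        0 ≤ 2 * x.1 + b * x.2 := by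
    intro u v h hu
    refine ⟨(u - b * v, 2 * v), p, w, hp, h8, hw, ?_, ?_⟩
    · simp only [nm]; linear_combination h
    · simp only; linarith
  rcases le_total 0 u with hu | hu
  · exact key u v h hu
  · exact key (-u) v (by linarith) (by linarith)

lemma sqrt_two_pow {n : ℤ} (h : (8 : ℤ) ∣ n - 1) (s : ℕ) : ∃ σ : ℤ, 2 ^ (s + 3) ∣ σ ^ 2 - n := by
  induction s with
  | zero => exact ⟨1, by simpa using (dvd_sub_comm.mp h)⟩
  | succ s ih =>
    obtain ⟨σ, t, ht⟩ := ih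
    obtain ⟨r, hr⟩ := h
    rcases Int.even_or_odd' t with ⟨t', rfl | rfl⟩
    · exact ⟨σ, t', by rw [ht]; ring⟩
    · rcases Int.even_or_odd' σ with ⟨σ', rfl | rfl⟩
      · exfalso
        have : (2 : ℤ) * (2 * σ' ^ 2 - 4 * r - 2 ^ (s + 2) * (2 * t' + 1)) = 1 := by
          linear_combination ht + hr
        omega
      · refine ⟨2 * σ' + 1 + 2 ^ (s + 2), t' + σ' + 1 + 2 ^ s, ?_⟩
        linear_combination ht

theorem exists_odd_W {b c : ℤ} (hD : ¬ IsSquare (b ^ 2 - 4 * c)) {col : ℤ → ZMod 2}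
    (hcol : Addv col) (hprime : ∀ p : ℕ, p.Prime → 3 < p → col p = 1) (H : ℤ) (hH : 0 ≤ H) :
    ∃ y : ℤ × ℤ, W H y ∧ par col b c y = 1 ∧ Odd (nm b c y) := by
  obtain ⟨x, p, w, hp, h8, hw, hNe, hT⟩ := exists_odd_pos hD
  have hp1 := hp.one_lt
  have hp3 : 3 < p := by omega
  set N := nm b c x with hNdef
  clear_value N
  set T := 2 * x.1 + b * x.2 with hTdef
  clear_value T
  have hN : 0 < N := by
    rw [hNe]; exact mul_pos (mul_self_pos.mpr hw) (by omega)
  have hpar : col N = 1 := by rw [hNe, hcol.sq_mul hw, hprime p hp hp3]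
  have hΔ : T ^ 2 - 4 * N ≠ 0 := by
    intro h
    have h1 := hcol.sq_mul (g := 2) (by norm_num) N
    have hT0 : T ≠ 0 := by rintro h0; rw [h0] at h; omega
    have h2 := hcol.sq_mul hT0 1
    have h3 := hcol.sq_mul (g := 1) (by norm_num) 1
    have h4 := hcol 1 1 (by norm_num) (by norm_num)
    have e : 2 * 2 * N = T * T * 1 := by linarith
    rw [e, h2, hpar] at h1
    rw [mul_one, h1] at h4
    exact absurd h4 (by decide)
  obtain ⟨s, hs⟩ : ∃ s : ℕ, ¬ (2 : ℤ) ^ (s + 3) ∣ N * (T ^ 2 - 4 * N) := by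
    refine ⟨(N * (T ^ 2 - 4 * N)).natAbs, fun h => ?_⟩
    have h1 := Int.natAbs_le_of_dvd_ne_zero h (mul_ne_zero hN.ne' hΔ)
    rw [Int.natAbs_pow] at h1
    have h2 : (N * (T ^ 2 - 4 * N)).natAbs + 3 < 2 ^ ((N * (T ^ 2 - 4 * N)).natAbs + 3) :=
      Nat.lt_two_pow_self
    simp only [Int.reduceAbs] at h1
    omega
  obtain ⟨σ, hσ⟩ := sqrt_two_pow h8 s
  set P : ℤ := 2 ^ (s + 3) with hP
  clear_value P
  have hP0 : 0 < P := by rw [hP]; positivity
  set E : ℤ := |x.1| + H * |x.2| with hE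
  clear_value E
  have hE0 : 0 ≤ E := by rw [hE]; positivity
  set l : ℤ := 2 * (P * (2 * E + 1)) + 1 with hl
  clear_value l
  have hl2 : 2 * P ≤ l := by
    have := mul_nonneg hP0.le hE0
    rw [hl]; linarith
  have hlN : 0 < l ^ 2 * N := by
    have : 0 < l := by omega
    positivity
  obtain ⟨j0, hj⟩ : ∃ j : ℤ, j = ((Nat.sqrt (l ^ 2 * N).toNat : ℕ) : ℤ) := ⟨_, rfl⟩
  have j1 : j0 * j0 ≤ l ^ 2 * N := by
    have := Nat.sqrt_le (l ^ 2 * N).toNat
    have h2 : (((l ^ 2 * N).toNat : ℕ) : ℤ) = l ^ 2 * N := Int.toNat_of_nonneg hlN.le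
    rw [hj]; nth_rewrite 3 [← h2]; exact_mod_cast this
  have j2 : l ^ 2 * N < (j0 + 1) * (j0 + 1) := by
    have := Nat.lt_succ_sqrt (l ^ 2 * N).toNat
    have h2 : (((l ^ 2 * N).toNat : ℕ) : ℤ) = l ^ 2 * N := Int.toNat_of_nonneg hlN.le
    rw [hj]; nth_rewrite 1 [← h2]; exact_mod_cast this
  have j00 : 0 ≤ j0 := by rw [hj]; positivity
  have j3 : l ≤ j0 := by
    by_contra hh
    push Not at hh
    have h1 : (j0 + 1) * (j0 + 1) ≤ l * l := mul_le_mul (by omega) (by omega) (by omega) (by omega)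
    have h2 : l ^ 2 * 1 ≤ l ^ 2 * N := mul_le_mul_of_nonneg_left (by omega) (sq_nonneg l)
    linarith
  clear hj
  set r := (j0 - l * σ * w) % P with hr
  clear_value r
  have r0 : 0 ≤ r := hr ▸ Int.emod_nonneg _ hP0.ne'
  have r1 : r < P := hr ▸ Int.emod_lt_of_pos _ hP0
  set j := j0 - r with hjdef
  clear_value j
  have hjc : P ∣ j - l * σ * w := by
    have := Int.emod_add_mul_ediv (j0 - l * σ * w) P
    exact ⟨(j0 - l * σ * w) / P, by rw [hjdef, hr]; linarith⟩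
  set e := l ^ 2 * N - j * j with he
  clear_value e
  have hPe : P ∣ e := by
    obtain ⟨a, ha⟩ := hjc
    obtain ⟨a', ha'⟩ := hσ
    have : j = l * σ * w + P * a := by linarith
    refine ⟨-(l ^ 2 * w ^ 2 * a') - 2 * l * σ * w * a - P * a ^ 2, ?_⟩
    rw [he, this, hNe]
    linear_combination (-(l ^ 2 * w ^ 2)) * ha'
  have jpos : 0 < j := by omega
  have jj : j0 ≤ 2 * j := by omega
  have e0 : 0 ≤ e := by
    have : j * j ≤ j0 * j0 := mul_le_mul (by omega) (by omega) (by omega) (by omega)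
    rw [he]; linarith
  have e1 : e ≤ 8 * P * j := by
    have : e ≤ (r + 1) * (2 * j0 + 2) := by
      have h1 : (j0 + 1) * (j0 + 1) - j * j = (r + 1) * (2 * j0 + 2) - (r + 1) * (r + 1) := by
        rw [hjdef]; ring
      have h2 : 0 ≤ (r + 1) * (r + 1) := mul_self_nonneg _
      rw [he]; linarith
    have h2 : (r + 1) * (2 * j0 + 2) ≤ P * (8 * j) :=
      mul_le_mul (by omega) (by omega) (by omega) hP0.le
    linarith
  set G := l ^ 2 * N + l * j * T + j * j with hG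
  clear_value G
  have hGpos : 0 < G := by
    have : 0 ≤ l * j * T := by
      have : 0 < l := by omega
      positivity
    have : 0 ≤ j * j := by positivity
    omega
  have hW : W H (l * N * (l * T + 2 * j) - e * x.1, -e * x.2) := by
    have hl0 : 0 < l := by omega
    have h1 : 0 ≤ l ^ 2 * N * T := by positivity
    have h2 : e * x.1 ≤ e * |x.1| := mul_le_mul_of_nonneg_left (le_abs_self _) e0
    have h3 : H * |-e * x.2| = e * (H * |x.2|) := by
      rw [abs_mul, abs_neg, abs_of_nonneg e0]; ring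
    have h4 : (2 * j * l) * 1 ≤ (2 * j * l) * N :=
      mul_le_mul_of_nonneg_left (by omega) (by positivity)
    have h5 : 0 ≤ e * (H * |x.2|) := by positivity
    have h6 : e * E ≤ 8 * P * j * E := mul_le_mul_of_nonneg_right e1 hE0
    have h7 : 2 * j * l = 8 * P * j * E + 4 * P * j + 2 * j := by rw [hl]; ring
    have h8 : e * E = e * |x.1| + e * (H * |x.2|) := by rw [hE]; ring
    have h9 : 0 < P * j := mul_pos hP0 jpos
    constructor
    · simp only; linarith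
    · simp only; rw [h3]; linarith
  have hnm : nm b c (l * N * (l * T + 2 * j) - e * x.1, -e * x.2) = G * G * N := by
    rw [hG, he, hTdef, hNdef]
    simp only [nm]
    ring
  have hnd : ¬ P ∣ l * N * (l * T + 2 * j) := by
    intro h
    apply hs
    have h1 : P ∣ l ^ 3 * (N * (T ^ 2 - 4 * N)) := by
      have : l ^ 3 * (N * (T ^ 2 - 4 * N)) =
          l * N * (l * T + 2 * j) * (l * T - 2 * j) - 4 * l * N * e := by rw [he]; ring
      rw [this]
      exact dvd_sub (h.mul_right _) (hPe.mul_left _)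
    have h2 : IsCoprime P (l ^ 3) := by
      have : IsCoprime 2 l := ⟨-(P * (2 * E + 1)), 1, by rw [hl]; ring⟩
      have h3 : IsCoprime ((2 : ℤ) ^ (s + 3)) (l ^ 3) := this.pow
      rwa [← hP] at h3
    exact h2.dvd_of_dvd_mul_left h1
  have hne : l * N * (l * T + 2 * j) ≠ 0 := fun h => hnd (h ▸ dvd_zero _)
  obtain ⟨v, u, hu, huv⟩ : ∃ (v : ℕ) (u : ℤ), Odd u ∧ l * N * (l * T + 2 * j) = 2 ^ v * u := by
    obtain ⟨v, u, hu, huv⟩ := Nat.exists_eq_two_pow_mul_odd (Int.natAbs_ne_zero.mpr hne)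
    rcases Int.natAbs_eq (l * N * (l * T + 2 * j)) with h | h
    · exact ⟨v, u, by exact_mod_cast hu, by rw [h, huv]; push_cast; ring⟩
    · exact ⟨v, -u, Odd.neg (by exact_mod_cast hu), by rw [h, huv]; push_cast; ring⟩
  have hv : v < s + 3 := by
    by_contra hh
    apply hnd
    rw [huv, hP]
    exact (pow_dvd_pow 2 (by omega)).mul_right _
  obtain ⟨e', he'⟩ : (2 : ℤ) ^ v * 2 ∣ e := by
    rw [← pow_succ]
    refine dvd_trans ?_ hPe
    rw [hP]
    exact pow_dvd_pow 2 (by omega)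
  have h2v : (0 : ℤ) < 2 ^ v := by positivity
  have hy : (l * N * (l * T + 2 * j) - e * x.1, -e * x.2) =
      (2 ^ v * (u - 2 * e' * x.1, -(2 * e') * x.2).1, 2 ^ v * (u - 2 * e' * x.1, -(2 * e') * x.2).2) := by
    rw [huv, he']
    ext <;> simp only <;> ring
  refine ⟨(u - 2 * e' * x.1, -(2 * e') * x.2), ?_, ?_, ?_⟩
  · rw [hy] at hW
    obtain ⟨w1, w2⟩ := hW
    refine ⟨(mul_pos_iff_of_pos_left h2v).mp w1, ?_⟩
    simp only [abs_mul (2 ^ v : ℤ), abs_of_pos h2v] at w2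
    have : 2 ^ v * (H * |-(2 * e') * x.2|) ≤ 2 ^ v * (u - 2 * e' * x.1) := by linarith
    exact le_of_mul_le_mul_left this h2v
  · rw [← par_smul hcol b c h2v.ne', ← hy]
    unfold par
    rw [hnm, hcol.sq_mul hGpos.ne', hpar]
  · obtain ⟨u', rfl⟩ := hu
    refine ⟨2 * (u' - e' * x.1) ^ 2 + 2 * (u' - e' * x.1) - b * (2 * u' + 1 - 2 * e' * x.1) * e' * x.2
      + 2 * c * e' ^ 2 * x.2 ^ 2, ?_⟩
    simp only [nm]; ring

end Pool.Agent.P.MP_a1177c_nt
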