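import Mathlib

/-
A crude second moment bound for the divisor function at values of a monic quadratic polynomial.
-/

set_option autoImplicit false

namespace Pool.Agent.P.MP_a1177c_nt

open Finset

/-- Number of divisors. -/
def tau (n : ℕ) : ℕ := n.divisors.card

lemma tau_mul_le (m n : ℕ) : tau (m * n) ≤ tau m * tau n := by
  unfold tau
  rw [Nat.divisors_mul]
  exact card_mul_le

lemma tau_pos {n : ℕ} (hn : 0 < n) : 0 < tau n :=
  card_pos.mpr ⟨1, Nat.one_mem_divisors.mpr hn.ne'⟩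

lemma tau_prime {p : ℕ} (hp : p.Prime) : tau p = 2 := by
  unfold tau
  rw [hp.divisors, card_pair hp.one_lt.ne]

lemma landreau (Y : ℕ) (hY : 1 ≤ Y) : ∀ (j m : ℕ), 0 < m → m ≤ Y ^ j →
    ∃ d, d ∣ m ∧ d ≤ Y ∧ tau m ≤ (2 * tau d) ^ j := by
  intro j
  induction j with
  | zero =>
    intro m h1 h2
    have : m = 1 := by simp at h2; omega
    subst this
    exact ⟨1, dvd_rfl, hY, by simp [tau]⟩
  | succ j ih =>
    intro m h1 h2
    by_cases hm : m ≤ Y
    · refine ⟨m, dvd_rfl, hm, ?_⟩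
      have := tau_pos h1
      have h3 : 1 ≤ (2 * tau m) ^ j := Nat.one_le_pow _ _ (by omega)
      rw [pow_succ]; nlinarith
    · push Not at hm
      obtain ⟨d, hd, hmax⟩ := exists_max_image (m.divisors.filter (· ≤ Y)) id
        ⟨1, by simp [h1.ne', hY]⟩
      simp only [mem_filter, Nat.mem_divisors, id] at hd hmax
      obtain ⟨⟨⟨e, he⟩, _⟩, hdY⟩ := hd
      have he1 : e ≠ 1 := by rintro rfl; omega
      obtain ⟨p, hp, m', hm'⟩ := Nat.exists_prime_and_dvd he1
      have hd0 : 0 < d := Nat.pos_of_ne_zero (by rintro rfl; omega)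
      have hm'0 : 0 < m' := Nat.pos_of_ne_zero (by rintro rfl; rw [hm'] at he; omega)
      have hbig : Y < d * p := by
        by_contra hh
        push Not at hh
        have := hmax (d * p) ⟨⟨⟨m', by rw [he, hm']; ring⟩, h1.ne'⟩, hh⟩
        nlinarith [hp.two_le]
      have hm'le : m' ≤ Y ^ j := by
        by_contra hh
        push Not at hh
        rw [he, hm', pow_succ] at h2
        nlinarith
      obtain ⟨d', h3, h4, h5⟩ := ih m' hm'0 hm'le
      have h6 : tau m ≤ 2 * tau d * tau m' := by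
        rw [he, hm']
        refine (tau_mul_le _ _).trans ?_
        have := tau_mul_le p m'
        rw [tau_prime hp] at this
        nlinarith
      rcases le_total (tau d) (tau d') with h | h
      · refine ⟨d', h3.trans ⟨d * p, by rw [he, hm']; ring⟩, h4, h6.trans ?_⟩
        rw [pow_succ, mul_comm]
        exact Nat.mul_le_mul h5 (by omega)
      · refine ⟨d, ⟨e, he⟩, hdY, h6.trans ?_⟩
        rw [pow_succ, mul_comm]
        exact Nat.mul_le_mul (h5.trans (Nat.pow_le_pow_left (by omega) _)) le_rfl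

lemma count_sep (s : Finset ℕ) (X d D : ℕ) (hd : 0 < d) (hD : 0 < D) (hs : ∀ n ∈ s, n ≤ X)
    (h : ∀ n ∈ s, ∀ n' ∈ s, (d : ℤ) ∣ D * ((n : ℤ) - n')) : s.card ≤ D * X / d + 1 := by
  rw [← card_range (D * X / d + 1)]
  refine card_le_card_of_injOn (fun n => D * n / d) ?_ ?_
  · intro n hn
    simp only [coe_range, Set.mem_Iio]
    exact Nat.lt_succ_of_le (Nat.div_le_div_right (Nat.mul_le_mul_left _ (hs n hn)))
  · intro n hn n' hn' e
    simp only at e
    obtain ⟨k, hk⟩ := h n hn n' hn'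
    have e1 := Nat.div_add_mod (D * n) d
    have e2 := Nat.div_add_mod (D * n') d
    have e3 := Nat.mod_lt (D * n) hd
    have e4 := Nat.mod_lt (D * n') hd
    rw [e] at e1
    generalize D * n' / d = u at *
    generalize D * n % d = r at *
    generalize D * n' % d = r' at *
    have e1' : (d : ℤ) * u + r = D * n := by exact_mod_cast e1
    have e2' : (d : ℤ) * u + r' = D * n' := by exact_mod_cast e2
    have e5 : (r : ℤ) - r' = d * k := by linarith
    have hk0 : k = 0 := by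
      rcases lt_trichotomy k 0 with h | h | h
      · exfalso; nlinarith
      · exact h
      · exfalso; nlinarith
    rw [hk0, mul_zero] at hk
    rcases mul_eq_zero.mp hk with h | h
    · omega
    · omega

lemma roots_le {b c : ℤ} (hD : b ^ 2 - 4 * c ≠ 0) (X d : ℕ) (hd : 0 < d) :
    ((Icc 1 X).filter (fun n : ℕ => (d : ℤ) ∣ (n : ℤ) ^ 2 + b * n + c)).card ≤
      tau d * ((b ^ 2 - 4 * c).natAbs * X / d + 1) := by
  set s := (Icc 1 X).filter (fun n : ℕ => (d : ℤ) ∣ (n : ℤ) ^ 2 + b * n + c) with hs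
  rcases s.eq_empty_or_nonempty with h | ⟨n₀, hn₀⟩
  · rw [h]; simp
  have hn0 := (mem_filter.mp hn₀).2
  have := card_le_mul_card_image_of_maps_to (s := s) (t := d.divisors)
    (f := fun n : ℕ => Int.gcd d ((n : ℤ) - n₀)) (fun n _ => by
      rw [Nat.mem_divisors]
      exact ⟨by exact_mod_cast Int.gcd_dvd_left (d : ℤ) ((n : ℤ) - n₀), hd.ne'⟩)
    ((b ^ 2 - 4 * c).natAbs * X / d + 1) (by
      intro g hg
      obtain ⟨g', hg'⟩ := Nat.dvd_of_mem_divisors hg
      have hg0 : 0 < g := Nat.pos_of_mem_divisors hg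
      have key : ∀ n ∈ s.filter (fun n : ℕ => Int.gcd d ((n : ℤ) - n₀) = g),
          (g : ℤ) ∣ (n : ℤ) - n₀ ∧ (g' : ℤ) ∣ (n : ℤ) + n₀ + b := by
        intro n hn
        rw [mem_filter] at hn
        have h1 : (g : ℤ) ∣ (n : ℤ) - n₀ := by rw [← hn.2]; exact Int.gcd_dvd_right _ _
        refine ⟨h1, ?_⟩
        have h2 : (d : ℤ) ∣ ((n : ℤ) - n₀) * (n + n₀ + b) := by
          have := dvd_sub (mem_filter.mp hn.1).2 hn0
          exact this.trans (dvd_of_eq (by ring))
        obtain ⟨u, hu⟩ := h1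
        have hgZ : (g : ℤ) ≠ 0 := by exact_mod_cast hg0.ne'
        have hcop : IsCoprime (g' : ℤ) u := by
          apply Int.isCoprime_iff_gcd_eq_one.mpr
          have h3 := hn.2
          rw [hu, hg'] at h3
          push_cast at h3
          rw [Int.gcd_mul_left, Int.natAbs_natCast] at h3
          exact Nat.eq_of_mul_eq_mul_left hg0 (by rw [h3, mul_one])
        rw [hu, hg'] at h2
        push_cast at h2
        rw [mul_assoc] at h2
        exact hcop.dvd_of_dvd_mul_left ((mul_dvd_mul_iff_left hgZ).mp h2)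
      apply count_sep _ X d _ hd (Int.natAbs_pos.mpr hD)
      · intro n hn
        exact (mem_Icc.mp (mem_filter.mp (mem_filter.mp hn).1).1).2
      · intro n hn n' hn'
        obtain ⟨a1, a2⟩ := key n hn
        obtain ⟨a3, a4⟩ := key n' hn'
        have b1 : (g : ℤ) ∣ (n : ℤ) - n' := (dvd_sub a1 a3).trans (dvd_of_eq (by ring))
        have b2 : (g' : ℤ) ∣ (n : ℤ) - n' := (dvd_sub a2 a4).trans (dvd_of_eq (by ring))
        have c1 : ((Nat.gcd g g' : ℕ) : ℤ) ∣ g := by exact_mod_cast Nat.gcd_dvd_left g g'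
        have c2 : ((Nat.gcd g g' : ℕ) : ℤ) ∣ g' := by exact_mod_cast Nat.gcd_dvd_right g g'
        have c3 : ((Nat.gcd g g' : ℕ) : ℤ) ∣ 2 * n₀ + b :=
          (dvd_sub (c2.trans a2) (c1.trans a1)).trans (dvd_of_eq (by ring))
        have c4 : ((Nat.gcd g g' : ℕ) : ℤ) ∣ b ^ 2 - 4 * c := by
          have c5 : ((Nat.gcd g g' : ℕ) : ℤ) ∣ (n₀ : ℤ) ^ 2 + b * n₀ + c :=
            (c1.trans (by rw [hg']; push_cast; exact Dvd.intro _ rfl)).trans hn0
          exact (dvd_sub (c3.mul_right (2 * n₀ + b)) (c5.mul_left 4)).trans (dvd_of_eq (by ring))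
        have c6 : ((Nat.lcm g g' : ℕ) : ℤ) ∣ (n : ℤ) - n' := by
          rw [Int.natCast_dvd] at b1 b2 ⊢
          exact Nat.lcm_dvd b1 b2
        rw [hg', ← Nat.gcd_mul_lcm]
        push_cast
        exact mul_dvd_mul ((dvd_abs _ _).mpr c4) c6)
  rw [mul_comm] at this
  exact this

lemma moment (X j : ℕ) : ∑ d ∈ Icc 1 X, (tau d : ℝ) ^ j / d ≤
    (∑ d ∈ Icc 1 X, (1 : ℝ) / d) ^ (2 ^ j) := by
  induction j with
  | zero => simp
  | succ j ih =>
    have h1 : ∀ d ∈ Icc 1 X, (tau d : ℝ) ^ (j + 1) / d ≤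
        ∑ x ∈ d.divisorsAntidiagonal, (tau x.1 : ℝ) ^ j / x.1 * ((tau x.2 : ℝ) ^ j / x.2) := by
      intro d _
      have hc : d.divisorsAntidiagonal.card = tau d := by
        rw [← Nat.map_div_right_divisors, card_map]; rfl
      have := card_nsmul_le_sum d.divisorsAntidiagonal
        (fun x => (tau x.1 : ℝ) ^ j / x.1 * ((tau x.2 : ℝ) ^ j / x.2)) ((tau d : ℝ) ^ j / d) (by
          intro x hx
          rw [← (Nat.mem_divisorsAntidiagonal.mp hx).1, div_mul_div_comm, ← mul_pow]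
          push_cast
          apply div_le_div_of_nonneg_right _ (by positivity)
          apply pow_le_pow_left₀ (by positivity)
          exact_mod_cast tau_mul_le _ _)
      rw [hc, nsmul_eq_mul] at this
      refine le_trans (le_of_eq ?_) this
      ring
    refine (sum_le_sum h1).trans ?_
    rw [← sum_biUnion (by
      intro d _ d' _ hne
      simp only [Function.onFun]
      rw [disjoint_left]
      intro x hx hx'
      exact hne ((Nat.mem_divisorsAntidiagonal.mp hx).1.symm.trans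
        (Nat.mem_divisorsAntidiagonal.mp hx').1))]
    have hsub : (Icc 1 X).biUnion Nat.divisorsAntidiagonal ⊆ Icc 1 X ×ˢ Icc 1 X := by
      intro x hx
      obtain ⟨d, hd, hx⟩ := mem_biUnion.mp hx
      obtain ⟨e, h0⟩ := Nat.mem_divisorsAntidiagonal.mp hx
      have hd' := (mem_Icc.mp hd).2
      have a1 : 0 < x.1 := Nat.pos_of_ne_zero (by intro h; rw [h] at e; omega)
      have a2 : 0 < x.2 := Nat.pos_of_ne_zero (by intro h; rw [h] at e; omega)
      simp only [mem_product, mem_Icc]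
      refine ⟨⟨a1, ?_⟩, a2, ?_⟩ <;> nlinarith
    refine (sum_le_sum_of_subset_of_nonneg hsub (fun _ _ _ => by positivity)).trans ?_
    rw [sum_product]
    simp only
    rw [← sum_mul_sum, pow_succ 2, pow_mul, sq]
    have h0 : 0 ≤ ∑ d ∈ Icc 1 X, (tau d : ℝ) ^ j / d := sum_nonneg (fun _ _ => by positivity)
    exact mul_le_mul ih ih h0 (h0.trans ih)

lemma harm_le (X : ℕ) : ∑ d ∈ Icc 1 X, (1 : ℝ) / d ≤ 1 + Real.log X := by
  have := harmonic_le_one_add_log X
  rw [harmonic_eq_sum_Icc] at this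
  push_cast at this
  simpa using this

theorem second_moment {b c : ℤ} (hD : b ^ 2 - 4 * c ≠ 0) (X : ℕ) (hX : |b| + |c| + 1 ≤ X)
    (hne : ∀ n : ℕ, (n : ℤ) ^ 2 + b * n + c ≠ 0) :
    ∑ n ∈ Icc 1 X, (tau ((n : ℤ) ^ 2 + b * n + c).natAbs : ℝ) ^ 2 ≤
      128 * (b ^ 2 - 4 * c).natAbs * X * (1 + Real.log X) ^ 128 := by
  have hb := abs_nonneg b
  have hc := abs_nonneg c
  have hX1 : 1 ≤ X := by omega
  set D := (b ^ 2 - 4 * c).natAbs with hDdef
  have hD1 : 1 ≤ D := Int.natAbs_pos.mpr hD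
  have h1 : ∀ n ∈ Icc 1 X, (tau ((n : ℤ) ^ 2 + b * n + c).natAbs : ℝ) ^ 2 ≤
      ∑ d ∈ Icc 1 X, if (d : ℤ) ∣ (n : ℤ) ^ 2 + b * n + c then 64 * (tau d : ℝ) ^ 6 else 0 := by
    intro n hn
    obtain ⟨n1, n2⟩ := mem_Icc.mp hn
    have hpos : 0 < ((n : ℤ) ^ 2 + b * n + c).natAbs := Int.natAbs_pos.mpr (hne n)
    obtain ⟨d, d1, d2, d3⟩ := landreau X hX1 3 _ hpos (by
      have a1 : (n : ℤ) ≤ X := by exact_mod_cast n2
      have a2 : (1 : ℤ) ≤ n := by exact_mod_cast n1
      have a3 : |(n : ℤ) ^ 2 + b * n + c| ≤ (n : ℤ) ^ 2 + |b| * n + |c| := by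
        refine (abs_add_le _ _).trans (add_le_add_left ((abs_add_le _ _).trans ?_) _)
        rw [abs_mul, abs_of_nonneg (sq_nonneg (n : ℤ)), abs_of_pos (show (0 : ℤ) < n by omega)]
      have a4 : (n : ℤ) ^ 2 ≤ X ^ 2 := by nlinarith
      have a5 : (n : ℤ) ≤ X ^ 2 := by nlinarith
      have a6 : (n : ℤ) ^ 2 + |b| * n + |c| ≤ (|b| + |c| + 1) * X ^ 2 := by
        nlinarith [mul_le_mul_of_nonneg_left a5 hb, mul_le_mul_of_nonneg_left
          (show (1 : ℤ) ≤ X ^ 2 by nlinarith) hc]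
      have a7 : (|b| + |c| + 1) * (X : ℤ) ^ 2 ≤ X * X ^ 2 :=
        mul_le_mul_of_nonneg_right hX (by positivity)
      have a8 : ((((n : ℤ) ^ 2 + b * n + c).natAbs : ℕ) : ℤ) ≤ ((X ^ 3 : ℕ) : ℤ) := by
        rw [Int.natCast_natAbs]; push_cast; nlinarith
      exact_mod_cast a8)
    have hd0 : 1 ≤ d := Nat.pos_of_dvd_of_pos d1 hpos
    refine le_trans ?_ (single_le_sum (f := fun d : ℕ =>
      if (d : ℤ) ∣ (n : ℤ) ^ 2 + b * n + c then 64 * (tau d : ℝ) ^ 6 else 0)
      (fun _ _ => by positivity) (mem_Icc.mpr ⟨hd0, d2⟩))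
    rw [if_pos (Int.natCast_dvd.mpr d1)]
    have d4 : (tau ((n : ℤ) ^ 2 + b * n + c).natAbs : ℝ) ≤ (2 * tau d) ^ 3 := by exact_mod_cast d3
    refine (pow_le_pow_left₀ (by positivity) d4 2).trans (le_of_eq ?_)
    ring
  refine (sum_le_sum h1).trans ?_
  rw [sum_comm]
  have h2 : ∀ d ∈ Icc 1 X, (∑ n ∈ Icc 1 X,
      if (d : ℤ) ∣ (n : ℤ) ^ 2 + b * n + c then 64 * (tau d : ℝ) ^ 6 else 0) ≤
      128 * D * X * ((tau d : ℝ) ^ 7 / d) := by
    intro d hd
    obtain ⟨d1, d2⟩ := mem_Icc.mp hd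
    rw [← sum_filter, sum_const, nsmul_eq_mul]
    have a1 := roots_le hD X d d1
    rw [← hDdef] at a1
    have a2 : ((D * X / d + 1 : ℕ) : ℝ) ≤ 2 * D * X / d := by
      have b1 : ((D * X / d : ℕ) : ℝ) ≤ (D * X : ℕ) / d := Nat.cast_div_le
      have b2 : (1 : ℝ) ≤ D * X / d := by
        rw [le_div_iff₀ (by exact_mod_cast d1)]
        have : d ≤ D * X := by nlinarith
        exact_mod_cast (by omega : 1 * d ≤ D * X)
      push_cast at b1 ⊢
      have : 2 * (D : ℝ) * X / d = D * X / d + D * X / d := by ring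
      linarith
    have a3 : (((Icc 1 X).filter (fun n : ℕ => (d : ℤ) ∣ (n : ℤ) ^ 2 + b * n + c)).card : ℝ) ≤
        tau d * (2 * D * X / d) := by
      refine le_trans (by exact_mod_cast a1) (mul_le_mul_of_nonneg_left a2 (by positivity))
    refine (mul_le_mul_of_nonneg_right a3 (by positivity)).trans (le_of_eq ?_)
    ring
  refine (sum_le_sum h2).trans ?_
  rw [← mul_sum]
  apply mul_le_mul_of_nonneg_left _ (by positivity)
  refine (moment X 7).trans ?_
  exact pow_le_pow_left₀ (sum_nonneg (fun _ _ => by positivity)) (harm_le X) _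

end Pool.Agent.P.MP_a1177c_nt
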