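import Pool.Agent.P.MP_a1177c_nt.Key
import Pool.Agent.P.MP_a1177c_nt.Odd
import Pool.Agent.P.MP_a1177c_nt.Tau

/-
Choice of the parameters.
-/

set_option autoImplicit false

namespace Pool.Agent.P.MP_a1177c_nt

open Finset

namespace Model

variable (M : Model)

lemma tauSum_mono {X Y : ℕ} (h : X ≤ Y) : M.tauSum X ≤ M.tauSum Y := by
  classical
  unfold tauSum
  apply sum_le_sum_of_subset
  unfold oddSet
  exact filter_subset_filter _ (Icc_subset_Icc_right h)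

theorem tauSum_lower (hD : ¬ IsSquare (M.b ^ 2 - 4 * M.c))
    (hprime : ∀ p : ℕ, p.Prime → 3 < p → M.col p = 1) :
    ∃ c₃ c₄ : ℕ, ∀ k X : ℕ, c₃ * (144 ^ 4) ^ k ≤ X → X < 2 ^ (k * k) →
      X ≤ c₄ * (144 ^ 4) ^ k * M.tauSum X := by
  have hb := abs_nonneg M.b
  have hc := abs_nonneg M.c
  obtain ⟨h, hh⟩ : ∃ h : ℕ, (h : ℤ) = 8 * (|M.b| + |M.c| + 1) :=
    ⟨(8 * (|M.b| + |M.c| + 1)).toNat, Int.toNat_of_nonneg (by omega)⟩
  have hD0 : M.b ^ 2 - 4 * M.c ≠ 0 := by intro h0; rw [h0] at hD; exact hD ⟨0, by simp⟩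
  obtain ⟨R⟩ := exists_Rt (H := h) hD0 hh.ge
  have hpos : 0 < h := by omega
  obtain ⟨ν, n1, n2, n3⟩ := exists_odd_W hD M.hcol hprime (80 * h) (by omega)
  obtain ⟨g, hg⟩ : ∃ g : ℕ, (g : ℤ) = ν.1 := ⟨ν.1.toNat, Int.toNat_of_nonneg n1.1.le⟩
  have hgpos : 0 < g := by have := n1.1; omega
  set u : ℕ := 3840 * h * (7 * (3840 * h * g)) with hu
  refine ⟨128 * (384 * h) ^ 2 * u ^ 4, 512 * 385 ^ 2 * u ^ 4, fun k X hX1 hX2 => ?_⟩
  set L : ℕ := 96 * h * (40 * 6 ^ k) with hL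
  set A : ℕ := 3840 * h * g * 24 ^ k with hA
  set U : ℕ := L * (7 * A) with hU
  have hUe : U = u * 144 ^ k := by
    rw [hU, hL, hA, hu, show (144 : ℕ) = 6 * 24 by norm_num, mul_pow]; ring
  have hU4 : U ^ 4 = u ^ 4 * (144 ^ 4) ^ k := by
    rw [hUe, mul_pow, ← pow_mul, ← pow_mul, mul_comm k 4]
  have h6 : 6 ^ k ≤ 24 ^ k := Nat.pow_le_pow_left (by norm_num) k
  have h61 : 1 ≤ 6 ^ k := Nat.one_le_pow _ _ (by norm_num)
  have hL0 : 0 < L := by rw [hL]; positivity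
  have hA0 : 0 < A := by rw [hA]; positivity
  have hU0 : 0 < U := by rw [hU]; positivity
  have hLA : L ≤ A := by
    rw [hL, hA]
    calc 96 * h * (40 * 6 ^ k) = 3840 * h * 1 * 6 ^ k := by ring
      _ ≤ 3840 * h * g * 24 ^ k := by gcongr; omega
  set S : ℕ := Nat.sqrt (X / (128 * U ^ 2)) with hS
  have s1 : S * S ≤ X / (128 * U ^ 2) := Nat.sqrt_le _
  have s2 : X / (128 * U ^ 2) < (S + 1) * (S + 1) := Nat.lt_succ_sqrt _
  have s3 : 384 * h * U ≤ S := by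
    rw [hS, Nat.le_sqrt, Nat.le_div_iff_mul_le (by positivity)]
    refine le_trans (le_of_eq ?_) hX1
    rw [mul_assoc (128 * (384 * h) ^ 2), ← hU4]; ring
  have hS0 : 0 < S := lt_of_lt_of_le (by positivity) s3
  rw [Nat.le_div_iff_mul_le (by positivity)] at s1
  rw [Nat.div_lt_iff_lt_mul (by positivity)] at s2
  obtain ⟨l, l1, l2, l3, l4, l5⟩ := R.loop M.hc M.par ν n1 n2 (fun _ => n3) k A (by
      have : 550 * h * 6 ^ k ≤ A := by
        refine le_trans ?_ hLA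
        rw [hL]; nlinarith
      exact_mod_cast this) (by
      rw [← hg]
      have : g ≤ A := by
        rw [hA]
        calc g = 1 * g * 1 := by ring
          _ ≤ 3840 * h * g * 24 ^ k := by gcongr <;> omega
      exact_mod_cast this)
  have hkey := M.key R S L (7 * A) (40 * 6 ^ k) hS0 (by positivity) (by positivity)
    (by rw [hL]; push_cast; ring) (by
      have : 4 * h * (96 * L * (7 * A)) ≤ S := le_trans (le_of_eq (by rw [hU]; ring)) s3
      exact_mod_cast this) l (fun μ hμ => ⟨(l1 μ hμ).1, by push_cast; exact (l1 μ hμ).2.1,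
      (l1 μ hμ).2.2⟩) l2 l3 (l4.trans (by
      rw [div_le_div_iff₀ (by positivity) (by positivity)]
      have a1 : k.factorial * 2 ^ (k * k) ≤ A ^ k := by
        have b1 : k * 2 ^ k ≤ A := by
          have c1 : k ≤ 12 ^ k := (Nat.lt_pow_self (by norm_num)).le
          rw [hA]
          calc k * 2 ^ k ≤ 12 ^ k * 2 ^ k := by gcongr
            _ = 1 * 1 * 24 ^ k := by rw [← mul_pow]; norm_num
            _ ≤ 3840 * h * g * 24 ^ k := by gcongr <;> omega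
        calc k.factorial * 2 ^ (k * k) ≤ k ^ k * 2 ^ (k * k) := by
              gcongr; exact Nat.factorial_le_pow k
          _ = (k * 2 ^ k) ^ k := by rw [mul_pow, ← pow_mul]
          _ ≤ A ^ k := Nat.pow_le_pow_left b1 k
      have a2 : S * S ≤ 2 ^ (k * k) := by
        have : S * S * 1 ≤ S * S * (128 * U ^ 2) := Nat.mul_le_mul_left _ (by
          have : 0 < U ^ 2 := by positivity
          omega)
        omega
      have a3 : 2 * k.factorial * (S * (L * S)) ≤ 4 * A ^ (k + 1) := by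
        calc 2 * k.factorial * (S * (L * S)) = 2 * (k.factorial * (S * S)) * L := by ring
          _ ≤ 2 * (k.factorial * 2 ^ (k * k)) * A := by gcongr
          _ ≤ 4 * A ^ k * A := by gcongr; norm_num
          _ = 4 * A ^ (k + 1) := by ring
      exact_mod_cast a3)) l5
  have hcard := M.card_badV_le (H := h) hh.ge (4 * L * S * (7 * A)) (96 * L * (7 * A))
  have hmono : M.tauSum (2 * (2 * (4 * L * S * (7 * A))) ^ 2) ≤ M.tauSum X :=
    M.tauSum_mono (le_trans (le_of_eq (by rw [hU]; ring)) s1)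
  have t1 : S ^ 2 ≤ (385 * U) ^ 2 * M.tauSum X := by
    refine hkey.trans (hcard.trans (Nat.mul_le_mul (Nat.pow_le_pow_left ?_ 2) hmono))
    have : 96 * L * (7 * A) = 96 * U := by rw [hU]; ring
    omega
  calc X ≤ (S + 1) * (S + 1) * (128 * U ^ 2) := s2.le
    _ ≤ (2 * S) * (2 * S) * (128 * U ^ 2) := by gcongr <;> omega
    _ = 512 * U ^ 2 * S ^ 2 := by ring
    _ ≤ 512 * U ^ 2 * ((385 * U) ^ 2 * M.tauSum X) := by gcongr
    _ = 512 * 385 ^ 2 * U ^ 4 * M.tauSum X := by ring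
    _ = _ := by rw [hU4]; ring

lemma val_ne (hD : ¬ IsSquare (M.b ^ 2 - 4 * M.c)) (n : ℕ) : (n : ℤ) ^ 2 + M.b * n + M.c ≠ 0 := by
  intro h
  exact hD ⟨2 * n + M.b, by linear_combination (-4) * h⟩

lemma tauSum_sq_le (hD : ¬ IsSquare (M.b ^ 2 - 4 * M.c)) (X : ℕ) (hX : |M.b| + |M.c| + 1 ≤ X) :
    (M.tauSum X : ℝ) ^ 2 ≤ (M.oddSet X).card *
      (128 * (M.b ^ 2 - 4 * M.c).natAbs * X * (1 + Real.log X) ^ 128) := by
  classical
  have hD0 : M.b ^ 2 - 4 * M.c ≠ 0 := by intro h0; rw [h0] at hD; exact hD ⟨0, by simp⟩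
  unfold tauSum
  push_cast
  refine sq_sum_le_card_mul_sum_sq.trans (mul_le_mul_of_nonneg_left ?_ (by positivity))
  refine le_trans ?_ (second_moment hD0 X hX (M.val_ne hD))
  exact sum_le_sum_of_subset_of_nonneg (filter_subset _ _) (fun _ _ _ => by positivity)

theorem oddSet_lower (hD : ¬ IsSquare (M.b ^ 2 - 4 * M.c))
    (hprime : ∀ p : ℕ, p.Prime → 3 < p → M.col p = 1) :
    ∃ C : ℝ, 0 < C ∧ ∃ X₀ : ℕ, ∀ X : ℕ, X₀ ≤ X →
      X * Real.exp (-C * Real.sqrt (Real.log X)) ≤ (M.oddSet X).card := by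
  obtain ⟨c₃, c₄, h⟩ := M.tauSum_lower hD hprime
  set D := (M.b ^ 2 - 4 * M.c).natAbs with hDdef
  set B : ℝ := (144 ^ 4) ^ 2 * 4 ^ 128 with hB
  have hB1 : 1 ≤ B := by rw [hB]; norm_num
  set c₅ : ℝ := c₄ ^ 2 * (128 * D) with hc₅
  have hc₅0 : 0 ≤ c₅ := by positivity
  refine ⟨c₅ + 3 * B, by linarith, max (2 ^ ((58 + c₃) * (58 + c₃))) (|M.b| + |M.c| + 3).toNat,
    fun X hX => ?_⟩
  have hX1 : 2 ^ ((58 + c₃) * (58 + c₃)) ≤ X := (le_max_left _ _).trans hX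
  have hX2 : (|M.b| + |M.c| + 3).toNat ≤ X := (le_max_right _ _).trans hX
  have hb := abs_nonneg M.b
  have hc := abs_nonneg M.c
  have hX3 : 3 ≤ X := by omega
  set j := Nat.sqrt (Nat.log 2 X) with hj
  have j1 : 58 + c₃ ≤ j := by
    rw [hj, Nat.le_sqrt]
    exact Nat.le_log_of_pow_le (by norm_num) hX1
  have j2 : 2 ^ (j * j) ≤ X :=
    (Nat.pow_le_pow_right (by norm_num) (Nat.sqrt_le _)).trans
      (Nat.pow_log_le_self 2 (by omega))
  have j3 : X < 2 ^ ((j + 1) * (j + 1)) :=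
    (Nat.lt_pow_succ_log_self (by norm_num) X).trans_le
      (Nat.pow_le_pow_right (by norm_num) (Nat.lt_succ_sqrt _))
  have h1 := h (j + 1) X (by
    refine le_trans ?_ j2
    calc c₃ * (144 ^ 4) ^ (j + 1) ≤ 2 ^ c₃ * (2 ^ 29) ^ (j + 1) :=
          Nat.mul_le_mul (Nat.lt_pow_self (by norm_num)).le (Nat.pow_le_pow_left (by norm_num) _)
      _ = 2 ^ (c₃ + 29 * (j + 1)) := by rw [← pow_mul, ← pow_add]
      _ ≤ 2 ^ (j * j) := Nat.pow_le_pow_right (by norm_num) (by nlinarith)) j3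
  have h2 := M.tauSum_sq_le hD X (by omega)
  rw [← hDdef] at h2
  have hXR : (3 : ℝ) ≤ X := by exact_mod_cast hX3
  have hlog2 : Real.log 2 ≤ 1 := by linarith [Real.log_two_lt_d9]
  have hlog2' : 1 / 4 ≤ Real.log 2 := by linarith [Real.log_two_gt_d9]
  have hlog : 1 + Real.log X ≤ 4 ^ (j + 1) := by
    have a1 : Real.log X ≤ Real.log (2 ^ ((j + 1) * (j + 1))) :=
      Real.log_le_log (by linarith) (by exact_mod_cast j3.le)
    rw [Real.log_pow] at a1
    have a2 : (j + 1) * (j + 1) + 1 ≤ 4 ^ (j + 1) := by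
      have : j + 1 < 2 ^ (j + 1) := Nat.lt_two_pow_self
      calc (j + 1) * (j + 1) + 1 ≤ 2 ^ (j + 1) * 2 ^ (j + 1) := by nlinarith
        _ = 4 ^ (j + 1) := by rw [← mul_pow]; norm_num
    have a3 : (((j + 1) * (j + 1) : ℕ) : ℝ) + 1 ≤ 4 ^ (j + 1) := by exact_mod_cast a2
    have a4 : (0 : ℝ) ≤ ((j + 1) * (j + 1) : ℕ) := by positivity
    nlinarith
  have hlog0 : 1 ≤ Real.log X := by
    rw [Real.le_log_iff_exp_le (by linarith)]
    linarith [Real.exp_one_lt_d9]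
  have h1R : (X : ℝ) ≤ c₄ * (144 ^ 4) ^ (j + 1) * M.tauSum X := by exact_mod_cast h1
  set N : ℝ := ((M.oddSet X).card : ℝ) with hN
  have hN0 : 0 ≤ N := by positivity
  have h3 : (X : ℝ) * X ≤ X * (c₅ * B ^ (j + 1) * N) := by
    calc (X : ℝ) * X ≤ (c₄ * (144 ^ 4) ^ (j + 1) * M.tauSum X) *
          (c₄ * (144 ^ 4) ^ (j + 1) * M.tauSum X) :=
          mul_le_mul h1R h1R (by linarith) (by linarith)
      _ = (c₄ * (144 ^ 4) ^ (j + 1)) ^ 2 * (M.tauSum X : ℝ) ^ 2 := by ring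
      _ ≤ (c₄ * (144 ^ 4) ^ (j + 1)) ^ 2 * (N * (128 * D * X * (1 + Real.log X) ^ 128)) := by gcongr
      _ ≤ (c₄ * (144 ^ 4) ^ (j + 1)) ^ 2 * (N * (128 * D * X * (4 ^ (j + 1)) ^ 128)) := by gcongr
      _ = X * (c₅ * B ^ (j + 1) * N) := by
          rw [hc₅, hB, mul_pow ((144 ^ 4 : ℝ) ^ 2), ← pow_mul (4 : ℝ) 128, mul_comm 128 (j + 1),
            pow_mul (4 : ℝ) (j + 1), ← pow_mul (144 ^ 4 : ℝ) 2, mul_comm 2 (j + 1),
            pow_mul (144 ^ 4 : ℝ) (j + 1)]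
          generalize ((144 : ℝ) ^ 4) ^ (j + 1) = s
          generalize ((4 : ℝ) ^ (j + 1)) ^ 128 = t
          ring
  have h4 : (X : ℝ) ≤ c₅ * B ^ (j + 1) * N := le_of_mul_le_mul_left h3 (by linarith)
  set s := Real.sqrt (Real.log X) with hs
  have s1 : 1 ≤ s := by rw [hs]; exact Real.one_le_sqrt.mpr hlog0
  have s2 : (j : ℝ) ≤ 2 * s := by
    have a1 : Real.log (2 ^ (j * j)) ≤ Real.log X :=
      Real.log_le_log (by positivity) (by exact_mod_cast j2)
    rw [Real.log_pow] at a1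
    push_cast at a1
    have a2 : s * s = Real.log X := Real.mul_self_sqrt (by linarith)
    by_contra hh
    push Not at hh
    have : (0 : ℝ) ≤ (j : ℝ) * j := by positivity
    nlinarith
  have h5 : c₅ * B ^ (j + 1) ≤ Real.exp ((c₅ + 3 * B) * s) := by
    have a1 : c₅ ≤ Real.exp (c₅ * s) := by
      have := Real.add_one_le_exp (c₅ * s)
      nlinarith
    have a2 : B ^ (j + 1) ≤ Real.exp (3 * B * s) := by
      have b1 : B ≤ Real.exp B := by linarith [Real.add_one_le_exp B]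
      refine (pow_le_pow_left₀ (by linarith) b1 _).trans ?_
      rw [← Real.exp_nat_mul]
      apply Real.exp_le_exp.mpr
      push_cast
      nlinarith
    rw [add_mul, Real.exp_add]
    exact mul_le_mul a1 a2 (by positivity) (by positivity)
  rw [neg_mul, Real.exp_neg, ← div_eq_mul_inv, div_le_iff₀ (Real.exp_pos _)]
  nlinarith [mul_le_mul_of_nonneg_right h5 hN0]

end Model

end Pool.Agent.P.MP_a1177c_nt
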