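import Pool.Agent.P.MP_a1177c_nt.Loop

/-
The rotation argument: a short almost closed loop of odd colour forces many bad vectors.
-/

set_option autoImplicit false

namespace Pool.Agent.P.MP_a1177c_nt

open Finset MeasureTheory

lemma det_le {b c H : ℤ} (R : Rt b c H) {x y : ℤ × ℤ} (hx : W H x) (hy : W H y) :
    (|det x y| : ℝ) ≤ (x.1 : ℝ) * y.1 * (3 / 2 * |R.ang x - R.ang y|) := by
  have hx1 : (0 : ℝ) < x.1 := by exact_mod_cast hx.1
  have hy1 : (0 : ℝ) < y.1 := by exact_mod_cast hy.1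
  have h := (R.th_lip (hx.slope.trans (by norm_num)) (hy.slope.trans (by norm_num))).1
  have e : ((det x y : ℤ) : ℝ) = -((x.1 : ℝ) * y.1 * ((x.2 : ℝ) / x.1 - (y.2 : ℝ) / y.1)) := by
    simp only [det]; push_cast; field_simp; ring
  rw [e, abs_neg, abs_mul, abs_of_pos (mul_pos hx1 hy1)]
  apply mul_le_mul_of_nonneg_left _ (mul_pos hx1 hy1).le
  simp only [Rt.ang]
  linarith

namespace Model

variable (M : Model) {H : ℤ} (R : Rt M.b M.c H)

/-- `x` is a good rational approximation of the angle `ψ`. -/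
def Wit (Q T K : ℤ) (ρ ψ : ℝ) (x : ℤ × ℤ) : Prop :=
  W (2 * H) x ∧ 4 * H * K ≤ x.1 ∧ M.ok x ∧ x.1 ≤ Q ∧ |R.ang x - ψ| ≤ ρ ∧ x ∉ M.badV H T K

/-- All partial sums along the list have good approximations. -/
def AllGood (Q T K : ℤ) (ρ : ℝ) : ℝ → List (ℤ × ℤ) → Prop
  | ψ, [] => ∃ x, M.Wit R Q T K ρ ψ x
  | ψ, μ :: l => (∃ x, M.Wit R Q T K ρ ψ x) ∧ AllGood Q T K ρ (ψ + R.ang μ) l

lemma W_half {H : ℤ} (hH : 0 ≤ H) {x : ℤ × ℤ} (h : W (2 * H) x) : W H x :=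
  ⟨h.1, by nlinarith [h.2, abs_nonneg x.2]⟩

lemma close {Q T K : ℤ} {ρ ψ : ℝ} {x y : ℤ × ℤ} (hx : M.Wit R Q T K ρ ψ x) (hQ : Q ≤ T)
    (hy : W H y) (hyT : y.1 ≤ T) (oy : M.ok y) (hd : |det x y| ≤ K) : M.par x = M.par y := by
  classical
  have h8 := R.H8Z
  obtain ⟨h1, h2, h3, h4, _, h6⟩ := hx
  by_contra hne
  apply h6
  simp only [badV, mem_filter, mem_box (show 1 ≤ H by omega)]
  exact ⟨⟨W_half (by omega) h1, by omega⟩, h1, h2, h3, y, ⟨hy, hyT⟩, oy, hd, hne⟩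

lemma step {Q T K Mh : ℤ} {ρ ψ : ℝ} {x x' μ : ℤ × ℤ} (hx : M.Wit R Q T K ρ ψ x)
    (hx' : M.Wit R Q T K ρ (ψ + R.ang μ) x') (hμ : W H μ) (hμM : μ.1 ≤ Mh) (oμ : M.ok μ)
    (hT : 2 * Q * Mh ≤ T) (hK : 6 * Q ^ 2 * Mh * ρ ≤ K) (hρ : ρ * H ≤ 1 / 12) :
    M.par x' = M.par x + M.par μ := by
  have h8 := R.H8Z
  have h8R := R.H8
  have hxW := W_half (by omega) hx.1
  have hx'W := W_half (by omega) hx'.1
  have hx1 := hxW.1
  have hμ1 := hμ.1
  have hxQ := hx.2.2.2.1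
  have hx'Q := hx'.2.2.2.1
  obtain ⟨s1, s2⟩ := R.mul_slope hxW hμ
  have ha := R.ang_mul hxW hμ
  have hdiff : |R.ang x' - R.ang (mul M.b M.c x μ)| ≤ 2 * ρ := by
    rw [ha]
    have e : R.ang x' - (R.ang x + R.ang μ) = (R.ang x' - (ψ + R.ang μ)) - (R.ang x - ψ) := by ring
    rw [e]
    linarith [abs_sub (R.ang x' - (ψ + R.ang μ)) (R.ang x - ψ), hx.2.2.2.2.1, hx'.2.2.2.2.1]
  have hyW : W H (mul M.b M.c x μ) := by
    apply W_of_slope s1
    have a1 := (R.th_lip (hx'W.slope.trans (by norm_num)) s2).1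
    have a3 := hx'.1.slope
    push_cast at a3
    have a4 := abs_sub_abs_le_abs_sub (((mul M.b M.c x μ).2 : ℝ) / (mul M.b M.c x μ).1)
      ((x'.2 : ℝ) / x'.1)
    rw [abs_sub_comm] at a4
    simp only [Rt.ang] at hdiff
    have a5 : |((mul M.b M.c x μ).2 : ℝ) / (mul M.b M.c x μ).1| ≤ |(x'.2 : ℝ) / x'.1| + 3 * ρ := by
      linarith
    nlinarith [mul_le_mul_of_nonneg_right a5 (show (0 : ℝ) ≤ H by linarith)]
  have hyT : (mul M.b M.c x μ).1 ≤ 2 * Q * Mh := by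
    have := (mul_fst_bounds R.hH hxW hμ).2.1
    have h2 : x.1 * μ.1 ≤ Q * Mh := mul_le_mul hxQ hμM hμ1.le (by omega)
    linarith
  have hQT : Q ≤ T := by nlinarith
  have hd : |det x' (mul M.b M.c x μ)| ≤ K := by
    have h1 := det_le R hx'W hyW
    have b1 : (x'.1 : ℝ) ≤ Q := by exact_mod_cast hx'Q
    have b2 : ((mul M.b M.c x μ).1 : ℝ) ≤ 2 * Q * Mh := by exact_mod_cast hyT
    have b3 : (0 : ℝ) < (mul M.b M.c x μ).1 := by exact_mod_cast s1
    have b4 : (0 : ℝ) < x'.1 := by exact_mod_cast hx'W.1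
    have b5 : (x'.1 : ℝ) * (mul M.b M.c x μ).1 ≤ Q * (2 * Q * Mh) :=
      mul_le_mul b1 b2 b3.le (by linarith)
    have b6 : (x'.1 : ℝ) * (mul M.b M.c x μ).1 * (3 / 2 * |R.ang x' - R.ang (mul M.b M.c x μ)|) ≤
        Q * (2 * Q * Mh) * (3 * ρ) :=
      mul_le_mul b5 (by linarith) (by positivity) ((mul_pos b4 b3).le.trans b5)
    have : (|det x' (mul M.b M.c x μ)| : ℝ) ≤ K := by nlinarith
    exact_mod_cast this
  rw [M.close R hx' hQT hyW (hyT.trans hT) (ok_mul hx.2.2.1 oμ) hd]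
  exact par_mul M.hcol M.b M.c (nm_pos R.hH hxW).ne' (nm_pos R.hH hμ).ne'

lemma chain {Q T K Mh : ℤ} {ρ : ℝ} (hT : 2 * Q * Mh ≤ T) (hK : 6 * Q ^ 2 * Mh * ρ ≤ K)
    (hρ : ρ * H ≤ 1 / 12) : ∀ (l : List (ℤ × ℤ)) (ψ : ℝ) (x : ℤ × ℤ),
    (∀ μ ∈ l, W H μ ∧ μ.1 ≤ Mh ∧ M.ok μ) → M.Wit R Q T K ρ ψ x → M.AllGood R Q T K ρ ψ l →
    ∃ y, M.Wit R Q T K ρ (ψ + (l.map R.ang).sum) y ∧ M.par y = M.par x + (l.map M.par).sum := by
  intro l
  induction l with
  | nil => intro ψ x _ hx _; exact ⟨x, by simpa using hx, by simp⟩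
  | cons μ l ih =>
    intro ψ x hl hx hall
    obtain ⟨x', hx'⟩ : ∃ x', M.Wit R Q T K ρ (ψ + R.ang μ) x' := by
      have := hall.2
      cases l with
      | nil => exact this
      | cons _ _ => exact this.1
    obtain ⟨m1, m2, m3⟩ := hl μ (by simp)
    obtain ⟨y, hy1, hy2⟩ := ih (ψ + R.ang μ) x' (fun ν hν => hl ν (by simp [hν])) hx' hall.2
    refine ⟨y, by simpa [add_assoc] using hy1, ?_⟩
    rw [hy2, M.step R hx hx' m1 m2 m3 hT hK hρ]
    simp [add_assoc]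

lemma vol_bad {Q T K : ℤ} {ρ r₀ : ℝ} (E : Set ℝ)
    (hE : ∀ ψ, |ψ| ≤ r₀ → ψ ∉ E → ∃ x, M.Wit R Q T K ρ ψ x) :
    ∀ (l : List (ℤ × ℤ)) (r : ℝ), r + (l.map (fun μ => |R.ang μ|)).sum ≤ r₀ →
      volume {ψ : ℝ | |ψ| ≤ r ∧ ¬ M.AllGood R Q T K ρ ψ l} ≤ (l.length + 1 : ℕ) * volume E := by
  intro l
  induction l with
  | nil =>
    intro r hr
    simp only [List.map_nil, List.sum_nil, add_zero] at hr
    simp only [List.length_nil, zero_add, Nat.cast_one, one_mul]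
    apply measure_mono
    rintro ψ ⟨h1, h2⟩
    by_contra h
    exact h2 (hE ψ (h1.trans hr) h)
  | cons μ l ih =>
    intro r hr
    simp only [List.map_cons, List.sum_cons] at hr
    have h0 : 0 ≤ (l.map (fun μ => |R.ang μ|)).sum := List.sum_nonneg (by
      intro x hx
      obtain ⟨y, _, rfl⟩ := List.mem_map.mp hx
      exact abs_nonneg _)
    have hsub : {ψ : ℝ | |ψ| ≤ r ∧ ¬ M.AllGood R Q T K ρ ψ (μ :: l)} ⊆
        E ∪ (fun h => h + R.ang μ) ⁻¹'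
          {ψ : ℝ | |ψ| ≤ r + |R.ang μ| ∧ ¬ M.AllGood R Q T K ρ ψ l} := by
      rintro ψ ⟨h1, h2⟩
      by_cases h : ψ ∈ E
      · exact Or.inl h
      · right
        refine ⟨(abs_add_le _ _).trans (by linarith), fun h3 => h2 ⟨hE ψ ?_ h, h3⟩⟩
        linarith [abs_nonneg (R.ang μ)]
    refine (measure_mono hsub).trans ((measure_union_le _ _).trans ?_)
    rw [measure_preimage_add_right]
    refine (add_le_add_right (ih (r + |R.ang μ|) (by linarith)) _).trans (le_of_eq ?_)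
    simp only [List.length_cons]
    push_cast
    ring

end Model

/-- Dirichlet's theorem with a primitive vector. -/
lemma dirichlet (t : ℝ) (Q : ℕ) (hQ : 0 < Q) :
    ∃ x y : ℤ × ℤ, 0 < x.1 ∧ x.1 ≤ Q ∧ |t - (x.2 : ℝ) / x.1| ≤ 1 / (x.1 * Q) ∧ det x y = 1 ∧
      Q < y.1 ∧ y.1 ≤ 2 * Q := by
  obtain ⟨r, p, hp, hpQ, h⟩ := Real.exists_int_int_abs_mul_sub_le t hQ
  obtain ⟨g, p', r', hg, hcop, rfl, rfl⟩ := Int.exists_gcd_one' (m := p) (n := r)
    (Int.gcd_pos_of_ne_zero_left _ hp.ne')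
  have hgZ : (1 : ℤ) ≤ g := by exact_mod_cast hg
  have hp' : 0 < p' := by
    by_contra hh
    push Not at hh
    nlinarith
  have hp'Q : p' ≤ Q := by nlinarith
  obtain ⟨u, v, huv⟩ := Int.isCoprime_iff_gcd_eq_one.mpr hcop
  have hQR : (0 : ℝ) < Q := by exact_mod_cast hQ
  have hp'R : (0 : ℝ) < p' := by exact_mod_cast hp'
  have hgR : (1 : ℝ) ≤ g := by exact_mod_cast hgZ
  set j := (Q + v) / p' + 1 with hj
  have j1 := Int.emod_add_mul_ediv (Q + v) p'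
  have j2 := Int.emod_nonneg (Q + v) hp'.ne'
  have j3 := Int.emod_lt_of_pos (Q + v) hp'
  refine ⟨(p', r'), (-v + j * p', u + j * r'), hp', hp'Q, ?_, ?_, ?_, ?_⟩
  · simp only
    have e : t - (r' : ℝ) / p' = (p' * t - r') / p' := by field_simp
    rw [e, abs_div, abs_of_pos hp'R, div_le_div_iff₀ hp'R (by positivity)]
    push_cast at h
    have e2 : (p' : ℝ) * g * t - r' * g = (p' * t - r') * g := by ring
    rw [e2, abs_mul, abs_of_pos (show (0 : ℝ) < g by linarith), le_div_iff₀ (by positivity)] at h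
    have h0 := abs_nonneg ((p' : ℝ) * t - r')
    have h1 : |(p' : ℝ) * t - r'| * Q ≤ 1 := by nlinarith [mul_nonneg h0 hQR.le]
    nlinarith
  · simp only [det]; linear_combination huv
  · simp only [hj]; nlinarith
  · simp only [hj]; nlinarith

namespace Model

variable (M : Model) {H : ℤ} (R : Rt M.b M.c H)

lemma exists_wit (S Q : ℕ) (T K : ℤ) (hS : 0 < S) (hQ : 16 * H ≤ Q) (hK : 4 * H * K ≤ S)
    (hSQ : S ≤ Q) (ψ : ℝ) (hψ : |ψ| * H ≤ 1 / 4)
    (h1 : ∀ x ∈ M.badV H T K, ψ ∉ Metric.closedBall (R.ang x) (4 / (S * Q)))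
    (h2 : ∀ p ∈ Icc (1 : ℤ) S, ∀ r ∈ Icc (-p) p,
      ψ ∉ Metric.closedBall (R.ang (p, r)) (2 / (p * Q))) :
    ∃ x, M.Wit R (2 * Q) T K (4 / (S * Q)) ψ x := by
  have h8 := R.H8Z
  have h8R := R.H8
  have hQ0 : 0 < Q := by omega
  have hQR : (0 : ℝ) < Q := by exact_mod_cast hQ0
  have hSR : (1 : ℝ) ≤ S := by exact_mod_cast hS
  have hQH : 16 * (H : ℝ) ≤ Q := by exact_mod_cast hQ
  obtain ⟨t, ht, e⟩ := R.exists_slope (φ := ψ) (by linarith)
  have ht2 : |t| * H ≤ 3 / 8 := by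
    have := (R.th_abs (ht.trans (by norm_num))).1
    rw [e] at this
    nlinarith
  obtain ⟨x, y, x1, x2, x3, hd, y1, y2⟩ := dirichlet t Q hQ0
  have x1R : (1 : ℝ) ≤ x.1 := by exact_mod_cast x1
  have hinv : 1 / (Q : ℝ) * H ≤ 1 / 16 := by
    rw [div_mul_eq_mul_div, div_le_div_iff₀ hQR (by norm_num)]; linarith
  -- a vector whose slope is close to `t`
  have near : ∀ (z : ℤ × ℤ) (δ : ℝ), 0 < z.1 → |t - (z.2 : ℝ) / z.1| ≤ δ → δ ≤ 2 / Q →
      W (2 * H) z ∧ |R.ang z - ψ| ≤ 2 * δ := by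
    intro z δ z1 z2 z3
    have a1 := abs_sub_abs_le_abs_sub ((z.2 : ℝ) / z.1) t
    rw [abs_sub_comm] at a1
    have a2 : |(z.2 : ℝ) / z.1| ≤ |t| + 2 * (1 / Q) := by
      have : 2 * (1 / (Q : ℝ)) = 2 / Q := by ring
      linarith
    have a3 : |(z.2 : ℝ) / z.1| * H ≤ 1 / 2 := by
      nlinarith [mul_le_mul_of_nonneg_right a2 (show (0 : ℝ) ≤ H by linarith)]
    refine ⟨W_of_slope z1 (by push_cast; linarith), ?_⟩
    have := (R.th_lip (a3.trans (by norm_num)) (ht.trans (by norm_num))).2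
    rw [e, abs_sub_comm _ t] at this
    simp only [Rt.ang]
    linarith
  have hxQ : 1 / ((x.1 : ℝ) * Q) ≤ 2 / Q := by
    rw [div_le_div_iff₀ (by positivity) hQR]; nlinarith
  obtain ⟨xW, xa⟩ := near x _ x1 x3 hxQ
  have hxS : (S : ℤ) < x.1 := by
    by_contra hh
    push Not at hh
    have hb := abs_le.mp (abs_snd_le (by omega) xW)
    apply h2 x.1 (mem_Icc.mpr ⟨by omega, hh⟩) x.2 (mem_Icc.mpr hb)
    rw [Metric.mem_closedBall, Real.dist_eq, abs_sub_comm]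
    refine xa.trans (le_of_eq ?_)
    ring
  have hxSR : (S : ℝ) ≤ x.1 := by exact_mod_cast hxS.le
  have hSQ' : 1 / ((x.1 : ℝ) * Q) ≤ 1 / (S * Q) :=
    div_le_div_of_nonneg_left (by norm_num) (by positivity) (by nlinarith)
  have fin : ∀ z : ℤ × ℤ, W (2 * H) z → (S : ℤ) < z.1 → M.ok z → z.1 ≤ 2 * Q →
      |R.ang z - ψ| ≤ 4 / (S * Q) → ∃ x, M.Wit R (2 * Q) T K (4 / (S * Q)) ψ x := by
    intro z z1 z2 z3 z4 z5
    refine ⟨z, z1, by omega, z3, z4, z5, fun hb => h1 z hb ?_⟩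
    rwa [Metric.mem_closedBall, Real.dist_eq, abs_sub_comm]
  have e4 : 4 / ((S : ℝ) * Q) = 4 * (1 / (S * Q)) := by ring
  have hpos : 0 ≤ 1 / ((S : ℝ) * Q) := by positivity
  rcases ok_or M.hc x y hd with ho | ho
  · exact fin x xW hxS ho (by omega) (by rw [e4]; linarith)
  · have y0 : 0 < y.1 := by omega
    have y1R : (Q : ℝ) ≤ y.1 := by exact_mod_cast y1.le
    have y0R : (0 : ℝ) < y.1 := by exact_mod_cast y0
    have e5 : (y.2 : ℝ) / y.1 = (x.2 : ℝ) / x.1 + 1 / (x.1 * y.1) := by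
      have : (x.1 : ℝ) * y.2 - x.2 * y.1 = 1 := by exact_mod_cast hd
      field_simp
      linarith
    have b1 : 1 / ((x.1 : ℝ) * y.1) ≤ 1 / (S * Q) :=
      div_le_div_of_nonneg_left (by norm_num) (by positivity)
        (mul_le_mul hxSR y1R hQR.le (by linarith))
    have b2 : |t - (y.2 : ℝ) / y.1| ≤ 2 * (1 / (S * Q)) := by
      rw [e5, ← sub_sub]
      refine (abs_sub _ _).trans ?_
      rw [abs_of_nonneg (show 0 ≤ 1 / ((x.1 : ℝ) * y.1) by positivity)]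
      linarith
    obtain ⟨yW, ya⟩ := near y _ y0 b2 (by
      rw [mul_one_div, div_le_div_iff₀ (by positivity) hQR]; nlinarith)
    exact fin y yW (by omega) ho y2 (by rw [e4]; linarith)

theorem key (S L Mh m : ℕ) (hS : 0 < S) (hm : 0 < m) (hMh : 0 < Mh) (hL : L = 96 * H * m)
    (hK : 4 * H * (96 * L * Mh) ≤ S) (l : List (ℤ × ℤ))
    (hl : ∀ μ ∈ l, W H μ ∧ μ.1 ≤ Mh ∧ M.ok μ) (hlen : l.length + 1 ≤ m)
    (hsum : (l.map (fun μ => |R.ang μ|)).sum * H ≤ 1 / 8)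
    (hclose : |(l.map R.ang).sum| ≤ 4 / (S * (L * S : ℕ))) (hpar : (l.map M.par).sum = 1) :
    S ^ 2 ≤ (M.badV H (4 * L * S * Mh : ℕ) (96 * L * Mh : ℕ)).card := by
  have h8 := R.H8Z
  have h8R := R.H8
  have hHR : (0 : ℝ) < H := by linarith
  have hmZ : (1 : ℤ) ≤ m := by exact_mod_cast hm
  have hSZ : (1 : ℤ) ≤ S := by exact_mod_cast hS
  have hLZ : 96 * H ≤ L := by rw [hL]; nlinarith
  have hL0 : 0 < L := by omega
  have hmR : (1 : ℝ) ≤ m := by exact_mod_cast hm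
  have hSR : (1 : ℝ) ≤ S := by exact_mod_cast hS
  have hMR : (1 : ℝ) ≤ Mh := by exact_mod_cast hMh
  have hLR : (L : ℝ) = 96 * H * m := by exact_mod_cast hL
  have hLR0 : (0 : ℝ) < L := by exact_mod_cast hL0
  set Q : ℕ := L * S with hQ
  set T : ℤ := ((4 * L * S * Mh : ℕ) : ℤ) with hT
  set K : ℤ := ((96 * L * Mh : ℕ) : ℤ) with hKdef
  set ρ : ℝ := 4 / (S * Q) with hρ
  have hQR : (Q : ℝ) = L * S := by rw [hQ]; push_cast; ring
  have hQZ : (Q : ℤ) = L * S := by rw [hQ]; push_cast; ring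
  have hρ0 : 0 < ρ := by rw [hρ, hQR]; positivity
  set B := M.badV H T K with hB
  set E : Set ℝ := (⋃ x ∈ B, Metric.closedBall (R.ang x) ρ) ∪
    (⋃ p ∈ Icc (1 : ℤ) S, ⋃ r ∈ Icc (-p) p, Metric.closedBall (R.ang (p, r)) (2 / (p * Q))) with hE
  have hEw : ∀ ψ : ℝ, |ψ| ≤ 1 / (4 * H) → ψ ∉ E → ∃ x, M.Wit R (2 * Q) T K ρ ψ x := by
    intro ψ h1 h2
    simp only [hE, Set.mem_union, Set.mem_iUnion, not_or, not_exists] at h2
    refine M.exists_wit R S Q T K hS (by rw [hQZ]; nlinarith) (by rw [hKdef]; push_cast; exact hK)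
      (Nat.le_mul_of_pos_left _ hL0) ψ ?_ h2.1 h2.2
    rw [le_div_iff₀ (by positivity)] at h1
    linarith
  have hvol := M.vol_bad R E hEw l (1 / (8 * H)) (by
    have e1 : 1 / (4 * (H : ℝ)) = 1 / (8 * H) + 1 / (8 * H) := by field_simp; norm_num
    have e2 : (l.map (fun μ => |R.ang μ|)).sum ≤ 1 / (8 * H) := by
      rw [le_div_iff₀ (by positivity)]; linarith
    linarith)
  have hρH : ρ * H ≤ 1 / 12 := by
    rw [hρ, hQR, div_mul_eq_mul_div, div_le_div_iff₀ (by positivity) (by norm_num)]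
    have : (96 : ℝ) * H ≤ L := by exact_mod_cast hLZ
    nlinarith [mul_le_mul hSR hSR (by norm_num) (by linarith), mul_pos hLR0 hLR0]
  have hQρ : (Q : ℝ) ^ 2 * ρ = 4 * L := by rw [hρ, hQR]; field_simp
  have hnone : ∀ ψ, ¬ M.AllGood R (2 * Q) T K ρ ψ l := by
    intro ψ hall
    obtain ⟨x, hx⟩ : ∃ x, M.Wit R (2 * Q) T K ρ ψ x := by
      cases l with
      | nil => exact hall
      | cons _ _ => exact hall.1
    obtain ⟨y, hy1, hy2⟩ := M.chain R (Mh := Mh) (by rw [hT, hQZ]; push_cast; linarith) (by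
      rw [hKdef]; push_cast; nlinarith) hρH l ψ x hl hx hall
    have hxW := W_half (by omega) hx.1
    have hyW := W_half (by omega) hy1.1
    have hQT : 2 * (Q : ℤ) ≤ T := by
      rw [hT, hQZ]; push_cast
      have : (1 : ℤ) ≤ Mh := by exact_mod_cast hMh
      have : (0 : ℤ) < L * S := by positivity
      nlinarith
    have hd : |det x y| ≤ K := by
      have h1 := det_le R hxW hyW
      have b1 : (x.1 : ℝ) ≤ 2 * Q := by exact_mod_cast hx.2.2.2.1
      have b2 : (y.1 : ℝ) ≤ 2 * Q := by exact_mod_cast hy1.2.2.2.1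
      have b3 : (0 : ℝ) < y.1 := by exact_mod_cast hyW.1
      have b4 : (0 : ℝ) < x.1 := by exact_mod_cast hxW.1
      have b5 : (x.1 : ℝ) * y.1 ≤ (2 * Q) * (2 * Q) := mul_le_mul b1 b2 b3.le (by linarith)
      have b7 : |R.ang x - R.ang y| ≤ 3 * ρ := by
        have e : R.ang x - R.ang y = (R.ang x - ψ) - (R.ang y - (ψ + (l.map R.ang).sum)) -
          (l.map R.ang).sum := by ring
        rw [e]
        linarith [abs_sub ((R.ang x - ψ) - (R.ang y - (ψ + (l.map R.ang).sum))) (l.map R.ang).sum,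
          abs_sub (R.ang x - ψ) (R.ang y - (ψ + (l.map R.ang).sum)), hx.2.2.2.2.1, hy1.2.2.2.2.1]
      have b6 : (x.1 : ℝ) * y.1 * (3 / 2 * |R.ang x - R.ang y|) ≤ (2 * Q) * (2 * Q) * (9 / 2 * ρ) :=
        mul_le_mul b5 (by linarith) (by positivity) (by positivity)
      have : (|det x y| : ℝ) ≤ K := by rw [hKdef]; push_cast; nlinarith
      exact_mod_cast this
    have := M.close R hx hQT hyW (hy1.2.2.2.1.trans hQT) hy1.2.2.1 hd
    rw [hpar, ← this] at hy2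
    have h01 : (1 : ZMod 2) = 0 := by linear_combination -hy2
    exact absurd h01 (by decide)
  have hset : {ψ : ℝ | |ψ| ≤ 1 / (8 * H) ∧ ¬ M.AllGood R (2 * Q) T K ρ ψ l} =
      Set.Icc (-(1 / (8 * H)) : ℝ) (1 / (8 * H)) := by
    ext ψ
    simp only [Set.mem_ofPred_eq, hnone ψ, not_false_eq_true, and_true, Set.mem_Icc, abs_le]
  rw [hset, Real.volume_Icc] at hvol
  have v1 : volume (⋃ x ∈ B, Metric.closedBall (R.ang x) ρ) ≤ ENNReal.ofReal (B.card * (2 * ρ)) := by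
    refine (measure_biUnion_finset_le _ _).trans (le_of_eq ?_)
    simp only [Real.volume_closedBall, sum_const, nsmul_eq_mul]
    rw [ENNReal.ofReal_mul (p := (B.card : ℝ)) (by positivity), ENNReal.ofReal_natCast]
  have v2 : volume (⋃ p ∈ Icc (1 : ℤ) S, ⋃ r ∈ Icc (-p) p,
      Metric.closedBall (R.ang (p, r)) (2 / (p * Q))) ≤ ENNReal.ofReal (S * (12 / Q)) := by
    refine (measure_biUnion_finset_le _ _).trans ?_
    have : ∀ p ∈ Icc (1 : ℤ) S, volume (⋃ r ∈ Icc (-p) p,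
        Metric.closedBall (R.ang (p, r)) (2 / (p * Q))) ≤ ENNReal.ofReal (12 / Q) := by
      intro p hp
      have hp1 := (mem_Icc.mp hp).1
      have hpR : (1 : ℝ) ≤ p := by exact_mod_cast hp1
      refine (measure_biUnion_finset_le _ _).trans ?_
      simp only [Real.volume_closedBall, sum_const, nsmul_eq_mul, Int.card_Icc]
      rw [← ENNReal.ofReal_natCast, ← ENNReal.ofReal_mul (by positivity)]
      apply ENNReal.ofReal_le_ofReal
      have e1 : (((p + 1 - -p).toNat : ℕ) : ℝ) = 2 * p + 1 := by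
        have : (((p + 1 - -p).toNat : ℕ) : ℤ) = 2 * p + 1 := by omega
        exact_mod_cast this
      have hQ0 : (0 : ℝ) < Q := by rw [hQR]; positivity
      rw [e1, le_div_iff₀ hQ0]
      have : (2 * (p : ℝ) + 1) * (2 * (2 / (p * Q))) * Q = (2 * p + 1) * 4 / p := by field_simp; ring
      rw [this, div_le_iff₀ (by linarith)]
      linarith
    refine (sum_le_card_nsmul _ _ _ this).trans (le_of_eq ?_)
    rw [Int.card_Icc, nsmul_eq_mul, ENNReal.ofReal_mul (by positivity), ENNReal.ofReal_natCast]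
    simp
  have v3 : volume E ≤ ENNReal.ofReal (B.card * (2 * ρ) + S * (12 / Q)) := by
    rw [ENNReal.ofReal_add (by positivity) (by positivity)]
    exact (measure_union_le _ _).trans (add_le_add v1 v2)
  have v4 : ((l.length + 1 : ℕ) : ENNReal) * volume E ≤
      ENNReal.ofReal (m * (B.card * (2 * ρ) + S * (12 / Q))) := by
    rw [ENNReal.ofReal_mul (by positivity), ENNReal.ofReal_natCast]
    exact mul_le_mul' (by exact_mod_cast hlen) v3
  have v5 := (ENNReal.ofReal_le_ofReal_iff (by positivity)).mp (hvol.trans v4)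
  have e1 : (m : ℝ) * (B.card * (2 * ρ) + S * (12 / Q)) =
      B.card / (12 * H * S ^ 2) + 1 / (8 * H) := by
    rw [hρ, hQR, hLR]; field_simp; ring
  rw [e1] at v5
  have v6 : 1 / (8 * (H : ℝ)) ≤ B.card / (12 * H * S ^ 2) := by linarith
  rw [div_le_div_iff₀ (by positivity) (by positivity)] at v6
  have v7 : (S : ℝ) ^ 2 ≤ B.card := by
    have : (0 : ℝ) ≤ B.card := by positivity
    nlinarith [mul_nonneg hHR.le (sq_nonneg (S : ℝ))]
  exact_mod_cast v7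

end Model

end Pool.Agent.P.MP_a1177c_nt
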