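import Pool.Agent.P.MP_a1177c_nt.Angle
import Pool.Agent.P.MP_a1177c_nt.Approx
import Pool.Agent.P.MP_a1177c_nt.Count

/-
A short almost closed loop of odd total colour.
-/

set_option autoImplicit false

namespace Pool.Agent.P.MP_a1177c_nt

open Finset

lemma sum_N_le (k : ℕ) : ∑ i ∈ range k, (4 * 3 ^ (i + 2) + 1) * 2 ^ (i + 1) ≤ 18 * 6 ^ k := by
  induction k with
  | zero => simp
  | succ k ih =>
    rw [sum_range_succ]
    have h1 : (6 : ℕ) ^ k = 3 ^ k * 2 ^ k := by rw [← mul_pow]; norm_num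
    have h2 : 1 ≤ (3 : ℕ) ^ k := Nat.one_le_pow _ _ (by norm_num)
    have h3 : 1 ≤ (2 : ℕ) ^ k := Nat.one_le_pow _ _ (by norm_num)
    rw [pow_succ 6, pow_add 3, pow_succ 2]
    rw [h1] at ih ⊢
    nlinarith

lemma le_six_pow (k : ℕ) : k + 1 ≤ 6 ^ k := by
  induction k with
  | zero => simp
  | succ k ih => rw [pow_succ]; omega

namespace Rt

variable {b c H : ℤ} (R : Rt b c H)

lemma ang_conj {a : ℤ} (ha : 2 * H ≤ a) :
    W H (a, 1) ∧ W H (a + b, -1) ∧ R.ang (a + b, -1) = -R.ang (a, 1) := by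
  have h8 := R.H8Z
  have hH := R.hH
  have hb := neg_abs_le b
  have hb' := abs_nonneg b
  have hc := abs_nonneg c
  have w1 : W H (a, 1) := ⟨by simp only; omega, by simp only [abs_one]; omega⟩
  have w2 : W H (a + b, -1) := ⟨by simp only; omega, by simp only [abs_neg, abs_one]; omega⟩
  refine ⟨w1, w2, ?_⟩
  have := R.ang_mul w1 w2
  have e : R.ang (mul b c (a, 1) (a + b, -1)) = 0 := by
    have : (mul b c (a, 1) (a + b, -1)).2 = 0 := by simp only [mul]; ring
    rw [ang, this]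
    simp [R.th_zero]
  linarith

lemma fine {fl : Prop} (hc : fl → Odd c) (k A : ℕ) (hA : 550 * H * 6 ^ k ≤ A) (τ : ℝ)
    (hτ : |τ| ≤ 1 / A) :
    ∃ l : List (ℤ × ℤ), (∀ μ ∈ l, W H μ ∧ μ.1 ≤ 7 * A ∧ ok fl b c μ ∧ |R.ang μ| ≤ 1 / A) ∧
      l.length ≤ 18 * 6 ^ k ∧ |τ - (l.map R.ang).sum| ≤ k.factorial / (A : ℝ) ^ (k + 1) := by
  have h8 := R.H8Z
  have h8R := R.H8
  have hk : ((k : ℤ) + 1) ≤ 6 ^ k := by exact_mod_cast le_six_pow k
  have hkA : H * (k + 1) * 500 ≤ A := by nlinarith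
  have hk0 : (0 : ℤ) ≤ k := by positivity
  have hA0 : 0 < A := by
    have : (0 : ℤ) < A := by nlinarith
    exact_mod_cast this
  have hAR : (0 : ℝ) < A := by exact_mod_cast hA0
  have hkA' : k ≤ A := by
    have : (k : ℤ) ≤ A := by nlinarith
    exact_mod_cast this
  have hHA : 2 * H ≤ A := by nlinarith
  have hHAR : (H : ℝ) * (k + 1) ≤ A := by
    have : H * (k + 1) ≤ A := by nlinarith
    exact_mod_cast this
  set gg : ℕ → ℝ → ℝ := fun j x => 2 ^ j * R.gd j (2 * x) with hgg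
  have hder : ∀ j x, (H : ℝ) ≤ x → HasDerivAt (gg j) (-(gg (j + 1) x)) x := by
    intro j x hx
    have d1 := ((R.hasDerivAt_gd j (2 * x) (by linarith)).comp x
      ((hasDerivAt_id x).const_mul 2)).const_mul ((2 : ℝ) ^ j)
    have e : -(gg (j + 1) x) = 2 ^ j * (-R.gd (j + 1) (2 * x) * (2 * 1)) := by
      simp only [hgg]; ring
    rw [e]
    exact d1
  set G : Set ℝ := {g | ∃ a : ℕ, A ≤ a ∧ a ≤ 2 * A + k ∧ (g = gg 0 a ∨ g = -gg 0 a)} with hG
  have hneg : ∀ g ∈ G, -g ∈ G := by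
    rintro g ⟨a, h1, h2, h3⟩
    refine ⟨a, h1, h2, ?_⟩
    rcases h3 with h | h
    · right; rw [h]
    · left; rw [h, neg_neg]
  obtain ⟨σ, hσ, herr⟩ := approx hneg (gg 0) A k hA0 (fun a h1 h2 => ⟨a, h1, h2, Or.inl rfl⟩)
    (fun j => (j.factorial : ℝ) / (4 * (3 * A) ^ (j + 1)))
    (fun j => (j.factorial : ℝ) / (A : ℝ) ^ (j + 1)) (fun j => 4 * 3 ^ (j + 2))
    (by
      intro j hj a h1 h2
      have h1' : (A : ℝ) ≤ a := by exact_mod_cast h1
      have h2' : (a : ℝ) ≤ 2 * A := by exact_mod_cast h2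
      have hj' : (j : ℝ) + 1 ≤ k := by exact_mod_cast hj
      have hkA'' : (k : ℝ) ≤ A := by exact_mod_cast hkA'
      have hj0 : (0 : ℝ) ≤ j := by positivity
      obtain ⟨ξ, x1, x2, x3⟩ := iter_dif (H : ℝ) (j + 1) gg hder a (by nlinarith)
      push_cast at x2
      obtain ⟨g1, g2⟩ := R.gd_bounds j (2 * ξ) (by nlinarith)
      rw [x3]
      have hf : (0 : ℝ) < (j + 1).factorial := by exact_mod_cast (j + 1).factorial_pos
      have hξ : 0 < ξ := by linarith
      have g1' := mul_le_mul_of_nonneg_left g1 (show (0 : ℝ) ≤ 2 ^ (j + 1) by positivity)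
      have g2' := mul_le_mul_of_nonneg_left g2 (show (0 : ℝ) ≤ 2 ^ (j + 1) by positivity)
      have e1 : (2 : ℝ) ^ (j + 1) * (((j + 1).factorial : ℝ) / (2 * (2 * ξ) ^ (j + 2))) =
          ((j + 1).factorial : ℝ) / (4 * ξ ^ (j + 2)) := by
        rw [mul_pow]; field_simp; ring
      have e2 : (2 : ℝ) ^ (j + 1) * (2 * ((j + 1).factorial : ℝ) / (2 * ξ) ^ (j + 2)) =
          ((j + 1).factorial : ℝ) / ξ ^ (j + 2) := by
        rw [mul_pow]; field_simp; ring
      rw [e1] at g1'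
      rw [e2] at g2'
      constructor
      · refine le_trans ?_ g1'
        apply div_le_div_of_nonneg_left hf.le (by positivity)
        have : ξ ^ (j + 2) ≤ (3 * A) ^ (j + 2) := pow_le_pow_left₀ hξ.le (by linarith) _
        linarith
      · refine g2'.trans ?_
        apply div_le_div_of_nonneg_left (by positivity) (by positivity)
        exact pow_le_pow_left₀ hAR.le (by linarith) _)
    (fun j => by
      have hf : (0 : ℝ) < j.factorial := by exact_mod_cast j.factorial_pos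
      positivity)
    (fun j _ => by
      have hf : (0 : ℝ) < j.factorial := by exact_mod_cast j.factorial_pos
      rw [Nat.factorial_succ]
      push_cast
      have e : (4 * 3 ^ (j + 2) : ℝ) * (A * ((j + 1) * j.factorial / (4 * (3 * A) ^ (j + 1 + 1)))) =
          (j + 1) * (j.factorial / (A : ℝ) ^ (j + 1)) := by
        rw [mul_pow]; field_simp; ring
      rw [e]
      have : 0 ≤ (j.factorial : ℝ) / (A : ℝ) ^ (j + 1) := by positivity
      have hj0 : (0 : ℝ) ≤ j := by positivity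
      nlinarith)
    k le_rfl τ (by simpa using hτ)
  obtain ⟨l, hl1, hl2, hl3⟩ := hσ.mono (sum_N_le k)
  have hreal : ∀ g ∈ G, ∃ μ : ℤ × ℤ, (W H μ ∧ μ.1 ≤ 7 * A ∧ ok fl b c μ ∧ |R.ang μ| ≤ 1 / A) ∧
      R.ang μ = g := by
    rintro g ⟨a, h1, h2, h3⟩
    have h1' : (A : ℤ) ≤ a := by exact_mod_cast h1
    have h2' : (a : ℤ) ≤ 2 * A + k := by exact_mod_cast h2
    have hkA'' : (k : ℤ) ≤ A := by exact_mod_cast hkA'
    obtain ⟨w1, w2, w3⟩ := R.ang_conj (a := 2 * a) (by omega)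
    have e : R.ang (2 * (a : ℤ), 1) = gg 0 a := by simp [ang, gd, hgg]
    have hb : |R.ang (2 * (a : ℤ), 1)| ≤ 1 / A := by
      have := (R.th_abs (w1.slope.trans (by norm_num))).2
      refine this.trans ?_
      have h1'' : (A : ℝ) ≤ a := by exact_mod_cast h1
      have ha0 : (0 : ℝ) < a := by linarith
      simp only [Int.cast_one, Int.cast_mul, Int.cast_ofNat, Int.cast_natCast]
      rw [abs_of_nonneg (by positivity)]
      have : 2 * (1 / (2 * (a : ℝ))) = 1 / a := by field_simp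
      rw [this]
      exact div_le_div_of_nonneg_left (by norm_num) hAR h1''
    have hH := R.hH
    have hb1 := le_abs_self b
    have hc' := abs_nonneg c
    have o1 : ok fl b c (2 * (a : ℤ), 1) := by
      intro hf
      obtain ⟨c', rfl⟩ := hc hf
      exact ⟨2 * a ^ 2 + b * a + c', by simp only [nm]; ring⟩
    have o2 : ok fl b c (2 * (a : ℤ) + b, -1) := by
      intro hf
      obtain ⟨c', rfl⟩ := hc hf
      exact ⟨2 * a ^ 2 + b * a + c', by simp only [nm]; ring⟩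
    rcases h3 with h | h
    · exact ⟨(2 * a, 1), ⟨w1, by simp only; omega, o1, hb⟩, by rw [e, h]⟩
    · exact ⟨(2 * a + b, -1), ⟨w2, by simp only; omega, o2, by rw [w3, abs_neg]; exact hb⟩,
        by rw [w3, e, h]⟩
  choose! f hf using hreal
  refine ⟨l.map f, ?_, by simpa using hl2, ?_⟩
  · intro μ hμ
    obtain ⟨g, hg, rfl⟩ := List.mem_map.mp hμ
    exact (hf g (hl1 g hg)).1
  · have : ((l.map f).map R.ang) = l := by
      rw [List.map_map]
      conv_rhs => rw [← List.map_id l]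
      exact List.map_congr_left (fun g hg => (hf g (hl1 g hg)).2)
    rw [this, hl3]
    exact herr

lemma coarse (A : ℕ) (hA : 2 * H ≤ A) (τ : ℝ) (hτ : |τ| * H ≤ 1 / 3) :
    ∃ μ : ℤ × ℤ, W H μ ∧ μ.1 = 2 * A + 1 ∧ Odd (nm b c μ) ∧ |τ - R.ang μ| ≤ 1 / A := by
  have h8 := R.H8Z
  have h8R := R.H8
  have hA0 : (0 : ℤ) < A := by omega
  have hAR : (0 : ℝ) < A := by exact_mod_cast hA0
  have hA' : 2 * (H : ℝ) ≤ A := by exact_mod_cast hA
  obtain ⟨t, ht, e⟩ := R.exists_slope (φ := τ) (by linarith)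
  have h1 := (R.th_abs (ht.trans (by norm_num))).1
  rw [e] at h1
  have h2 : |t| * H ≤ 1 / 2 := by nlinarith
  obtain ⟨r, h3⟩ : ∃ r : ℤ, |(2 * A + 1) * t / 2 - r| ≤ 1 / 2 := ⟨_, abs_sub_round _⟩
  have h4 : |t - (2 * r : ℝ) / (2 * A + 1)| ≤ 1 / (2 * A) := by
    have : t - (2 * r : ℝ) / (2 * A + 1) = ((2 * A + 1) * t / 2 - r) * 2 / (2 * A + 1) := by
      field_simp
    rw [this, abs_div, abs_mul, abs_two, abs_of_pos (show (0 : ℝ) < 2 * A + 1 by positivity),
      div_le_div_iff₀ (by positivity) (by positivity)]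
    nlinarith
  have h5 : |(2 * r : ℝ) / (2 * A + 1)| * H ≤ 1 := by
    have a1 : |(2 * r : ℝ) / (2 * A + 1)| ≤ |t| + 1 / (2 * A) := by
      have := abs_sub_abs_le_abs_sub ((2 * r : ℝ) / (2 * A + 1)) t
      rw [abs_sub_comm] at this
      linarith
    have a2 : 1 / (2 * (A : ℝ)) * H ≤ 1 / 2 := by
      rw [div_mul_eq_mul_div, div_le_div_iff₀ (by positivity) (by norm_num)]; linarith
    nlinarith
  have hW : W H (2 * (A : ℤ) + 1, 2 * r) := W_of_slope (by simp only; omega) (by simpa using h5)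
  refine ⟨(2 * A + 1, 2 * r), hW, rfl, ⟨2 * A ^ 2 + 2 * A + b * (2 * A + 1) * r + 2 * c * r ^ 2,
    by simp only [nm]; ring⟩, ?_⟩
  have := (R.th_lip (ht.trans (by norm_num)) (h5.trans (by norm_num))).2
  rw [e] at this
  simp only [ang]
  push_cast
  refine this.trans ?_
  have e2 : 1 / (A : ℝ) = 2 * (1 / (2 * A)) := by field_simp
  rw [e2]; linarith

theorem loop {fl : Prop} (hc : fl → Odd c) (F : ℤ × ℤ → ZMod 2) (ν : ℤ × ℤ) (hν : W (80 * H) ν)
    (hpar : F ν = 1) (hok : ok fl b c ν) (k A : ℕ) (hA : 550 * H * 6 ^ k ≤ A) (hν' : ν.1 ≤ A) :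
    ∃ l : List (ℤ × ℤ), (∀ μ ∈ l, W H μ ∧ μ.1 ≤ 7 * A ∧ ok fl b c μ) ∧ l.length + 1 ≤ 40 * 6 ^ k ∧
      (l.map (fun μ => |R.ang μ|)).sum * H ≤ 1 / 8 ∧
      |(l.map R.ang).sum| ≤ 2 * k.factorial / (A : ℝ) ^ (k + 1) ∧ (l.map F).sum = 1 := by
  have h8 := R.H8Z
  have h8R := R.H8
  have h6 : (1 : ℤ) ≤ 6 ^ k := one_le_pow₀ (by norm_num)
  have h6N : 1 ≤ 6 ^ k := Nat.one_le_pow _ _ (by norm_num)
  have h6R : (1 : ℝ) ≤ 6 ^ k := one_le_pow₀ (by norm_num)
  have hA2 : 2 * H ≤ A := by nlinarith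
  have hA0 : (0 : ℤ) < A := by omega
  have hAR : (0 : ℝ) < A := by exact_mod_cast hA0
  have hAR' : 550 * (H : ℝ) * 6 ^ k ≤ A := by exact_mod_cast hA
  have hνW : W H ν := ⟨hν.1, by nlinarith [hν.2, abs_nonneg ν.2]⟩
  have hνa : |R.ang ν| * H ≤ 1 / 40 := by
    have s1 := hν.slope
    have s2 := (R.th_abs (hνW.slope.trans (by norm_num))).2
    push_cast at s1
    simp only [ang]
    nlinarith
  obtain ⟨μ, m1, m2, m4, m3⟩ := R.coarse A hA2 (-R.ang ν / 2) (by
    rw [abs_div, abs_neg, abs_two]; linarith)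
  obtain ⟨l, l1, l2, l3⟩ := R.fine hc k A hA (-R.ang ν / 2 - R.ang μ) m3
  refine ⟨ν :: μ :: μ :: (l ++ l), ?_, ?_, ?_, ?_, ?_⟩
  · intro x hx
    simp only [List.mem_cons, List.mem_append, or_self] at hx
    rcases hx with rfl | rfl | rfl | hx
    · exact ⟨hνW, by omega, hok⟩
    · exact ⟨m1, by omega, fun _ => m4⟩
    · exact ⟨m1, by omega, fun _ => m4⟩
    · exact ⟨(l1 x hx).1, (l1 x hx).2.1, (l1 x hx).2.2.1⟩
  · simp only [List.length_cons, List.length_append]; omega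
  · simp only [List.map_cons, List.map_append, List.sum_cons, List.sum_append]
    have a1 : (l.map (fun μ => |R.ang μ|)).sum ≤ 18 * 6 ^ k * (1 / A) := by
      have := List.sum_le_card_nsmul (l.map (fun μ => |R.ang μ|)) (1 / (A : ℝ)) (by
        intro x hx
        obtain ⟨y, hy, rfl⟩ := List.mem_map.mp hx
        exact (l1 y hy).2.2.2)
      rw [List.length_map, nsmul_eq_mul] at this
      refine this.trans (mul_le_mul_of_nonneg_right ?_ (by positivity))
      exact_mod_cast l2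
    have a2 : |R.ang μ| ≤ |R.ang ν| / 2 + 1 / A := by
      have := abs_sub_abs_le_abs_sub (R.ang μ) (-R.ang ν / 2)
      rw [abs_sub_comm, abs_div, abs_neg, abs_two] at this
      linarith
    have a3 : 6 ^ k * (1 / (A : ℝ)) * H ≤ 1 / 550 := by
      rw [mul_one_div, div_mul_eq_mul_div, div_le_div_iff₀ hAR (by norm_num)]; linarith
    have a4 : 1 / (A : ℝ) * H ≤ 6 ^ k * (1 / (A : ℝ)) * H := by
      have : 0 ≤ 1 / (A : ℝ) * H := by positivity
      nlinarith
    have a5 : 18 * 6 ^ k * (1 / (A : ℝ)) = 18 * (6 ^ k * (1 / (A : ℝ))) := by ring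
    rw [a5] at a1
    have b1 := mul_le_mul_of_nonneg_right a1 (show (0 : ℝ) ≤ H by linarith)
    have b2 := mul_le_mul_of_nonneg_right a2 (show (0 : ℝ) ≤ H by linarith)
    nlinarith
  · simp only [List.map_cons, List.map_append, List.sum_cons, List.sum_append]
    have e : R.ang ν + (R.ang μ + (R.ang μ + ((l.map R.ang).sum + (l.map R.ang).sum))) =
        -2 * (-R.ang ν / 2 - R.ang μ - (l.map R.ang).sum) := by ring
    rw [e, abs_mul, abs_neg, abs_two, mul_div_assoc]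
    linarith
  · simp only [List.map_cons, List.map_append, List.sum_cons, List.sum_append, hpar]
    have e1 := CharTwo.add_self_eq_zero (F μ)
    have e2 := CharTwo.add_self_eq_zero (l.map F).sum
    linear_combination e1 + e2

end Rt

end Pool.Agent.P.MP_a1177c_nt
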