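import Pool.Agent.P.MP_a1177c_nt.Count
import Pool.Agent.P.MP_a1177c_nt.Odd

/-
The models attached to the polynomials `a X² + b X + c` with `a ≤ 4` and `a ∣ b²`.
-/

set_option autoImplicit false

namespace Pool.Agent.P.MP_a1177c_nt

open Finset ArithmeticFunction

lemma odd_of_ipar {m : ℤ} (h : ipar m = 1) : Odd (cardFactors m.natAbs) :=
  ZMod.natCast_eq_one_iff_odd.mp h

lemma addv_ipar : Addv ipar := fun _ _ hm hn => ipar_mul hm hn

/-- Parity of the number of prime factors different from `l`. -/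
def iparAway (l : ℕ) (m : ℤ) : ZMod 2 := ipar m + (padicValInt l m : ZMod 2)

lemma addv_iparAway (l : ℕ) [Fact l.Prime] : Addv (iparAway l) := by
  intro m n hm hn
  unfold iparAway
  rw [ipar_mul hm hn, padicValInt.mul hm hn]
  push_cast; ring

lemma iparAway_of_not_dvd {l : ℕ} {m : ℤ} (h : ¬ (l : ℤ) ∣ m) : iparAway l m = ipar m := by
  unfold iparAway
  rw [padicValInt.eq_zero_of_not_dvd h]; simp

lemma iparAway_self (l : ℕ) [hl : Fact l.Prime] : iparAway l l = 0 := by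
  unfold iparAway
  rw [ipar_prime hl.out, padicValInt.self hl.out.one_lt]
  decide

/-- The set counted in the theorem. -/
def oddVals (a b c : ℤ) (X : ℕ) : Finset ℕ :=
  (Icc 1 X).filter (fun m : ℕ => Odd (cardFactors (a * (m : ℤ) ^ 2 + b * m + c).natAbs))

lemma card_le_of (M : Model) (a b c : ℤ) (hq : 0 < M.q)
    (h : ∀ n m : ℕ, (n : ℤ) = M.q * m → M.col (M.val n) = 1 →
      ipar (a * (m : ℤ) ^ 2 + b * m + c) = 1) (X : ℕ) :
    (M.oddSet X).card ≤ (oddVals a b c X).card := by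
  classical
  obtain ⟨q, hq'⟩ := Int.eq_ofNat_of_zero_le hq.le
  have hq0 : 0 < q := by omega
  refine card_le_card_of_injOn (fun n => n / q) ?_ ?_
  · intro n hn
    simp only [Model.oddSet, coe_filter, mem_Icc, Set.mem_ofPred_eq, hq'] at hn
    obtain ⟨⟨n1, n2⟩, hd, hc, _⟩ := hn
    obtain ⟨m, rfl⟩ : q ∣ n := by exact_mod_cast hd
    simp only [oddVals, coe_filter, mem_Icc, Set.mem_ofPred_eq, Nat.mul_div_cancel_left m hq0]
    refine ⟨⟨Nat.pos_of_ne_zero (by rintro rfl; simp at n1), by nlinarith⟩, odd_of_ipar ?_⟩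
    exact h (q * m) m (by rw [hq']; push_cast; ring) hc
  · intro n hn n' hn' e
    simp only [Model.oddSet, coe_filter, mem_Icc, Set.mem_ofPred_eq, hq'] at hn hn'
    obtain ⟨m, rfl⟩ : q ∣ n := by exact_mod_cast hn.2.1
    obtain ⟨m', rfl⟩ : q ∣ n' := by exact_mod_cast hn'.2.1
    simp only [Nat.mul_div_cancel_left _ hq0] at e
    rw [e]

lemma fix_ram (l : ℕ) [NeZero l] (hl : ∀ p q : ZMod l, p * q = 0 ∨ p + q = 0 ∨ p = q) (b c : ℤ)
    (z w : ℤ × ℤ) : (l : ℤ) ∣ bil (l * b) (l * c) z w ∨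
    ((l : ℤ) ∣ bil (l * b) (l * c) z (z + w) ∧ (l : ℤ) ∣ bil (l * b) (l * c) (z + w) w) ∨
    ((l : ℤ) ∣ bil (l * b) (l * c) z (w - z) ∧ (l : ℤ) ∣ bil (l * b) (l * c) w (w - z) ∧
      (l : ℤ) ∣ bil (l * b) (l * c) (z - w) z ∧ (l : ℤ) ∣ bil (l * b) (l * c) (z - w) w) := by
  simp only [← ZMod.intCast_zmod_eq_zero_iff_dvd, bil, Prod.fst_add, Prod.snd_add, Prod.fst_sub,
    Prod.snd_sub]
  push_cast
  simp only [ZMod.natCast_self, zero_mul, add_zero]
  rcases hl (z.1 : ZMod l) (w.1 : ZMod l) with h | h | h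
  · exact Or.inl h
  · right; left; rw [h]; simp
  · right; right; rw [h]; simp

/-- The ramified model: `l (l m² + l b m + c)` is the value of a monic polynomial at `l m`. -/
def ramModel (l : ℕ) [Fact l.Prime] (hl : ∀ p q : ZMod l, p * q = 0 ∨ p + q = 0 ∨ p = q)
    (b c : ℤ) : Model where
  b := l * b
  c := l * c
  q := l
  col := iparAway l
  fl := False
  hcol := addv_iparAway l
  hc := False.elim
  hfix := fun z w _ _ _ => by
    rcases fix_ram l hl b c z w with h | h | h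
    · exact Or.inl h
    · exact Or.inr (Or.inl ⟨h.1, h.2, False.elim⟩)
    · exact Or.inr (Or.inr ⟨h.1, h.2.1, h.2.2.1, h.2.2.2, False.elim⟩)

/-- The monic model. -/
def monicModel (b c : ℤ) : Model where
  b := b
  c := c
  q := 1
  col := ipar
  fl := False
  hcol := addv_ipar
  hc := False.elim
  hfix := fun _ _ _ _ _ => Or.inl (one_dvd _)

lemma fix_four (b c : ℤ) (hc : Odd c) (z w : ℤ × ℤ) (h1 : Odd (nm b c z)) (h2 : Odd (nm b c w))
    (h : det z w = 1) : (2 : ℤ) ∣ bil b c z w ∨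
    ((2 : ℤ) ∣ bil b c z (z + w) ∧ (2 : ℤ) ∣ bil b c (z + w) w ∧ Odd (nm b c (z + w))) := by
  have h4 : ((det z w : ℤ) : ZMod 2) = 1 := by rw [h]; rfl
  simp only [← even_iff_two_dvd, ← ZMod.intCast_eq_zero_iff_even]
  rw [← ZMod.intCast_eq_one_iff_odd] at h1 h2 hc ⊢
  simp only [nm, det, bil, Prod.fst_add, Prod.snd_add] at h1 h2 h4 ⊢
  push_cast at h1 h2 h4 ⊢
  rw [hc] at h1 h2 ⊢
  generalize (b : ZMod 2) = B at *
  generalize (z.1 : ZMod 2) = x1 at *
  generalize (z.2 : ZMod 2) = x2 at *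
  generalize (w.1 : ZMod 2) = y1 at *
  generalize (w.2 : ZMod 2) = y2 at *
  revert B x1 x2 y1 y2
  decide

/-- The model of the values at even arguments of a monic polynomial with odd constant term. -/
def evenModel (b c : ℤ) (hc : Odd c) : Model where
  b := b
  c := c
  q := 2
  col := ipar
  fl := True
  hcol := addv_ipar
  hc := fun _ => hc
  hfix := fun z w h1 h2 h => by
    rcases fix_four b c hc z w (h1 trivial) (h2 trivial) h with h | h
    · exact Or.inl h
    · exact Or.inr (Or.inl ⟨h.1, h.2.1, fun _ => h.2.2⟩)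

theorem exists_model (a b c : ℤ) (ha : 0 < a) (ha4 : a ≤ 4) (hab : a ∣ b ^ 2)
    (hg : Int.gcd (Int.gcd a b : ℤ) c = 1) (hD : ¬ IsSquare (b ^ 2 - 4 * a * c)) :
    ∃ M : Model, ¬ IsSquare (M.b ^ 2 - 4 * M.c) ∧ (∀ p : ℕ, p.Prime → 3 < p → M.col p = 1) ∧
      ∀ X, (M.oddSet X).card ≤ (oddVals a b c X).card := by
  have hnd : ∀ l : ℕ, l.Prime → (l : ℤ) ∣ a → (l : ℤ) ∣ b → ¬ (l : ℤ) ∣ c := by
    intro l hl h1 h2 h3
    have h4 : (l : ℤ) ∣ (Int.gcd (Int.gcd a b : ℤ) c : ℕ) :=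
      Int.dvd_coe_gcd (Int.dvd_coe_gcd h1 h2) h3
    rw [hg] at h4
    exact hl.one_lt.ne' (Nat.dvd_one.mp (by exact_mod_cast h4))
  have ram : ∀ (l : ℕ) [Fact l.Prime], l ≤ 3 → (∀ p q : ZMod l, p * q = 0 ∨ p + q = 0 ∨ p = q) →
      a = l → ∃ M : Model, ¬ IsSquare (M.b ^ 2 - 4 * M.c) ∧
      (∀ p : ℕ, p.Prime → 3 < p → M.col p = 1) ∧
      ∀ X, (M.oddSet X).card ≤ (oddVals a b c X).card := by
    intro l hl hl3 hz hal
    have hp : Prime (l : ℤ) := Nat.prime_iff_prime_int.mp hl.out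
    obtain ⟨b', hb'⟩ : (l : ℤ) ∣ b := hp.dvd_of_dvd_pow (hal ▸ hab)
    have hc := hnd l hl.out (hal ▸ dvd_rfl) ⟨b', hb'⟩
    refine ⟨ramModel l hz b' c, ?_, ?_, card_le_of _ a b c ?_ ?_⟩
    · simp only [ramModel]
      rwa [← hb', ← mul_assoc, ← hal]
    · intro p hp hp3
      simp only [ramModel]
      rw [iparAway_of_not_dvd, ipar_prime hp]
      intro h
      have := (Nat.prime_dvd_prime_iff_eq hl.out hp).mp (by exact_mod_cast h)
      omega
    · simp only [ramModel]; exact_mod_cast hl.out.pos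
    · intro n m hn hcol
      simp only [ramModel, Model.val] at hn hcol
      have hf : ¬ (l : ℤ) ∣ a * (m : ℤ) ^ 2 + b * m + c := by
        intro h
        apply hc
        rw [hal, hb'] at h
        have := dvd_sub h (Dvd.intro ((m : ℤ) ^ 2 + b' * m) rfl)
        exact this.trans (dvd_of_eq (by ring))
      have e : (n : ℤ) ^ 2 + l * b' * n + l * c = l * (a * (m : ℤ) ^ 2 + b * m + c) := by
        rw [hn, hal, hb']; ring
      have hf0 : a * (m : ℤ) ^ 2 + b * m + c ≠ 0 := fun h => hf (by rw [h]; exact dvd_zero _)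
      rw [e, addv_iparAway l _ _ hp.ne_zero hf0, iparAway_self,
        iparAway_of_not_dvd hf, zero_add] at hcol
      exact hcol
  have : a = 1 ∨ a = 2 ∨ a = 3 ∨ a = 4 := by omega
  rcases this with h | h | h | h
  · refine ⟨monicModel b c, ?_, fun p hp _ => ipar_prime hp, card_le_of _ a b c ?_ ?_⟩
    · simpa [monicModel, h] using hD
    · simp [monicModel]
    · intro n m hn hcol
      simp only [monicModel, Model.val, one_mul] at hn hcol
      rw [h, one_mul, ← hn]; exact hcol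
  · exact ram 2 (by norm_num) (by decide) h
  · exact ram 3 (by norm_num) (by decide) h
  · obtain ⟨b', hb'⟩ : (2 : ℤ) ∣ b :=
      Int.prime_two.dvd_of_dvd_pow ((show (2 : ℤ) ∣ a from ⟨2, by omega⟩).trans hab)
    have hc : Odd c := by
      have := hnd 2 Nat.prime_two ⟨2, by omega⟩ ⟨b', hb'⟩
      rw [← Int.not_even_iff_odd, even_iff_two_dvd]
      exact_mod_cast this
    refine ⟨evenModel b' c hc, ?_, fun p hp _ => ipar_prime hp, card_le_of _ a b c ?_ ?_⟩
    · simp only [evenModel]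
      rintro ⟨r, hr⟩
      exact hD ⟨2 * r, by rw [h, hb']; linear_combination 4 * hr⟩
    · simp [evenModel]
    · intro n m hn hcol
      simp only [evenModel, Model.val] at hn hcol
      have e : a * (m : ℤ) ^ 2 + b * m + c = (n : ℤ) ^ 2 + b' * n + c := by
        rw [hn, h, hb']; ring
      rw [e]; exact hcol

end Pool.Agent.P.MP_a1177c_nt
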