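import Pool.Agent.P.MP_a1177c_nt.Final
import Pool.Agent.P.MP_a1177c_nt.Models

set_option autoImplicit false

namespace Pool.Agent.P.MP_a1177c_nt.OddValuesResult

open Pool.Agent.P.MP_a1177c_nt

/-- For `f = aX² + bX + c` primitive with non-square discriminant, `1 ≤ a ≤ 4` and `a ∣ b²`, at least
`X exp(-C √(log X))` integers `1 ≤ m ≤ X` have `Ω(|f(m)|)` odd. -/
theorem result (a b c : ℤ) (ha : 0 < a) (ha4 : a ≤ 4) (hab : a ∣ b ^ 2)
    (hg : Int.gcd (Int.gcd a b : ℤ) c = 1) (hD : ¬ IsSquare (b ^ 2 - 4 * a * c)) :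
    ∃ C : ℝ, ∃ X₀ : ℕ, ∀ X : ℕ, X₀ ≤ X →
      (X : ℝ) * Real.exp (-C * Real.sqrt (Real.log X)) ≤
        (((Finset.Icc 1 X).filter (fun m : ℕ =>
          Odd (ArithmeticFunction.cardFactors (a * (m : ℤ) ^ 2 + b * m + c).natAbs))).card : ℝ) := by
  obtain ⟨M, h1, h2, h3⟩ := exists_model a b c ha ha4 hab hg hD
  obtain ⟨C, _, X₀, h⟩ := M.oddSet_lower h1 h2
  refine ⟨C, X₀, fun X hX => (h X hX).trans ?_⟩
  exact_mod_cast h3 X

end Pool.Agent.P.MP_a1177c_nt.OddValuesResult
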